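import Pool.Agent.R292.ND.Stm

/-!
Piece ND-BAD (helper250).
-/

open Set Real

namespace Pool.Agent.R292.ND

namespace BadAux

lemma int_cos (m : ℤ) (hm : m ≠ 0) : ∫ x in (0 : ℝ)..π, cos (m * x) = 0 := by
  have h : (m : ℝ) ≠ 0 := by exact_mod_cast hm
  rw [intervalIntegral.integral_comp_mul_left (fun x => cos x) h]
  simp [integral_cos, Real.sin_int_mul_pi]

lemma int_coscos (p q : ℕ) (hp : 1 ≤ p) :
    ∫ x in (0 : ℝ)..π, cos (q * x) * cos (p * x) = if q = p then π / 2 else 0 := by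
  have h1 : ∀ x : ℝ, cos (q * x) * cos (p * x) =
      (cos (((q : ℤ) - p : ℤ) * x) + cos (((q : ℤ) + p : ℤ) * x)) / 2 := by
    intro x
    push_cast
    rw [sub_mul, add_mul, cos_sub, cos_add]
    ring
  simp_rw [h1]
  rw [intervalIntegral.integral_div, intervalIntegral.integral_add
    (Continuous.intervalIntegrable (by fun_prop) _ _)
    (Continuous.intervalIntegrable (by fun_prop) _ _)]
  rw [int_cos ((q : ℤ) + p) (by omega)]
  split_ifs with h
  · subst h
    simp
  · rw [int_cos _ (by omega)]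
    simp

lemma F1_cont (lam : ℕ) (A : ℕ → ℝ) : Continuous (F1 lam A) := by
  unfold F1
  fun_prop

lemma coef (lam : ℕ) (A : ℕ → ℝ) (p : ℕ) (hp : p ∈ P lam) (h1 : 1 ≤ p) :
    π / 2 * |A p| ≤ ∫ x in (0 : ℝ)..π, |F1 lam A x| := by
  have hc := F1_cont lam A
  have h : ∫ x in (0 : ℝ)..π, F1 lam A x * cos (p * x) = A p * (π / 2) := by
    unfold F1
    simp_rw [Finset.sum_mul, mul_assoc]
    rw [intervalIntegral.integral_finsetSum
      (fun i _ => Continuous.intervalIntegrable (by fun_prop) _ _)]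
    simp_rw [intervalIntegral.integral_const_mul, int_coscos p _ h1]
    simp [hp]
  calc π / 2 * |A p| = |∫ x in (0 : ℝ)..π, F1 lam A x * cos (p * x)| := by
        rw [h, abs_mul, abs_of_pos (show (0 : ℝ) < π / 2 by positivity)]
        ring
    _ ≤ ∫ x in (0 : ℝ)..π, |F1 lam A x * cos (p * x)| :=
        intervalIntegral.abs_integral_le_integral_abs pi_pos.le
    _ ≤ ∫ x in (0 : ℝ)..π, |F1 lam A x| := by
        refine intervalIntegral.integral_mono_on pi_pos.le
          (Continuous.intervalIntegrable (by fun_prop) _ _)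
          (Continuous.intervalIntegrable (by fun_prop) _ _) fun x _ => ?_
        rw [abs_mul]
        calc |F1 lam A x| * |cos (p * x)| ≤ |F1 lam A x| * 1 :=
              mul_le_mul_of_nonneg_left (abs_cos_le_one _) (abs_nonneg _)
          _ = |F1 lam A x| := mul_one _

lemma mem_P {lam p : ℕ} : p ∈ P lam ↔ p < lam + 1 ∧ ∃ q : ℕ, p ^ 2 + q ^ 2 = lam := by
  simp only [P, Finset.mem_filter, Finset.mem_range]

lemma zero_mem (N : ℕ) : 0 ∈ P (N ^ 2) := mem_P.2 ⟨by positivity, N, by ring⟩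

lemma low {N p : ℕ} (hp : p ∈ P (N ^ 2)) (h0 : p ≠ 0) : N ≤ p ^ 2 := by
  obtain ⟨_, q, hq⟩ := mem_P.1 hp
  have h1 : 0 < p ^ 2 := by positivity
  have h2 : q < N := by
    by_contra h
    push Not at h
    have : N ^ 2 ≤ q ^ 2 := Nat.pow_le_pow_left h 2
    omega
  have h3 : q + 1 ≤ N := h2
  zify at h3 hq ⊢
  nlinarith [mul_nonneg (show (0 : ℤ) ≤ N - q - 1 by linarith) (show (0 : ℤ) ≤ (N : ℤ) + q by positivity)]

lemma arc (hTRI : S_TRI) (N : ℕ) (hN : 1 ≤ N) (A : ℕ → ℝ) (hA0 : A 0 ≠ 0)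
    (hco : ∀ p ∈ P (N ^ 2), p ≠ 0 → |A p| ≤ 9 / 4 * |A 0|) (a b : ℝ) (hab : a < b)
    (hf : ∀ x ∈ Icc a b, A 0 * F1 (N ^ 2) A x ≤ 0) :
    (b - a) ^ 2 ≤ 36 * (P (N ^ 2)).card / N := by
  have hl : 0 < b - a := by linarith
  have hNr : (0 : ℝ) < N := by exact_mod_cast hN
  have h := hTRI (P (N ^ 2)) (fun p => A 0 * A p) a b hab (zero_mem N) (by
    intro x hx
    have := hf x hx
    unfold F1 at this
    rw [Finset.mul_sum] at this
    simpa [mul_assoc] using this)
  have hA2 : 0 < A 0 * A 0 := mul_self_pos.2 hA0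
  have hterm : ∀ p ∈ (P (N ^ 2)).erase 0, |A 0 * A p| * (8 / ((b - a) * (p : ℝ) ^ 2)) ≤
      18 * (A 0 * A 0) / ((b - a) * N) := by
    intro p hp
    obtain ⟨hp0, hpP⟩ := Finset.mem_erase.1 hp
    have h1 := hco p hpP hp0
    have h2 : (N : ℝ) ≤ (p : ℝ) ^ 2 := by exact_mod_cast low hpP hp0
    have h3 : |A 0 * A p| ≤ 9 / 4 * (A 0 * A 0) := by
      rw [abs_mul]
      calc |A 0| * |A p| ≤ |A 0| * (9 / 4 * |A 0|) :=
            mul_le_mul_of_nonneg_left h1 (abs_nonneg _)
        _ = 9 / 4 * (A 0 * A 0) := by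
            rw [← abs_mul_abs_self (A 0)]
            ring
    calc |A 0 * A p| * (8 / ((b - a) * (p : ℝ) ^ 2))
        ≤ (9 / 4 * (A 0 * A 0)) * (8 / ((b - a) * N)) := by
          apply mul_le_mul h3 _ (by positivity) (by positivity)
          apply div_le_div_of_nonneg_left (by norm_num) (by positivity)
          exact mul_le_mul_of_nonneg_left h2 hl.le
      _ = 18 * (A 0 * A 0) / ((b - a) * N) := by ring
  have hsum := Finset.sum_le_card_nsmul _ _ _ hterm
  have hcard : (((P (N ^ 2)).erase 0).card : ℝ) ≤ (P (N ^ 2)).card := by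
    exact_mod_cast Finset.card_erase_le
  rw [nsmul_eq_mul] at hsum
  have h4 : (A 0 * A 0) * ((b - a) / 2) ≤
      (P (N ^ 2)).card * (18 * (A 0 * A 0) / ((b - a) * N)) := by
    refine (h.trans hsum).trans ?_
    exact mul_le_mul_of_nonneg_right hcard (by positivity)
  rw [le_div_iff₀ hNr]
  have h5 : (P (N ^ 2)).card * (18 * (A 0 * A 0) / ((b - a) * N)) =
      (A 0 * A 0) * (18 * (P (N ^ 2)).card / ((b - a) * N)) := by ring
  rw [h5] at h4
  have h6 := le_of_mul_le_mul_left h4 hA2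
  rw [le_div_iff₀ (by positivity)] at h6
  nlinarith

lemma count (N σ : ℕ) (hN : 1 ≤ N) (a b : ℝ) (hab : a ≤ b) :
    (((Finset.range N).filter (fun j => a ≤ gx N σ j ∧ gx N σ j ≤ b)).card : ℝ) ≤
      (b - a) * N / (2 * π) + 1 := by
  classical
  have hNr : (0 : ℝ) < N := by exact_mod_cast hN
  have hpi := pi_pos
  have hba : 0 ≤ b - a := by linarith
  have hmemS : ∀ j ∈ (Finset.range N).filter (fun j => a ≤ gx N σ j ∧ gx N σ j ≤ b),
      a ≤ gx N σ j ∧ gx N σ j ≤ b := fun j hj => (Finset.mem_filter.mp hj).2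
  set S := (Finset.range N).filter (fun j => a ≤ gx N σ j ∧ gx N σ j ≤ b) with hS
  by_cases hne : S.Nonempty
  · have hmin := S.min'_mem hne
    have hmax := S.max'_mem hne
    have hsub : S ⊆ Finset.Icc (S.min' hne) (S.max' hne) := fun j hj =>
      Finset.mem_Icc.mpr ⟨S.min'_le j hj, S.le_max' j hj⟩
    have hc := Finset.card_le_card hsub
    rw [Nat.card_Icc] at hc
    have hmm : S.min' hne ≤ S.max' hne := S.min'_le _ hmax
    have h1 := (hmemS _ hmin).1
    have h2 := (hmemS _ hmax).2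
    generalize S.min' hne = u at *
    generalize S.max' hne = v at *
    have h3 : (2 * π / N) * ((v : ℝ) - u) ≤ b - a := by
      have : gx N σ v - gx N σ u = (2 * π / N) * ((v : ℝ) - u) := by
        unfold gx
        ring
      linarith
    have h4 : ((v : ℝ) - u) ≤ (b - a) * N / (2 * π) := by
      rw [le_div_iff₀ (by positivity)]
      have : (2 * π / N) * ((v : ℝ) - u) * N ≤ (b - a) * N :=
        mul_le_mul_of_nonneg_right h3 hNr.le
      have e : (2 * π / N) * ((v : ℝ) - u) * N = ((v : ℝ) - u) * (2 * π) := by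
        field_simp
      linarith
    have h5 : (S.card : ℝ) ≤ (v : ℝ) + 1 - u := by
      have : S.card + u ≤ v + 1 := by omega
      have : ((S.card + u : ℕ) : ℝ) ≤ ((v + 1 : ℕ) : ℝ) := by exact_mod_cast this
      push_cast at this
      linarith
    linarith
  · rw [Finset.not_nonempty_iff_eq_empty] at hne
    rw [hne]
    simp only [Finset.card_empty, Nat.cast_zero]
    positivity

lemma F1_refl (lam : ℕ) (A : ℕ → ℝ) (x : ℝ) : F1 lam A (2 * π - x) = F1 lam A x := by
  unfold F1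
  refine Finset.sum_congr rfl fun p _ => ?_
  congr 1
  have : (p : ℝ) * (2 * π - x) = p * (2 * π) - p * x := by ring
  rw [this, Real.cos_nat_mul_two_pi_sub]

lemma find_arc (m : ℕ) (z : ℕ → ℝ) (y : ℝ) (h0 : z 0 ≤ y) (h1 : y ≤ z m) (hm : 1 ≤ m) :
    ∃ i < m, z i ≤ y ∧ y ≤ z (i + 1) := by
  induction m with
  | zero => omega
  | succ m ih =>
    by_cases h : z m ≤ y
    · exact ⟨m, by omega, h, h1⟩
    · push Not at h
      rcases Nat.eq_zero_or_pos m with hm0 | hm0
      · subst hm0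
        exact absurd h0 (not_le.2 h)
      · obtain ⟨i, hi, hh⟩ := ih h.le hm0
        exact ⟨i, by omega, hh⟩

open Classical in
/-- right end of the `i`-th dangerous interval -/
noncomputable def bb (M : ℕ) (z : ℕ → ℝ) (g : ℝ → ℝ) (i : ℕ) : ℝ :=
  if i < M + 1 ∧ ∀ x ∈ Icc (z i) (z (i + 1)), g x ≤ 0 then z (i + 1) else z i

end BadAux

open BadAux in
/-- piece ND-BAD -/
theorem t_BAD (hNT : S_NT) (hPART : S_PART) (hTRI : S_TRI) (hSTAR : S_STAR) : S_BAD := by
  classical
  intro M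
  obtain ⟨K, hK⟩ := hNT 12
  obtain ⟨L, hL⟩ := hSTAR M
  refine ⟨L + (4096 * (M + 1) ^ 2) ^ 4 * K + 1, fun N hLN σ hσ A hAlt hA0 => ?_⟩
  have hN1 : 1 ≤ N := by omega
  have hNN : N ≤ N ^ 2 := by nlinarith
  have hLN1 : L ≤ N ^ 2 := by omega
  have hDN : (4096 * (M + 1) ^ 2) ^ 4 * K ≤ N := by omega
  have hNr : (0 : ℝ) < N := by exact_mod_cast hN1
  have hpi := pi_pos
  set r : ℕ := (P (N ^ 2)).card with hr
  have hr1 : 1 ≤ r := Finset.card_pos.2 ⟨0, zero_mem N⟩
  have hrr : (1 : ℝ) ≤ r := by exact_mod_cast hr1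
  -- coefficients
  have hI := hL (N ^ 2) hLN1 A 0 N (by ring) (Nat.zero_le _) (fun p _ => Nat.zero_le _) hAlt
  have hco : ∀ p ∈ P (N ^ 2), p ≠ 0 → |A p| ≤ 9 / 4 * |A 0| := by
    intro p hp hp0
    have h1 := coef (N ^ 2) A p hp (by omega)
    have h2 : ∫ x in (0 : ℝ)..π, |cos (((0 : ℕ) : ℝ) * x)| = π := by simp
    rw [h2] at hI
    have h3 : π / 2 * |A p| ≤ π / 2 * (200 / 98 * |A 0|) := by
      calc π / 2 * |A p| ≤ 100 / 98 * |A 0| * π := h1.trans hI
        _ = π / 2 * (200 / 98 * |A 0|) := by ring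
    have h4 := le_of_mul_le_mul_left h3 (by positivity)
    have h5 := abs_nonneg (A 0)
    linarith
  obtain ⟨z, s, hz0, hzm, hzmono, hs, hsign⟩ := hPART _ (F1_cont (N ^ 2) A) M hAlt
  set g : ℝ → ℝ := fun x => A 0 * F1 (N ^ 2) A x with hg
  set Q : ℝ := √(r * N) with hQ
  have hQ2 : Q ^ 2 = r * N := Real.sq_sqrt (by positivity)
  have hQ0 : 0 ≤ Q := Real.sqrt_nonneg _
  have hQ1 : 1 ≤ Q := by
    rw [hQ]
    apply Real.one_le_sqrt.2
    have : (1 : ℝ) ≤ N := by exact_mod_cast hN1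
    nlinarith
  have hb0 : ∀ i < M + 2, z i ≤ bb M z g i := by
    intro i hi
    unfold bb
    split_ifs with h
    · exact hzmono i h.1
    · exact le_refl _
  have hb1 : ∀ i < M + 2, (bb M z g i - z i) * N / (2 * π) ≤ Q := by
    intro i hi
    have key : bb M z g i - z i ≤ 6 * Q / N := by
      unfold bb
      split_ifs with h
      · rcases (hzmono i h.1).eq_or_lt with he | hlt
        · rw [← he]
          simp only [sub_self]
          positivity
        · have h1 := arc hTRI N hN1 A hA0 hco _ _ hlt h.2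
          have h2 : (6 * Q / N) ^ 2 = 36 * r / N := by
            rw [div_pow, mul_pow, hQ2]
            field_simp
            ring
          rw [← hr, ← h2] at h1
          exact le_of_sq_le_sq h1 (by positivity)
      · simp only [sub_self]
        positivity
    rw [div_le_iff₀ (by positivity)]
    have h3 : (bb M z g i - z i) * N ≤ 6 * Q := by
      calc (bb M z g i - z i) * N ≤ 6 * Q / N * N := mul_le_mul_of_nonneg_right key hNr.le
        _ = 6 * Q := by field_simp
    have h4 := pi_gt_three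
    nlinarith
  -- the cover
  let U : ℕ → Finset ℕ := fun i =>
    ((Finset.range N).filter (fun j => z i ≤ gx N σ j ∧ gx N σ j ≤ bb M z g i)) ∪
    ((Finset.range N).filter (fun j => 2 * π - bb M z g i ≤ gx N σ j ∧ gx N σ j ≤ 2 * π - z i))
  have hcov : Bad N σ A ⊆ (Finset.range (M + 2)).biUnion U := by
    intro j hj
    unfold Bad at hj
    obtain ⟨hjN, hbad⟩ := Finset.mem_filter.1 hj
    have hjN' := Finset.mem_range.1 hjN
    have hx0 : 0 ≤ gx N σ j := by
      unfold gx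
      positivity
    have hx2 : gx N σ j < 2 * π := by
      unfold gx
      rw [div_lt_iff₀ hNr]
      have h1 : (2 * j + σ : ℝ) < 2 * N := by
        have : 2 * j + σ < 2 * N := by omega
        exact_mod_cast this
      nlinarith
    set x := gx N σ j with hx
    -- reflection
    obtain ⟨y, hy0, hyπ, hyx, hUy⟩ : ∃ y : ℝ, 0 ≤ y ∧ y ≤ π ∧
        (∀ x' : ℝ, ∃ y' : ℝ, F1 (N ^ 2) A x' = F1 (N ^ 2) A y' ∧ |y' - y| = |x' - x|) ∧
        ∀ i < M + 2, z i ≤ y → y ≤ bb M z g i → j ∈ (Finset.range (M + 2)).biUnion U := by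
      by_cases hxπ : x ≤ π
      · refine ⟨x, hx0, hxπ, fun x' => ⟨x', rfl, rfl⟩, fun i hi h1 h2 => ?_⟩
        refine Finset.mem_biUnion.2 ⟨i, Finset.mem_range.2 hi, ?_⟩
        refine Finset.mem_union_left _ (Finset.mem_filter.2 ⟨hjN, ?_⟩)
        exact ⟨h1, h2⟩
      · push Not at hxπ
        refine ⟨2 * π - x, by linarith, by linarith,
          fun x' => ⟨2 * π - x', (F1_refl _ _ _).symm, ?_⟩, fun i hi h1 h2 => ?_⟩
        · rw [← abs_neg]
          congr 1
          ring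
        refine Finset.mem_biUnion.2 ⟨i, Finset.mem_range.2 hi, ?_⟩
        refine Finset.mem_union_right _ (Finset.mem_filter.2 ⟨hjN, ?_⟩)
        exact ⟨by linarith, by linarith⟩
    obtain ⟨i, hi, hzi, hzi1⟩ := find_arc (M + 1) z y (hz0 ▸ hy0) (hzm ▸ hyπ) (by omega)
    rcases hzi.eq_or_lt with he | hlt
    · exact hUy i (by omega) hzi (he ▸ hb0 i (by omega))
    rcases hzi1.eq_or_lt with he1 | hlt1
    · exact hUy (i + 1) (by omega) he1.ge (he1 ▸ hb0 (i + 1) (by omega))
    by_cases hpos : 0 < s i * A 0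
    · exfalso
      apply hbad
      refine ⟨min (y - z i) (z (i + 1) - y), lt_min (by linarith) (by linarith), fun x' hx' => ?_⟩
      obtain ⟨y', hf, hd⟩ := hyx x'
      rw [hf]
      rw [← hd] at hx'
      have h1 := (lt_min_iff.1 hx').1
      have h2 := (lt_min_iff.1 hx').2
      have h3 := abs_lt.1 h1
      have h4 := abs_lt.1 h2
      have h5 := hsign i hi y' ⟨by linarith, by linarith⟩
      rcases hs i hi with hs1 | hs1
      · rw [hs1] at hpos h5
        nlinarith
      · rw [hs1] at hpos h5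
        nlinarith
    · apply hUy i (by omega) hzi
      have : bb M z g i = z (i + 1) := by
        unfold bb
        rw [if_pos]
        refine ⟨hi, fun x' hx' => ?_⟩
        have h5 := hsign i hi x' hx'
        simp only [hg]
        rcases hs i hi with hs1 | hs1
        · rw [hs1] at hpos h5
          push Not at hpos
          nlinarith
        · rw [hs1] at hpos h5
          push Not at hpos
          nlinarith
      rw [this]
      exact hzi1
  have hU : ∀ i ∈ Finset.range (M + 2), ((U i).card : ℝ) ≤ 2 * (Q + 1) := by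
    intro i hi
    have hi' := Finset.mem_range.1 hi
    have h1 := count N σ hN1 _ _ (hb0 i hi')
    have h2 := count N σ hN1 (2 * π - bb M z g i) (2 * π - z i) (by linarith [hb0 i hi'])
    have h3 := hb1 i hi'
    have h4 : 2 * π - z i - (2 * π - bb M z g i) = bb M z g i - z i := by ring
    rw [h4] at h2
    have h5 := Finset.card_union_le
      ((Finset.range N).filter (fun j => z i ≤ gx N σ j ∧ gx N σ j ≤ bb M z g i))
      ((Finset.range N).filter
        (fun j => 2 * π - bb M z g i ≤ gx N σ j ∧ gx N σ j ≤ 2 * π - z i))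
    have h6 : (((U i).card : ℕ) : ℝ) ≤ ((_ + _ : ℕ) : ℝ) := Nat.cast_le.2 h5
    push_cast at h6
    linarith
  have hcard : ((Bad N σ A).card : ℝ) ≤ (M + 2) * (2 * (Q + 1)) := by
    have h1 : ((Bad N σ A).card : ℝ) ≤ ((Finset.range (M + 2)).biUnion U).card := by
      exact_mod_cast Finset.card_le_card hcov
    have h2 : ((((Finset.range (M + 2)).biUnion U).card : ℕ) : ℝ) ≤
        ∑ i ∈ Finset.range (M + 2), ((U i).card : ℝ) := by
      exact_mod_cast Finset.card_biUnion_le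
    have h3 := Finset.sum_le_card_nsmul _ _ _ hU
    rw [nsmul_eq_mul, Finset.card_range] at h3
    push_cast at h3
    linarith
  have hcard2 : ((Bad N σ A).card : ℝ) ≤ 8 * (M + 1) * Q := by
    have hM : (0 : ℝ) ≤ M := by positivity
    nlinarith
  -- arithmetic
  have hr3 : 4096 * (M + 1) ^ 2 * r ^ 3 ≤ N := by
    have h1 := hK (N ^ 2) (by nlinarith)
    rw [← hr] at h1
    have h2 : (4096 * (M + 1) ^ 2 * r ^ 3) ^ 4 ≤ N ^ 4 := by
      calc (4096 * (M + 1) ^ 2 * r ^ 3) ^ 4 = (4096 * (M + 1) ^ 2) ^ 4 * r ^ 12 := by ring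
        _ ≤ (4096 * (M + 1) ^ 2) ^ 4 * (K * N ^ 2) := Nat.mul_le_mul_left _ h1
        _ = ((4096 * (M + 1) ^ 2) ^ 4 * K) * N ^ 2 := by ring
        _ ≤ N * N ^ 2 := Nat.mul_le_mul_right _ hDN
        _ ≤ N ^ 2 * N ^ 2 := Nat.mul_le_mul_right _ hNN
        _ = N ^ 4 := by ring
    exact (Nat.pow_le_pow_iff_left (by norm_num)).1 h2
  have hr3' : 4096 * ((M : ℝ) + 1) ^ 2 * r ^ 3 ≤ N := by exact_mod_cast hr3
  have hfin : ((8 * r * (Bad N σ A).card : ℕ) : ℝ) ≤ N := by
    push_cast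
    apply le_of_sq_le_sq _ hNr.le
    have h1 : (8 * r * ((Bad N σ A).card : ℝ)) ≤ 8 * r * (8 * (M + 1) * Q) :=
      mul_le_mul_of_nonneg_left hcard2 (by positivity)
    calc (8 * r * ((Bad N σ A).card : ℝ)) ^ 2 ≤ (8 * r * (8 * (M + 1) * Q)) ^ 2 :=
          pow_le_pow_left₀ (by positivity) h1 2
      _ = (4096 * ((M : ℝ) + 1) ^ 2 * r ^ 2) * Q ^ 2 := by ring
      _ = (4096 * ((M : ℝ) + 1) ^ 2 * r ^ 3) * N := by rw [hQ2]; ring
      _ ≤ N * N := mul_le_mul_of_nonneg_right hr3' hNr.le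
      _ = (N : ℝ) ^ 2 := by ring
  exact_mod_cast hfin

end Pool.Agent.R292.ND
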