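import Pool.Agent.R292.ND.Stm

/-! ND-COMB (helper164): words without alternating crossings have bounded length. -/

namespace Pool.Agent.R292.ND

namespace COMB

theorem main (n : ℕ) : ∃ g : ℕ, ∀ T : Finset ℕ, T.card ≤ n → ∀ (m : ℕ) (lab : ℕ → ℕ),
    (∀ i < m, lab i ∈ T) →
    (∀ i < m, ∀ j < m, i % 2 ≠ j % 2 → lab i ≠ lab j) →
    (¬ ∃ i j k l, i < j ∧ j < k ∧ k < l ∧ l < m ∧ i % 2 ≠ j % 2 ∧ lab i = lab k ∧ lab j = lab l) →
    m ≤ g := by
  induction n with
  | zero =>
    refine ⟨0, ?_⟩
    intro T hT m lab h1 _ _
    by_contra hm
    have h0 := h1 0 (by omega)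
    have hT0 : T = ∅ := Finset.card_eq_zero.mp (by omega)
    rw [hT0] at h0
    exact absurd h0 (Finset.notMem_empty _)
  | succ n ih =>
    obtain ⟨g, hg⟩ := ih
    refine ⟨(n + 1) * (g + 1), ?_⟩
    intro T hT m lab h1 h2 h3
    by_cases hm0 : m = 0
    · omega
    set a := lab 0 with ha
    have haT : a ∈ T := h1 0 (by omega)
    have hE : (T.erase a).card ≤ n := by
      rw [Finset.card_erase_of_mem haT]; omega
    -- occurrences
    set Occ : Finset ℕ := (Finset.range m).filter (fun i => lab i = a) with hOcc
    have heven : ∀ i < m, lab i = a → i % 2 = 0 := by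
      intro i hi hia
      by_contra hne
      exact h2 i hi 0 (by omega) (by omega) (by rw [hia])
    set Occ' : Finset ℕ := Occ.filter (fun i => i + 1 < m) with hOcc'
    have hcard' : Occ'.card ≤ n := by
      refine le_trans ?_ hE
      refine Finset.card_le_card_of_injOn (fun i => lab (i + 1)) ?_ ?_
      · intro i hi
        have hi' := Finset.mem_coe.mp hi
        rw [hOcc', Finset.mem_filter, hOcc, Finset.mem_filter, Finset.mem_range] at hi'
        have hgoal : lab (i + 1) ∈ T.erase a := by
          rw [Finset.mem_erase]
          refine ⟨?_, h1 _ hi'.2⟩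
          have h5 := h2 (i + 1) hi'.2 i hi'.1.1 (by omega)
          rw [hi'.1.2] at h5
          exact h5
        exact Finset.mem_coe.mpr hgoal
      · intro i hi j hj hij
        have hi' := Finset.mem_coe.mp hi
        have hj' := Finset.mem_coe.mp hj
        rw [hOcc', Finset.mem_filter, hOcc, Finset.mem_filter, Finset.mem_range] at hi' hj'
        have hij' : lab (i + 1) = lab (j + 1) := hij
        have ei := heven i hi'.1.1 hi'.1.2
        have ej := heven j hj'.1.1 hj'.1.2
        rcases lt_trichotomy i j with hlt | heq | hgt
        · exfalso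
          exact h3 ⟨i, i + 1, j, j + 1, by omega, by omega, by omega, hj'.2, by omega,
            by rw [hi'.1.2, hj'.1.2], hij'⟩
        · exact heq
        · exfalso
          exact h3 ⟨j, j + 1, i, i + 1, by omega, by omega, by omega, hi'.2, by omega,
            by rw [hi'.1.2, hj'.1.2], hij'.symm⟩
    have hcard : Occ.card ≤ n + 1 := by
      have hsub : Occ ⊆ insert (m - 1) Occ' := by
        intro i hi
        have hi' := hi
        rw [hOcc, Finset.mem_filter, Finset.mem_range] at hi'
        rw [Finset.mem_insert]
        by_cases hc : i + 1 < m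
        · right
          rw [hOcc', Finset.mem_filter]
          exact ⟨hi, hc⟩
        · left
          omega
      calc Occ.card ≤ (insert (m - 1) Occ').card := Finset.card_le_card hsub
        _ ≤ Occ'.card + 1 := Finset.card_insert_le _ _
        _ ≤ n + 1 := by omega
    have hcov : Finset.range m ⊆
        (Occ ×ˢ Finset.range (g + 1)).image (fun z => z.1 + z.2) := by
      intro i hi
      rw [Finset.mem_range] at hi
      set o := Nat.findGreatest (fun j => lab j = a) i with ho
      have hoi : o ≤ i := Nat.findGreatest_le i
      have hoa : lab o = a := by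
        have := @Nat.findGreatest_spec 0 (fun j => lab j = a) _ i (Nat.zero_le _) ha.symm
        exact this
      have hgr : ∀ k, o < k → k ≤ i → lab k ≠ a := by
        intro k hk hki
        exact Nat.findGreatest_is_greatest (P := fun j => lab j = a) hk hki
      have hlen : i - o ≤ g := by
        refine hg (T.erase a) hE (i - o) (fun j => lab (o + 1 + j)) ?_ ?_ ?_
        · intro j hj
          rw [Finset.mem_erase]
          exact ⟨hgr _ (by omega) (by omega), h1 _ (by omega)⟩
        · intro j hj k hk hjk
          exact h2 _ (by omega) _ (by omega) (by omega)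
        · rintro ⟨j, k, l, q, hjk, hkl, hlq, hq, hpar, e1, e2⟩
          exact h3 ⟨o + 1 + j, o + 1 + k, o + 1 + l, o + 1 + q, by omega, by omega, by omega,
            by omega, by omega, e1, e2⟩
      rw [Finset.mem_image]
      refine ⟨(o, i - o), ?_, ?_⟩
      · rw [Finset.mem_product]
        constructor
        · rw [hOcc, Finset.mem_filter, Finset.mem_range]
          exact ⟨by omega, hoa⟩
        · rw [Finset.mem_range]
          show i - o < g + 1
          omega
      · show o + (i - o) = i
        omega
    calc m = (Finset.range m).card := (Finset.card_range m).symm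
      _ ≤ _ := Finset.card_le_card hcov
      _ ≤ (Occ ×ˢ Finset.range (g + 1)).card := Finset.card_image_le
      _ = Occ.card * (g + 1) := by rw [Finset.card_product, Finset.card_range]
      _ ≤ (n + 1) * (g + 1) := Nat.mul_le_mul_right _ hcard

end COMB

theorem t_COMB : S_COMB := by
  intro K
  obtain ⟨g, hg⟩ := COMB.main K
  refine ⟨g, ?_⟩
  intro m lab h1 h2 h3
  exact hg (Finset.range K) (by rw [Finset.card_range]) m lab
    (fun i hi => Finset.mem_range.mpr (h1 i hi)) h2 h3

end Pool.Agent.R292.ND
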