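import Pool.Agent.R292.ND.Stm

/-!
Project ND, piece ND-COMP: few nodal domains give few alternations on the lower side.
-/

open Set Real Topology

namespace Pool.Agent.R292.ND.COMP

theorem mem_iff {u : ℝ × ℝ → ℝ} (hu : Continuous u) (z : ℝ × ℝ) :
    z ∈ Om \ nodalSet u ↔ z ∈ Om ∧ u z ≠ 0 := by
  constructor
  · rintro ⟨h1, h2⟩
    exact ⟨h1, fun h3 => h2 (subset_closure ⟨h1, h3⟩)⟩
  · rintro ⟨h1, h2⟩
    refine ⟨h1, fun h3 => h2 ?_⟩
    have h4 : closure {z | z ∈ Om ∧ u z = 0} ⊆ {z | u z = 0} :=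
      closure_minimal (fun w hw => hw.2) (isClosed_eq hu continuous_const)
    exact h4 h3

theorem isOpen_Om : IsOpen Om := isOpen_Ioo.prod isOpen_Ioo

theorem isOpen_S (u : ℝ × ℝ → ℝ) : IsOpen (Om \ nodalSet u) :=
  isOpen_Om.sdiff isClosed_closure

/-- the sign is constant on a component -/
theorem sign_comp {u : ℝ × ℝ → ℝ} (hu : Continuous u) {C : Set (ℝ × ℝ)} (hC : IsPreconnected C)
    (hCS : C ⊆ Om \ nodalSet u) {ε : ℝ} (hε : ε ≠ 0) {w : ℝ × ℝ} (hw : w ∈ C)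
    (hpos : 0 < ε * u w) {z : ℝ × ℝ} (hz : z ∈ C) : 0 < ε * u z := by
  by_contra hcon
  have h1 : (0 : ℝ) ∈ Icc (ε * u z) (ε * u w) := ⟨not_lt.1 hcon, hpos.le⟩
  obtain ⟨z', hz', h2⟩ := hC.intermediate_value hz hw
    (f := fun z => ε * u z) (by fun_prop) h1
  have h3 := ((mem_iff hu z').1 (hCS hz')).2
  have h4 : ε * u z' = 0 := h2
  exact (mul_ne_zero hε h3) h4

/-- a vertical segment -/
theorem seg {u : ℝ × ℝ → ℝ} {t δ ε : ℝ} (hδ : 0 < δ)
    (h : ∀ y ∈ Icc 0 δ, 0 < ε * u (t, y)) :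
    JoinedIn {z : ℝ × ℝ | 0 ≤ z.2 ∧ 0 < ε * u z} (t, 0) (t, δ) := by
  refine JoinedIn.of_segment_subset ?_
  rintro z ⟨a, b, ha, hb, hab, rfl⟩
  have h1 : a • ((t, 0) : ℝ × ℝ) + b • ((t, δ) : ℝ × ℝ) = (t, b * δ) := by
    ext
    · simp only [Prod.smul_mk, smul_eq_mul, Prod.mk_add_mk]
      rw [← add_mul, hab, one_mul]
    · simp only [Prod.smul_mk, smul_eq_mul, Prod.mk_add_mk]
      ring
  have h2 : b ≤ 1 := by linarith
  have h3 : 0 ≤ b * δ := mul_nonneg hb hδ.le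
  have h4 : b * δ ≤ δ := by nlinarith
  rw [h1]
  exact ⟨h3, h _ ⟨h3, h4⟩⟩

/-- the path through a component -/
theorem path {u : ℝ × ℝ → ℝ} (hu : Continuous u) {t t' δ δ' ε : ℝ} (hε : ε ≠ 0) (hδ : 0 < δ)
    (hδ' : 0 < δ') (h : ∀ y ∈ Icc 0 δ, 0 < ε * u (t, y))
    (h' : ∀ y ∈ Icc 0 δ', 0 < ε * u (t', y)) (hw : (t, δ) ∈ Om \ nodalSet u)
    (hc : (t', δ') ∈ connectedComponentIn (Om \ nodalSet u) (t, δ)) :
    ∃ α : ℝ → ℝ × ℝ, ContinuousOn α (Icc 0 1) ∧ α 0 = (t, 0) ∧ α 1 = (t', 0) ∧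
      ∀ s ∈ Icc (0 : ℝ) 1, 0 ≤ (α s).2 ∧ 0 < ε * u (α s) := by
  have hopen : IsOpen (connectedComponentIn (Om \ nodalSet u) (t, δ)) :=
    (isOpen_S u).connectedComponentIn
  have hconn : IsConnected (connectedComponentIn (Om \ nodalSet u) (t, δ)) :=
    isConnected_connectedComponentIn_iff.2 hw
  have hpath := (hopen.isConnected_iff_isPathConnected).1 hconn
  have hself : (t, δ) ∈ connectedComponentIn (Om \ nodalSet u) (t, δ) :=
    mem_connectedComponentIn hw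
  have h1 : JoinedIn (connectedComponentIn (Om \ nodalSet u) (t, δ)) (t, δ) (t', δ') :=
    hpath.joinedIn _ hself _ hc
  have h2 : connectedComponentIn (Om \ nodalSet u) (t, δ) ⊆
      {z : ℝ × ℝ | 0 ≤ z.2 ∧ 0 < ε * u z} := by
    intro z hz
    have hz' := connectedComponentIn_subset _ _ hz
    refine ⟨hz'.1.2.1.le, ?_⟩
    exact sign_comp hu isPreconnected_connectedComponentIn (connectedComponentIn_subset _ _) hε
      hself (h δ ⟨hδ.le, le_rfl⟩) hz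
  have h3 : JoinedIn {z : ℝ × ℝ | 0 ≤ z.2 ∧ 0 < ε * u z} (t, 0) (t', 0) :=
    ((seg hδ h).trans (h1.mono h2)).trans (seg hδ' h').symm
  obtain ⟨γ, hγ⟩ := h3
  refine ⟨γ.extend, γ.continuous_extend.continuousOn, γ.extend_zero, γ.extend_one, ?_⟩
  intro s hs
  rw [γ.extend_apply hs]
  exact hγ ⟨s, hs⟩

/-- heights -/
theorem height {u : ℝ × ℝ → ℝ} (hu : Continuous u) {t ε : ℝ} (h : 0 < ε * u (t, 0)) :
    ∃ δ : ℝ, 0 < δ ∧ δ < π ∧ ∀ y ∈ Icc 0 δ, 0 < ε * u (t, y) := by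
  have h1 : Continuous fun y : ℝ => ε * u (t, y) := by fun_prop
  have h2 : ∀ᶠ y in 𝓝 (0 : ℝ), 0 < ε * u (t, y) :=
    h1.continuousAt.eventually (lt_mem_nhds h)
  obtain ⟨r, hr, h3⟩ := Metric.eventually_nhds_iff.1 h2
  refine ⟨min (r / 2) 1, by positivity, ?_, fun y hy => h3 ?_⟩
  · exact lt_of_le_of_lt (min_le_right _ _) (by linarith [Real.pi_gt_three])
  · rw [Real.dist_eq, sub_zero, abs_of_nonneg hy.1]
    have := hy.2.trans (min_le_left (r / 2) 1)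
    linarith

/-- signs of an alternating sequence -/
theorem sign_alt {f : ℝ → ℝ} {m : ℕ} {t : ℕ → ℝ} (h : Alt f m t) :
    ∃ σ : ℝ, σ ≠ 0 ∧ ∀ i, i < m → 0 < (-1) ^ i * σ * f (t i) := by
  rcases Nat.eq_zero_or_pos m with hm | hm
  · exact ⟨1, one_ne_zero, fun i hi => by omega⟩
  · have h0 := (h.1 0 hm).2
    refine ⟨f (t 0), h0, fun i => ?_⟩
    induction i with
    | zero =>
      intro _
      rw [pow_zero, one_mul]
      exact mul_self_pos.2 h0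
    | succ i ih =>
      intro hi
      have h1 := ih (by omega)
      have h2 := (h.2 i hi).2
      have h3 : 0 < ((-1) ^ i * f (t 0) * f (t i)) * (-(f (t i) * f (t (i + 1)))) :=
        mul_pos h1 (by linarith)
      have h4 : ((-1) ^ i * f (t 0) * f (t i)) * (-(f (t i) * f (t (i + 1)))) =
          (f (t i)) ^ 2 * ((-1) ^ (i + 1) * f (t 0) * f (t (i + 1))) := by
        rw [pow_succ]
        ring
      rw [h4] at h3
      have h5 : 0 < (f (t i)) ^ 2 := by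
        have := (h.1 i (by omega)).2
        positivity
      exact (pos_iff_pos_of_mul_pos h3).1 h5

theorem pow_parity {i j : ℕ} (h : i % 2 ≠ j % 2) : ((-1 : ℝ)) ^ i = -(-1) ^ j := by
  rcases Nat.even_or_odd i with hi | hi <;> rcases Nat.even_or_odd j with hj | hj
  · exact absurd (by rw [Nat.even_iff.1 hi, Nat.even_iff.1 hj]) h
  · rw [hi.neg_one_pow, hj.neg_one_pow, neg_neg]
  · rw [hi.neg_one_pow, hj.neg_one_pow]
  · exact absurd (by rw [Nat.odd_iff.1 hi, Nat.odd_iff.1 hj]) h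

end Pool.Agent.R292.ND.COMP

namespace Pool.Agent.R292.ND

open COMP

/-- ND-COMP -/
theorem t_COMP (h1 : S_COMB) (h2 : S_CROSS) : S_COMP := by
  intro K
  obtain ⟨g, hg⟩ := h1 K
  refine ⟨g, fun u hu hcard m t halt => ?_⟩
  obtain ⟨σ, hσ, hsign⟩ := sign_alt halt
  have hfin : Finite (ConnectedComponents ↥(Om \ nodalSet u)) := by
    rw [← ENat.card_lt_top]
    exact lt_of_le_of_lt hcard (ENat.natCast_lt_top K)
  have hcard' : Nat.card (ConnectedComponents ↥(Om \ nodalSet u)) ≤ K := by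
    have h3 : nodalCount u = (Nat.card (ConnectedComponents ↥(Om \ nodalSet u)) : ℕ∞) :=
      ENat.card_eq_coe_natCard _
    rw [h3] at hcard
    exact_mod_cast hcard
  have hεne : ∀ i : ℕ, (-1 : ℝ) ^ i * σ ≠ 0 := fun i =>
    mul_ne_zero (pow_ne_zero _ (by norm_num)) hσ
  -- the heights
  have hδ : ∀ i : Fin m, ∃ δ : ℝ, 0 < δ ∧ δ < π ∧
      ∀ y ∈ Icc 0 δ, 0 < ((-1) ^ (i : ℕ) * σ) * u (t i, y) := fun i =>
    height hu (hsign i i.2)
  choose δ hδ0 hδπ hδu using hδ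
  have hmem : ∀ i : Fin m, (t i, δ i) ∈ Om \ nodalSet u := by
    intro i
    rw [mem_iff hu]
    refine ⟨⟨(halt.1 i i.2).1, hδ0 i, hδπ i⟩, fun h3 => ?_⟩
    have h4 := hδu i (δ i) ⟨(hδ0 i).le, le_rfl⟩
    rw [h3, mul_zero] at h4
    exact lt_irrefl _ h4
  obtain ⟨cc, hcc⟩ : ∃ cc : Fin m → ConnectedComponents ↥(Om \ nodalSet u),
      cc = fun i : Fin m => ((⟨(t i, δ i), hmem i⟩ : ↥(Om \ nodalSet u)) :
        ConnectedComponents ↥(Om \ nodalSet u)) := ⟨_, rfl⟩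
  have hcomp : ∀ i j : Fin m, cc i = cc j →
      (t j, δ j) ∈ connectedComponentIn (Om \ nodalSet u) (t i, δ i) := by
    intro i j hij
    rw [hcc] at hij
    have h3 := ConnectedComponents.coe_eq_coe'.1 hij.symm
    rw [connectedComponentIn_eq_image (hmem i)]
    exact ⟨_, h3, rfl⟩
  have hpar : ∀ i j : Fin m, (i : ℕ) % 2 ≠ (j : ℕ) % 2 → cc i ≠ cc j := by
    intro i j hij hc
    have h3 := hcomp i j hc
    have h4 := sign_comp hu isPreconnected_connectedComponentIn (connectedComponentIn_subset _ _)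
      (hεne i) (mem_connectedComponentIn (hmem i)) (hδu i (δ i) ⟨(hδ0 i).le, le_rfl⟩) h3
    have h5 := hδu j (δ j) ⟨(hδ0 j).le, le_rfl⟩
    rw [pow_parity hij] at h4
    nlinarith
  obtain ⟨E⟩ : Nonempty (ConnectedComponents ↥(Om \ nodalSet u) ≃
      Fin (Nat.card (ConnectedComponents ↥(Om \ nodalSet u)))) := ⟨Finite.equivFin _⟩
  obtain ⟨lab, hlab⟩ : ∃ lab : ℕ → ℕ, ∀ (i : ℕ) (hi : i < m), lab i = (E (cc ⟨i, hi⟩) : ℕ) :=
    ⟨fun i => if hi : i < m then (E (cc ⟨i, hi⟩) : ℕ) else 0, fun i hi => dif_pos hi⟩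
  have hlabeq : ∀ (i j : ℕ) (hi : i < m) (hj : j < m), lab i = lab j →
      cc ⟨i, hi⟩ = cc ⟨j, hj⟩ := by
    intro i j hi hj hij
    rw [hlab i hi, hlab j hj] at hij
    exact E.injective (Fin.ext hij)
  refine hg m lab (fun i hi => ?_) (fun i hi j hj hij hl => ?_) ?_
  · rw [hlab i hi]
    exact lt_of_lt_of_le (E (cc ⟨i, hi⟩)).2 hcard'
  · exact hpar ⟨i, hi⟩ ⟨j, hj⟩ hij (hlabeq i j hi hj hl)
  · rintro ⟨i, j, k, l, hij, hjk, hkl, hlm, hpij, hik, hjl⟩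
    have hi : i < m := by omega
    have hj : j < m := by omega
    have hk : k < m := by omega
    have hcik := hlabeq i k hi hk hik
    have hcjl := hlabeq j l hj hlm hjl
    have hmono : ∀ a b : ℕ, a < b → b < m → t a < t b := by
      intro a b hab
      induction b, hab using Nat.le_induction with
      | base => exact fun hb => (halt.2 a hb).1
      | succ b _ ih => exact fun hb => (ih (by omega)).trans (halt.2 b hb).1
    -- the signs at both ends agree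
    have hends : ∀ (a b : ℕ) (ha : a < m) (hb : b < m), cc ⟨a, ha⟩ = cc ⟨b, hb⟩ →
        ((-1 : ℝ)) ^ b = (-1) ^ a := by
      intro a b ha hb hab
      have h3 : a % 2 = b % 2 := by
        by_contra hcon
        exact hpar ⟨a, ha⟩ ⟨b, hb⟩ hcon hab
      rcases Nat.even_or_odd a with h4 | h4 <;> rcases Nat.even_or_odd b with h5 | h5
      · rw [h4.neg_one_pow, h5.neg_one_pow]
      · rw [Nat.even_iff] at h4
        rw [Nat.odd_iff] at h5
        omega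
      · rw [Nat.odd_iff] at h4
        rw [Nat.even_iff] at h5
        omega
      · rw [h4.neg_one_pow, h5.neg_one_pow]
    have hpath : ∀ (a b : ℕ) (ha : a < m) (hb : b < m), cc ⟨a, ha⟩ = cc ⟨b, hb⟩ →
        ∃ α : ℝ → ℝ × ℝ, ContinuousOn α (Icc 0 1) ∧ α 0 = (t a, 0) ∧ α 1 = (t b, 0) ∧
          ∀ s ∈ Icc (0 : ℝ) 1, 0 ≤ (α s).2 ∧ 0 < ((-1) ^ a * σ) * u (α s) := by
      intro a b ha hb hab
      have h3 := hδu ⟨b, hb⟩
      have h4 : ((-1 : ℝ)) ^ ((⟨b, hb⟩ : Fin m) : ℕ) = (-1) ^ a := hends a b ha hb hab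
      rw [h4] at h3
      exact COMP.path hu (hεne a) (hδ0 ⟨a, ha⟩) (hδ0 ⟨b, hb⟩) (hδu ⟨a, ha⟩) h3
        (hmem ⟨a, ha⟩) (hcomp ⟨a, ha⟩ ⟨b, hb⟩ hab)
    obtain ⟨α, hα, hα0, hα1, hαs⟩ := hpath i k hi hk hcik
    obtain ⟨β, hβ, hβ0, hβ1, hβs⟩ := hpath j l hj hlm hcjl
    obtain ⟨s, hs, s', hs', heq⟩ := h2 α β hα hβ (fun s hs => (hαs s hs).1)
      (fun s hs => (hβs s hs).1) (t i) (t j) (t k) (t l) (hmono i j hij hj)
      (hmono j k hjk hk) (hmono k l hkl hlm) hα0 hα1 hβ0 hβ1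
    have h3 := (hαs s hs).2
    have h4 := (hβs s' hs').2
    rw [heq, pow_parity hpij] at h3
    nlinarith

end Pool.Agent.R292.ND
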