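import Pool.Agent.R292.ND.Stm

open Set Real MeasureTheory

namespace Pool.Agent.R292.ND

namespace CORE

lemma mem_P {lam p : ℕ} : p ∈ P lam ↔ ∃ q : ℕ, p ^ 2 + q ^ 2 = lam := by
  classical
  simp only [P, Finset.mem_filter, Finset.mem_range]
  constructor
  · rintro ⟨_, h⟩; exact h
  · rintro ⟨q, h⟩
    refine ⟨?_, q, h⟩
    have : p ≤ p ^ 2 := Nat.le_self_pow (by norm_num) p
    have h2 : 0 ≤ q ^ 2 := Nat.zero_le _
    omega

lemma star_eq {lam p q : ℕ} (h : p ^ 2 + q ^ 2 = lam) : star lam p = q := by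
  unfold star
  have : lam - p ^ 2 = q ^ 2 := by omega
  rw [this, Nat.sqrt_eq']

lemma star_spec {lam p : ℕ} (h : p ∈ P lam) : p ^ 2 + (star lam p) ^ 2 = lam := by
  obtain ⟨q, hq⟩ := mem_P.1 h
  rw [star_eq hq]; exact hq

lemma star_mem {lam p : ℕ} (h : p ∈ P lam) : star lam p ∈ P lam :=
  mem_P.2 ⟨p, by have := star_spec h; omega⟩

lemma star_star {lam p : ℕ} (h : p ∈ P lam) : star lam (star lam p) = p :=
  star_eq (by have := star_spec h; omega)

lemma cont_F1 (lam : ℕ) (A : ℕ → ℝ) : Continuous (F1 lam A) := by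
  unfold F1; fun_prop

lemma int_cos_c {c : ℝ} (hc : c ≠ 0) (hs : sin (c * π) = 0) :
    ∫ x in (0 : ℝ)..π, cos (c * x) = 0 := by
  rw [intervalIntegral.integral_comp_mul_left (fun x => cos x) hc, integral_cos]
  simp [hs]

lemma sin_int (n : ℤ) : sin ((n : ℝ) * π) = 0 := Real.sin_int_mul_pi n

lemma int_ne {p q : ℕ} (h : p ≠ q) : ∫ x in (0 : ℝ)..π, cos (p * x) * cos (q * x) = 0 := by
  have h1 : ∀ x : ℝ, cos (p * x) * cos (q * x) =
      1 / 2 * cos (((p : ℝ) - q) * x) + 1 / 2 * cos (((p : ℝ) + q) * x) := by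
    intro x
    have e1 : ((p : ℝ) - q) * x = p * x - q * x := by ring
    have e2 : ((p : ℝ) + q) * x = p * x + q * x := by ring
    rw [e1, e2, cos_sub, cos_add]; ring
  simp_rw [h1]
  rw [intervalIntegral.integral_add (by apply Continuous.intervalIntegrable; fun_prop)
    (by apply Continuous.intervalIntegrable; fun_prop), intervalIntegral.integral_const_mul,
    intervalIntegral.integral_const_mul, int_cos_c, int_cos_c]
  · ring
  · have : (0 : ℝ) < p + q := by
      have : 0 < p + q := by omega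
      exact_mod_cast this
    exact this.ne'
  · have := sin_int ((p : ℤ) + q)
    push_cast at this; exact this
  · intro h0
    apply h
    have : (p : ℝ) = q := by linarith
    exact_mod_cast this
  · have := sin_int ((p : ℤ) - q)
    push_cast at this; exact this

lemma int_eq (p : ℕ) : π / 2 ≤ ∫ x in (0 : ℝ)..π, cos (p * x) * cos (p * x) := by
  rcases Nat.eq_zero_or_pos p with rfl | hp
  · simp; linarith [pi_pos]
  · have h1 : ∀ x : ℝ, cos (p * x) * cos (p * x) = 1 / 2 + 1 / 2 * cos ((2 * (p : ℝ)) * x) := by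
      intro x
      have e1 : (2 * (p : ℝ)) * x = 2 * (p * x) := by ring
      rw [e1, cos_two_mul]; ring
    simp_rw [h1]
    rw [intervalIntegral.integral_add (by apply Continuous.intervalIntegrable; fun_prop)
      (by apply Continuous.intervalIntegrable; fun_prop), intervalIntegral.integral_const_mul,
      int_cos_c]
    · simp; linarith
    · have : (0 : ℝ) < p := by exact_mod_cast hp
      positivity
    · have := sin_int (2 * (p : ℤ))
      push_cast at this; exact this

/-- coefficients are bounded by the `L1` norm -/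
lemma coef {lam p : ℕ} (A : ℕ → ℝ) (hp : p ∈ P lam) :
    |A p| * (π / 2) ≤ ∫ x in (0 : ℝ)..π, |F1 lam A x| := by
  have h1 : ∫ x in (0 : ℝ)..π, F1 lam A x * cos (p * x) =
      A p * ∫ x in (0 : ℝ)..π, cos (p * x) * cos (p * x) := by
    have e1 : ∀ x, F1 lam A x * cos (p * x) =
        ∑ q ∈ P lam, A q * (cos (q * x) * cos (p * x)) := by
      intro x; unfold F1; rw [Finset.sum_mul]
      exact Finset.sum_congr rfl fun q _ => by ring
    simp_rw [e1]
    rw [intervalIntegral.integral_finsetSum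
      (fun q _ => by apply Continuous.intervalIntegrable; fun_prop)]
    rw [Finset.sum_eq_single p]
    · rw [intervalIntegral.integral_const_mul]
    · intro q _ hq
      rw [intervalIntegral.integral_const_mul, int_ne hq, mul_zero]
    · intro h; exact absurd hp h
  have h2 : |∫ x in (0 : ℝ)..π, F1 lam A x * cos (p * x)| ≤
      ∫ x in (0 : ℝ)..π, |F1 lam A x * cos (p * x)| :=
    intervalIntegral.abs_integral_le_integral_abs pi_pos.le
  have h3 : ∫ x in (0 : ℝ)..π, |F1 lam A x * cos (p * x)| ≤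
      ∫ x in (0 : ℝ)..π, |F1 lam A x| := by
    have hc := cont_F1 lam A
    apply intervalIntegral.integral_mono_on pi_pos.le
    · apply Continuous.intervalIntegrable; fun_prop
    · apply Continuous.intervalIntegrable; fun_prop
    · intro x _
      rw [abs_mul]
      exact mul_le_of_le_one_right (abs_nonneg _) (abs_cos_le_one _)
  have h4 := int_eq p
  rw [h1, abs_mul, abs_of_nonneg (by linarith [pi_pos] :
    (0 : ℝ) ≤ ∫ x in (0 : ℝ)..π, cos (p * x) * cos (p * x))] at h2
  have h5 : |A p| * (π / 2) ≤ |A p| * ∫ x in (0 : ℝ)..π, cos (p * x) * cos (p * x) :=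
    mul_le_mul_of_nonneg_left h4 (abs_nonneg _)
  linarith

lemma int_abs_cos_pi : ∫ x in (0 : ℝ)..π, |cos x| = 2 := by
  have hi : ∀ a b : ℝ, IntervalIntegrable (fun x => |cos x|) volume a b := fun a b => by
    apply Continuous.intervalIntegrable; fun_prop
  rw [← intervalIntegral.integral_add_adjacent_intervals (hi 0 (π / 2)) (hi (π / 2) π)]
  have h1 : ∫ x in (0 : ℝ)..(π / 2), |cos x| = ∫ x in (0 : ℝ)..(π / 2), cos x := by
    apply intervalIntegral.integral_congr
    intro x hx
    rw [uIcc_of_le (by linarith [pi_pos])] at hx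
    exact abs_of_nonneg (cos_nonneg_of_neg_pi_div_two_le_of_le (by linarith [hx.1, pi_pos]) hx.2)
  have h2 : ∫ x in (π / 2)..π, |cos x| = ∫ x in (π / 2)..π, - cos x := by
    apply intervalIntegral.integral_congr
    intro x hx
    rw [uIcc_of_le (by linarith [pi_pos])] at hx
    exact abs_of_nonpos (cos_nonpos_of_pi_div_two_le_of_le hx.1 (by linarith [hx.2, pi_pos]))
  rw [h1, h2, intervalIntegral.integral_neg, integral_cos, integral_cos]
  simp; norm_num

lemma int_abs_cos {k : ℕ} (hk : 1 ≤ k) : ∫ x in (0 : ℝ)..π, |cos (k * x)| = 2 := by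
  have hk' : (k : ℝ) ≠ 0 := by
    have : (0 : ℝ) < k := by exact_mod_cast hk
    exact this.ne'
  rw [intervalIntegral.integral_comp_mul_left (fun x => |cos x|) hk']
  have hper : Function.Periodic (fun x => |cos x|) π := by
    intro x; simp [cos_add_pi]
  have h := hper.intervalIntegral_add_zsmul_eq (n := (k : ℤ)) (t := 0)
    (fun a b => by apply Continuous.intervalIntegrable; fun_prop)
  simp only [zero_add, zsmul_eq_mul, Int.cast_natCast] at h
  rw [mul_zero, h, int_abs_cos_pi]
  simp only [smul_eq_mul]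
  field_simp

end CORE

open CORE in
theorem t_CORE (hS : S_STAR) (hT : S_TWO) (hKB : S_KB) (hKC : S_KC) : S_CORE := by
  intro M
  obtain ⟨L1, hL1⟩ := hS M
  obtain ⟨L2, hL2⟩ := hT M
  obtain ⟨L3, hL3⟩ := hKB M
  obtain ⟨L4, hL4⟩ := hKC M
  refine ⟨L1 + L2 + L3 ^ 2 + L4 ^ 2 + 1, ?_⟩
  intro lam hlam A hne hA hB
  obtain ⟨p0, hp0, hAp0⟩ := hne
  have hne' : (P lam).Nonempty := ⟨p0, hp0⟩
  set k := (P lam).min' hne' with hk
  have hkP : k ∈ P lam := Finset.min'_mem _ _
  have hkmin : ∀ p ∈ P lam, k ≤ p := fun p hp => Finset.min'_le _ _ hp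
  set N := star lam k with hN
  have hNP : N ∈ P lam := star_mem hkP
  have hkN : k ≤ N := hkmin _ hNP
  have hlamkN : k ^ 2 + N ^ 2 = lam := star_spec hkP
  set B : ℕ → ℝ := fun p => A (star lam p) with hBdef
  have hsN : star lam N = k := star_star hkP
  have hBk : B k = A N := by simp [hBdef, hN]
  have hBN : B N = A k := by simp only [hBdef]; rw [hsN]
  -- both have nonzero coefficient at k
  have key : ∀ (C : ℕ → ℝ) (p : ℕ), p ∈ P lam → C p ≠ 0 → AltLe M (F1 lam C) → C k ≠ 0 := by
    intro C p hp hCp hC h0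
    have h1 := hL1 lam (by omega) C k N hlamkN hkN hkmin hC
    rw [h0, abs_zero, mul_zero, zero_mul] at h1
    have h2 := coef C hp
    have h3 : 0 < |C p| * (π / 2) := by
      have := abs_pos.2 hCp
      have := pi_pos
      positivity
    linarith
  have hAk : A k ≠ 0 := key A p0 hp0 hAp0 hA
  have hBk0 : B k ≠ 0 := by
    refine key B (star lam p0) (star_mem hp0) ?_ hB
    simp only [hBdef]
    rw [star_star hp0]; exact hAp0
  rcases Nat.eq_zero_or_pos k with hk0 | hk1
  · -- k = 0
    have hN2 : N ^ 2 = lam := by rw [hk0] at hlamkN; simpa using hlamkN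
    refine ⟨N, hN2, ?_⟩
    have hNbig : L3 ≤ N ∧ L4 ≤ N := by
      constructor
      · by_contra h
        push Not at h
        have : N ^ 2 ≤ L3 ^ 2 := Nat.pow_le_pow_left h.le 2
        omega
      · by_contra h
        push Not at h
        have : N ^ 2 ≤ L4 ^ 2 := Nat.pow_le_pow_left h.le 2
        omega
    rw [hk0] at hAk hBk0 hBk
    rw [hk0] at hBN
    -- choice of σ
    obtain ⟨σ, hσ, hη⟩ : ∃ σ : ℕ, σ ≤ 1 ∧ (-1 : ℝ) ^ σ * (A 0 * A N) = - (|A 0| * |A N|) := by
      rcases le_or_gt 0 (A 0 * A N) with h | h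
      · exact ⟨1, le_rfl, by rw [← abs_mul, abs_of_nonneg h]; ring⟩
      · exact ⟨0, by norm_num, by rw [← abs_mul, abs_of_neg h]; ring⟩
    have hA' : AltLe M (F1 (N ^ 2) A) := by rw [hN2]; exact hA
    have hB' : AltLe M (F1 (N ^ 2) B) := by rw [hN2]; exact hB
    have e1 := hL3 N hNbig.1 σ hσ A hA' hAk
    have e2 := hL3 N hNbig.1 σ hσ B hB' hBk0
    rw [hBk, hBN] at e2
    have hη' : (-1 : ℝ) ^ σ * (A N * A 0) = - (|A 0| * |A N|) := by rw [mul_comm (A N)]; exact hη
    rw [hη] at e1
    rw [hη'] at e2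
    have hNpos : 0 < N := by
      rcases Nat.eq_zero_or_pos N with h | h
      · exfalso
        rw [h] at hN2
        have : lam = 0 := by simpa using hN2.symm
        omega
      · exact h
    have hNr : (0 : ℝ) < N := by exact_mod_cast hNpos
    have s1 : 0 ≤ (∑ j ∈ Finset.range N, |F1 (N ^ 2) A (gx N σ j)|) * |A 0| := by positivity
    have s2 : 0 ≤ (∑ j ∈ Finset.range N, |F1 (N ^ 2) B (gx N σ j)|) * |A N| := by positivity
    have a0 : 0 < |A 0| := abs_pos.2 hAk
    have aN : 0 < |A N| := by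
      rw [hBk] at hBk0; exact abs_pos.2 hBk0
    have f1 : 0 ≤ A 0 ^ 2 + -(|A 0| * |A N|) := by
      by_contra h
      push Not at h
      have : 2 * (N : ℝ) * (A 0 ^ 2 + -(|A 0| * |A N|)) < 0 := by
        apply mul_neg_of_pos_of_neg (by positivity) h
      linarith
    have f2 : 0 ≤ A N ^ 2 + -(|A 0| * |A N|) := by
      by_contra h
      push Not at h
      have : 2 * (N : ℝ) * (A N ^ 2 + -(|A 0| * |A N|)) < 0 := by
        apply mul_neg_of_pos_of_neg (by positivity) h
      linarith
    have q0 : A 0 ^ 2 = |A 0| ^ 2 := (sq_abs _).symm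
    have qN : A N ^ 2 = |A N| ^ 2 := (sq_abs _).symm
    rw [q0] at f1 e1
    rw [qN] at f2
    have g1 : |A N| ≤ |A 0| := by
      by_contra h; push Not at h; nlinarith
    have g2 : |A 0| ≤ |A N| := by
      by_contra h; push Not at h; nlinarith
    have g : |A N| = |A 0| := le_antisymm g1 g2
    have hz : ∀ j < N, F1 (N ^ 2) A (gx N σ j) = 0 := by
      rw [g] at e1
      have e3 : (∑ j ∈ Finset.range N, |F1 (N ^ 2) A (gx N σ j)|) * |A 0| ≤ 0 := by
        have : 2 * (N : ℝ) * (|A 0| ^ 2 + -(|A 0| * |A 0|)) = 0 := by ring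
        linarith
      have e4 : (∑ j ∈ Finset.range N, |F1 (N ^ 2) A (gx N σ j)|) ≤ 0 := by
        by_contra h; push Not at h
        have := mul_pos h a0
        linarith
      intro j hj
      have e5 : |F1 (N ^ 2) A (gx N σ j)| ≤ ∑ j ∈ Finset.range N, |F1 (N ^ 2) A (gx N σ j)| :=
        Finset.single_le_sum (f := fun j => |F1 (N ^ 2) A (gx N σ j)|)
          (fun _ _ => abs_nonneg _) (Finset.mem_range.2 hj)
      have := abs_nonneg (F1 (N ^ 2) A (gx N σ j))
      exact abs_eq_zero.1 (by linarith)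
    have hfin := hL4 N hNbig.2 σ hσ A hA' hAk hz
    rw [hN2] at hfin
    exact ⟨hAk, abs_eq_abs.1 g, hfin⟩
  · -- k ≥ 1 : contradiction
    exfalso
    have main : ∀ C : ℕ → ℝ, C k ≠ 0 → AltLe M (F1 lam C) → |C N| < |C k| := by
      intro C hC hC2
      have h1 := hL1 lam (by omega) C k N hlamkN hkN hkmin hC2
      have h2 := hL2 lam (by omega) C k N hlamkN hkN hC2
      rw [int_abs_cos hk1] at h1
      have hc : 0 < |C k| := abs_pos.2 hC
      have hs2 : (1.414 : ℝ) < √2 := by
        rw [Real.lt_sqrt (by norm_num)]; norm_num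
      have hpi : (3.14 : ℝ) < π := pi_gt_d2
      have h3 : (101 / 100 / √2 : ℝ) < 0.7144 := by
        rw [div_lt_iff₀ (by linarith)]; nlinarith
      have h4 : 0 ≤ ∫ x in (0 : ℝ)..π, |F1 lam C x| :=
        intervalIntegral.integral_nonneg pi_pos.le fun x _ => abs_nonneg _
      have h5 : π / 2 * |C N| ≤ 0.7144 * (100 / 98 * |C k| * 2) := by
        calc π / 2 * |C N| ≤ 101 / 100 / √2 * ∫ x in (0 : ℝ)..π, |F1 lam C x| := h2
          _ ≤ 0.7144 * ∫ x in (0 : ℝ)..π, |F1 lam C x| := by
            apply mul_le_mul_of_nonneg_right h3.le h4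
          _ ≤ 0.7144 * (100 / 98 * |C k| * 2) := by
            apply mul_le_mul_of_nonneg_left h1 (by norm_num)
      have h6 : 0 ≤ |C N| := abs_nonneg _
      by_contra h
      push Not at h
      nlinarith
    have m1 := main A hAk hA
    have m2 := main B hBk0 hB
    rw [hBk, hBN] at m2
    linarith

end Pool.Agent.R292.ND
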