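import Mathlib

/-!
Statements for the project ND: nodal domains of the Neumann eigenfunctions of the square
(MP_65f45c_an).  Detailed proofs in NOTES.md of this folder.
-/

open Set Real

namespace Pool.Agent.R292.ND

/-! ### The problem -/

/-- the open square -/
def Om : Set (ℝ × ℝ) := Ioo 0 π ×ˢ Ioo 0 π

/-- the nodal set: closure of the zero set inside the open square -/
def nodalSet (u : ℝ × ℝ → ℝ) : Set (ℝ × ℝ) := closure {z | z ∈ Om ∧ u z = 0}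

/-- the number of nodal domains: connected components of the square minus the nodal set -/
noncomputable def nodalCount (u : ℝ × ℝ → ℝ) : ℕ∞ :=
  ENat.card (ConnectedComponents ↥(Om \ nodalSet u))

/-- Neumann eigenfunctions of the square for the eigenvalue `lam`: the nonzero elements of the real
span of the functions `cos (p x) cos (q y)`, `p ^ 2 + q ^ 2 = lam` -/
def IsEig (lam : ℕ) (u : ℝ × ℝ → ℝ) : Prop :=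
  u ∈ Submodule.span ℝ {f : ℝ × ℝ → ℝ | ∃ p q : ℕ, p ^ 2 + q ^ 2 = lam ∧
    f = fun z => cos (p * z.1) * cos (q * z.2)} ∧ u ≠ 0

/-- final theorem (uniform form) -/
def S_MAIN : Prop := ∀ C : ℕ, ∃ L : ℕ, ∀ lam : ℕ, L ≤ lam → ∀ u : ℝ × ℝ → ℝ, IsEig lam u →
  (C : ℕ∞) ≤ nodalCount u

/-! ### One variable objects -/

open Classical in
/-- abscissae of the lattice points of the closed first quadrant on the circle of radius √lam -/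
noncomputable def P (lam : ℕ) : Finset ℕ :=
  Finset.filter (fun p => ∃ q : ℕ, p ^ 2 + q ^ 2 = lam) (Finset.range (lam + 1))

/-- the other coordinate -/
def star (lam p : ℕ) : ℕ := Nat.sqrt (lam - p ^ 2)

noncomputable def F1 (lam : ℕ) (A : ℕ → ℝ) (x : ℝ) : ℝ := ∑ p ∈ P lam, A p * cos (p * x)

noncomputable def G1 (lam : ℕ) (A : ℕ → ℝ) (x : ℝ) : ℝ := ∑ p ∈ P lam, A p * sin (p * x)

/-- `t 0 < t 1 < ... < t (m-1)` in the open interval `(0, π)`, alternating nonzero signs -/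
def Alt (f : ℝ → ℝ) (m : ℕ) (t : ℕ → ℝ) : Prop :=
  (∀ i, i < m → t i ∈ Ioo 0 π ∧ f (t i) ≠ 0) ∧
  ∀ i, i + 1 < m → t i < t (i + 1) ∧ f (t i) * f (t (i + 1)) < 0

/-- at most `M` alternations -/
def AltLe (M : ℕ) (f : ℝ → ℝ) : Prop := ∀ m t, Alt f m t → m ≤ M

/-- `f` has constant weak sign `s i` on each of the `m` arcs `[z i, z (i+1)]` of `[0, π]` -/
def SignPart (m : ℕ) (z s : ℕ → ℝ) (f : ℝ → ℝ) : Prop :=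
  z 0 = 0 ∧ z m = π ∧ (∀ i, i < m → z i ≤ z (i + 1)) ∧ (∀ i, i < m → s i = 1 ∨ s i = -1) ∧
  ∀ i, i < m → ∀ x ∈ Icc (z i) (z (i + 1)), 0 ≤ s i * f x

/-- the grids `(2 j + σ) π / N`, `σ = 0, 1` -/
noncomputable def gx (N σ j : ℕ) : ℝ := (2 * j + σ) * π / N

/-! ### Pieces -/

/-- ND-NT: few lattice points on circles -/
def S_NT : Prop := ∀ k : ℕ, ∃ K : ℕ, ∀ n : ℕ, 1 ≤ n → (P n).card ^ k ≤ K * n

/-- ND-PART -/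
def S_PART : Prop := ∀ f : ℝ → ℝ, Continuous f → ∀ M : ℕ, AltLe M f →
  ∃ z s : ℕ → ℝ, SignPart (M + 1) z s f

/-- ND-H: the cut-off function -/
def S_H : Prop := ∀ (m : ℕ) (z s : ℕ → ℝ), z 0 = 0 → z m = π → (∀ i, i < m → z i ≤ z (i + 1)) →
  (∀ i, i < m → s i = 1 ∨ s i = -1) → ∀ w : ℝ, 0 < w →
  ∃ h : ℝ → ℝ, Continuous h ∧ (∀ x, |h x| ≤ 1) ∧
    (∀ p : ℕ, 1 ≤ p → |∫ x in (0 : ℝ)..π, h x * cos (p * x)| ≤ 4 * m / (w * p ^ 2)) ∧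
    ∀ f : ℝ → ℝ, Continuous f → (∀ i, i < m → ∀ x ∈ Icc (z i) (z (i + 1)), 0 ≤ s i * f x) →
      ∀ B : ℝ, (∀ x ∈ Icc 0 π, |f x| ≤ B) →
        (∀ x ∈ Icc 0 π, 0 ≤ |f x| - h x * f x) ∧
        ∫ x in (0 : ℝ)..π, (|f x| - h x * f x) ≤ 2 * m * w * B

/-- ND-TRI -/
def S_TRI : Prop := ∀ (S : Finset ℕ) (A : ℕ → ℝ) (a b : ℝ), a < b → 0 ∈ S →
  (∀ x ∈ Icc a b, ∑ p ∈ S, A p * cos (p * x) ≤ 0) →
  A 0 * ((b - a) / 2) ≤ ∑ p ∈ S.erase 0, |A p| * (8 / ((b - a) * (p : ℝ) ^ 2))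

/-- ND-STAR, first part -/
def S_STAR : Prop := ∀ M : ℕ, ∃ L : ℕ, ∀ lam : ℕ, L ≤ lam → ∀ (A : ℕ → ℝ) (k N : ℕ),
  k ^ 2 + N ^ 2 = lam → k ≤ N → (∀ p ∈ P lam, k ≤ p) → AltLe M (F1 lam A) →
  ∫ x in (0 : ℝ)..π, |F1 lam A x| ≤ 100 / 98 * |A k| * ∫ x in (0 : ℝ)..π, |cos (k * x)|

/-- ND-STAR, second part -/
def S_TWO : Prop := ∀ M : ℕ, ∃ L : ℕ, ∀ lam : ℕ, L ≤ lam → ∀ (A : ℕ → ℝ) (k N : ℕ),
  k ^ 2 + N ^ 2 = lam → k ≤ N → AltLe M (F1 lam A) →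
  π / 2 * |A N| ≤ 101 / 100 / √2 * ∫ x in (0 : ℝ)..π, |F1 lam A x|

/-- ND-ORTH: orthogonality on the grids -/
def S_ORTH : Prop := ∀ N σ : ℕ, 1 ≤ N → σ ≤ 1 →
  (∀ q ≤ N, ∑ j ∈ Finset.range N, cos (q * gx N σ j) =
    N * ((if q = 0 then 1 else 0) + (-1) ^ σ * (if q = N then 1 else 0))) ∧
  (∀ p q : ℕ, 0 < p → p < N → q ≤ N →
    ∑ j ∈ Finset.range N, cos (q * gx N σ j) * cos (p * gx N σ j) =
    N / 2 * ((if q = p then 1 else 0) + (-1) ^ σ * (if q + p = N then 1 else 0))) ∧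
  (∀ p q : ℕ, 0 < p → p < N → q ≤ N →
    ∑ j ∈ Finset.range N, sin (q * gx N σ j) * sin (p * gx N σ j) =
    N / 2 * ((if q = p then 1 else 0) - (-1) ^ σ * (if q + p = N then 1 else 0)))

/-- ND-SUP: sup bounds by the mean on the grids -/
def S_SUP : Prop := ∀ N σ : ℕ, 1 ≤ N → σ ≤ 1 → ∀ A : ℕ → ℝ,
  (∀ i < N, N * |F1 (N ^ 2) A (gx N σ i)| ≤
    2 * (P (N ^ 2)).card * ∑ j ∈ Finset.range N, |F1 (N ^ 2) A (gx N σ j)|) ∧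
  (∀ i < N, N * |G1 (N ^ 2) A (gx N σ i)| ≤
    2 * (P (N ^ 2)).card * ∑ j ∈ Finset.range N, |G1 (N ^ 2) A (gx N σ j)|) ∧
  ((∀ i < N, F1 (N ^ 2) A (gx N σ i) = 0) →
    (∀ i < N, G1 (N ^ 2) (fun p => p * A p) (gx N σ i) = 0) →
    ∀ p ∈ P (N ^ 2), p ≠ 0 → p ≠ N → A p = 0) ∧
  ∑ j ∈ Finset.range N, F1 (N ^ 2) A (gx N σ j) = N * (A 0 + (-1) ^ σ * A N)

open Classical in
/-- grid points where `A 0 * f` is not locally nonnegative -/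
noncomputable def Bad (N σ : ℕ) (A : ℕ → ℝ) : Finset ℕ :=
  Finset.filter (fun j =>
    ¬ ∃ ε > 0, ∀ x : ℝ, |x - gx N σ j| < ε → 0 ≤ A 0 * F1 (N ^ 2) A x) (Finset.range N)

/-- ND-BAD -/
def S_BAD : Prop := ∀ M : ℕ, ∃ L : ℕ, ∀ N : ℕ, L ≤ N → ∀ σ : ℕ, σ ≤ 1 → ∀ A : ℕ → ℝ,
  AltLe M (F1 (N ^ 2) A) → A 0 ≠ 0 → 8 * (P (N ^ 2)).card * (Bad N σ A).card ≤ N

/-- ND-KB -/
def S_KB : Prop := ∀ M : ℕ, ∃ L : ℕ, ∀ N : ℕ, L ≤ N → ∀ σ : ℕ, σ ≤ 1 → ∀ A : ℕ → ℝ,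
  AltLe M (F1 (N ^ 2) A) → A 0 ≠ 0 →
  (∑ j ∈ Finset.range N, |F1 (N ^ 2) A (gx N σ j)|) * |A 0| ≤
    2 * N * (A 0 ^ 2 + (-1) ^ σ * (A 0 * A N))

/-- ND-KC -/
def S_KC : Prop := ∀ M : ℕ, ∃ L : ℕ, ∀ N : ℕ, L ≤ N → ∀ σ : ℕ, σ ≤ 1 → ∀ A : ℕ → ℝ,
  AltLe M (F1 (N ^ 2) A) → A 0 ≠ 0 → (∀ j < N, F1 (N ^ 2) A (gx N σ j) = 0) →
  ∀ p ∈ P (N ^ 2), p ≠ 0 → p ≠ N → A p = 0

/-- ND-CORE -/
def S_CORE : Prop := ∀ M : ℕ, ∃ L : ℕ, ∀ lam : ℕ, L ≤ lam → ∀ A : ℕ → ℝ,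
  (∃ p ∈ P lam, A p ≠ 0) → AltLe M (F1 lam A) → AltLe M (F1 lam (fun p => A (star lam p))) →
  ∃ N : ℕ, N ^ 2 = lam ∧ A 0 ≠ 0 ∧ (A N = A 0 ∨ A N = - A 0) ∧
    ∀ p ∈ P lam, p ≠ 0 → p ≠ N → A p = 0

/-! ### Plane topology -/

/-- ND-COMB: bounded length of alternating words without alternating crossings -/
def S_COMB : Prop := ∀ K : ℕ, ∃ g : ℕ, ∀ (m : ℕ) (lab : ℕ → ℕ), (∀ i < m, lab i < K) →
  (∀ i < m, ∀ j < m, i % 2 ≠ j % 2 → lab i ≠ lab j) →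
  (¬ ∃ i j k l, i < j ∧ j < k ∧ k < l ∧ l < m ∧ i % 2 ≠ j % 2 ∧ lab i = lab k ∧ lab j = lab l) →
  m ≤ g

/-- ND-CROSS: interleaved paths in the closed upper half plane meet -/
def S_CROSS : Prop := ∀ (α β : ℝ → ℝ × ℝ), ContinuousOn α (Icc 0 1) → ContinuousOn β (Icc 0 1) →
  (∀ t ∈ Icc (0 : ℝ) 1, 0 ≤ (α t).2) → (∀ t ∈ Icc (0 : ℝ) 1, 0 ≤ (β t).2) →
  ∀ a1 b1 a2 b2 : ℝ, a1 < b1 → b1 < a2 → a2 < b2 →
  α 0 = (a1, 0) → α 1 = (a2, 0) → β 0 = (b1, 0) → β 1 = (b2, 0) →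
  ∃ s ∈ Icc (0 : ℝ) 1, ∃ t ∈ Icc (0 : ℝ) 1, α s = β t

/-- ND-COMP: few nodal domains give few alternations on the lower side -/
def S_COMP : Prop := ∀ K : ℕ, ∃ M : ℕ, ∀ u : ℝ × ℝ → ℝ, Continuous u → nodalCount u ≤ K →
  AltLe M (fun t => u (t, 0))

/-- ND-SWAP -/
def S_SWAP : Prop := ∀ u : ℝ × ℝ → ℝ, nodalCount (fun z => u (z.2, z.1)) = nodalCount u

/-- ND-EXPL -/
def S_EXPL : Prop := ∀ (N : ℕ) (η c : ℝ), 1 ≤ N → (η = 1 ∨ η = -1) → c ≠ 0 →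
  (N : ℕ∞) ≤ nodalCount (fun z => c * (cos (N * z.1) + η * cos (N * z.2)))

end Pool.Agent.R292.ND
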