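import Mathlib
import Pool.Agent.R292.ND.Stm
import Pool.Agent.Helper627.PM

open Set Real

namespace Pool.Agent.R292.ND

theorem ext_path (α : ℝ → ℝ × ℝ) (hα : ContinuousOn α (Icc 0 1)) :
    ∃ f : ℝ → ℝ × ℝ, Continuous f ∧ (∀ s ∈ Icc (0:ℝ) 1, f s = α s) ∧ (∀ s ≤ 0, f s = α 0) ∧
      (∀ s, 1 ≤ s → f s = α 1) := by
  refine ⟨IccExtend zero_le_one ((Icc (0:ℝ) 1).domRestrict α),
    (continuousOn_iff_continuous_domRestrict.1 hα).Icc_extend', ?_, ?_, ?_⟩
  · intro s hs
    rw [IccExtend_of_mem _ _ hs]; rfl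
  · intro s hs
    rw [IccExtend_of_le_left _ _ hs]; rfl
  · intro s hs
    rw [IccExtend_of_right_le _ _ hs]; rfl

theorem bd_path (α : ℝ → ℝ × ℝ) (hα : ContinuousOn α (Icc 0 1)) :
    ∃ C : ℝ, ∀ s ∈ Icc (0:ℝ) 1, |(α s).1| ≤ C ∧ |(α s).2| ≤ C := by
  obtain ⟨C, hC⟩ := isCompact_Icc.exists_bound_of_continuousOn hα
  refine ⟨C, fun s hs => ⟨?_, ?_⟩⟩
  · exact le_trans (norm_fst_le (α s)) (hC s hs)
  · exact le_trans (norm_snd_le (α s)) (hC s hs)

/-- values of the extended first path -/
theorem path_A (α : ℝ → ℝ × ℝ) (hα : ContinuousOn α (Icc 0 1)) (a1 a2 R : ℝ)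
    (h0 : α 0 = (a1, 0)) (h1 : α 1 = (a2, 0)) :
    ∃ f : ℝ → ℝ × ℝ, Continuous f ∧ (∀ s ∈ Icc (0:ℝ) 1, f s = α s) ∧
      (∀ s, -1 ≤ s → s ≤ 0 → f s = (a1, s / 2)) ∧
      (∀ s, s ≤ -1 → f s = (a1 + (s + 1) * (a1 + R), -1 / 2)) ∧
      (∀ s, 1 ≤ s → s ≤ 2 → f s = (a2, -2 * (s - 1))) ∧
      (∀ s, 2 ≤ s → f s = (a2 + (s - 2) * (R - a2), -2)) := by
  obtain ⟨g, hg, hgm, hgl, hgr⟩ := ext_path α hα
  refine ⟨fun s => g s + (min 0 (s + 1) * (a1 + R) + max 0 (s - 2) * (R - a2),
    max (-1) (min 0 s) / 2 - 2 * max 0 (min 1 (s - 1))), by fun_prop, ?_, ?_, ?_, ?_, ?_⟩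
  · intro s hs
    have e1 : min 0 (s + 1) = 0 := min_eq_left (by linarith [hs.1])
    have e2 : max 0 (s - 2) = 0 := max_eq_left (by linarith [hs.2])
    have e3 : min 0 s = 0 := min_eq_left hs.1
    have e4 : min 1 (s - 1) = s - 1 := min_eq_right (by linarith [hs.2])
    have e5 : max 0 (s - 1) = 0 := max_eq_left (by linarith [hs.2])
    have e6 : max (-1 : ℝ) 0 = 0 := max_eq_right (by norm_num)
    simp only [hgm s hs, e1, e2, e3, e4, e5, e6]
    ext <;> simp
  · intro s hs hs'
    have e1 : min 0 (s + 1) = 0 := min_eq_left (by linarith)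
    have e2 : max 0 (s - 2) = 0 := max_eq_left (by linarith)
    have e3 : min 0 s = s := min_eq_right hs'
    have e4 : min 1 (s - 1) = s - 1 := min_eq_right (by linarith)
    have e5 : max 0 (s - 1) = 0 := max_eq_left (by linarith)
    have e6 : max (-1 : ℝ) s = s := max_eq_right hs
    simp only [hgl s hs', e1, e2, e3, e4, e5, e6, h0]
    ext <;> simp
  · intro s hs
    have e1 : min 0 (s + 1) = s + 1 := min_eq_right (by linarith)
    have e2 : max 0 (s - 2) = 0 := max_eq_left (by linarith)
    have e3 : min 0 s = s := min_eq_right (by linarith)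
    have e4 : min 1 (s - 1) = s - 1 := min_eq_right (by linarith)
    have e5 : max 0 (s - 1) = 0 := max_eq_left (by linarith)
    have e6 : max (-1 : ℝ) s = -1 := max_eq_left hs
    simp only [hgl s (by linarith), e1, e2, e3, e4, e5, e6, h0]
    ext <;> simp
  · intro s hs hs'
    have e1 : min 0 (s + 1) = 0 := min_eq_left (by linarith)
    have e2 : max 0 (s - 2) = 0 := max_eq_left (by linarith)
    have e3 : min 0 s = 0 := min_eq_left (by linarith)
    have e4 : min 1 (s - 1) = s - 1 := min_eq_right (by linarith)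
    have e5 : max 0 (s - 1) = s - 1 := max_eq_right (by linarith)
    have e6 : max (-1 : ℝ) 0 = 0 := max_eq_right (by norm_num)
    simp only [hgr s hs, e1, e2, e3, e4, e5, e6, h1]
    ext <;> simp
  · intro s hs
    have e1 : min 0 (s + 1) = 0 := min_eq_left (by linarith)
    have e2 : max 0 (s - 2) = s - 2 := max_eq_right (by linarith)
    have e3 : min 0 s = 0 := min_eq_left (by linarith)
    have e4 : min 1 (s - 1) = 1 := min_eq_left (by linarith)
    have e5 : max (0 : ℝ) 1 = 1 := max_eq_right (by norm_num)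
    have e6 : max (-1 : ℝ) 0 = 0 := max_eq_right (by norm_num)
    simp only [hgr s (by linarith), e1, e2, e3, e4, e5, e6, h1]
    ext <;> simp

/-- values of the extended second path -/
theorem path_B (β : ℝ → ℝ × ℝ) (hβ : ContinuousOn β (Icc 0 1)) (b1 b2 Q R : ℝ)
    (h0 : β 0 = (b1, 0)) (h1 : β 1 = (b2, 0)) :
    ∃ f : ℝ → ℝ × ℝ, Continuous f ∧ (∀ s ∈ Icc (0:ℝ) 1, f s = β s) ∧
      (∀ s, s ≤ 0 → f s = (b1, s * R)) ∧
      (∀ s, 1 ≤ s → s ≤ 2 → f s = (b2, -(s - 1) / 2)) ∧
      (∀ s, 2 ≤ s → s ≤ 3 → f s = (b2 + (s - 2) * (Q - b2), -1 / 2)) ∧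
      (∀ s, 3 ≤ s → f s = (Q, -1 / 2 + (s - 3) * (R + 1 / 2))) := by
  obtain ⟨g, hg, hgm, hgl, hgr⟩ := ext_path β hβ
  refine ⟨fun s => g s + (max 0 (min 1 (s - 2)) * (Q - b2),
    min 0 s * R - max 0 (min 1 (s - 1)) / 2 + max 0 (s - 3) * (R + 1 / 2)), by fun_prop,
    ?_, ?_, ?_, ?_, ?_⟩
  · intro s hs
    have e1 : min 1 (s - 2) = s - 2 := min_eq_right (by linarith [hs.2])
    have e2 : max 0 (s - 2) = 0 := max_eq_left (by linarith [hs.2])
    have e3 : min 0 s = 0 := min_eq_left hs.1
    have e4 : min 1 (s - 1) = s - 1 := min_eq_right (by linarith [hs.2])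
    have e5 : max 0 (s - 1) = 0 := max_eq_left (by linarith [hs.2])
    have e6 : max 0 (s - 3) = 0 := max_eq_left (by linarith [hs.2])
    simp only [hgm s hs, e1, e2, e3, e4, e5, e6]
    ext <;> simp
  · intro s hs
    have e1 : min 1 (s - 2) = s - 2 := min_eq_right (by linarith)
    have e2 : max 0 (s - 2) = 0 := max_eq_left (by linarith)
    have e3 : min 0 s = s := min_eq_right hs
    have e4 : min 1 (s - 1) = s - 1 := min_eq_right (by linarith)
    have e5 : max 0 (s - 1) = 0 := max_eq_left (by linarith)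
    have e6 : max 0 (s - 3) = 0 := max_eq_left (by linarith)
    simp only [hgl s hs, e1, e2, e3, e4, e5, e6, h0]
    ext <;> simp
  · intro s hs hs'
    have e1 : min 1 (s - 2) = s - 2 := min_eq_right (by linarith)
    have e2 : max 0 (s - 2) = 0 := max_eq_left (by linarith)
    have e3 : min 0 s = 0 := min_eq_left (by linarith)
    have e4 : min 1 (s - 1) = s - 1 := min_eq_right (by linarith)
    have e5 : max 0 (s - 1) = s - 1 := max_eq_right (by linarith)
    have e6 : max 0 (s - 3) = 0 := max_eq_left (by linarith)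
    simp only [hgr s hs, e1, e2, e3, e4, e5, e6, h1]
    ext
    · simp
    · simp; ring
  · intro s hs hs'
    have e1 : min 1 (s - 2) = s - 2 := min_eq_right (by linarith)
    have e2 : max 0 (s - 2) = s - 2 := max_eq_right (by linarith)
    have e3 : min 0 s = 0 := min_eq_left (by linarith)
    have e4 : min 1 (s - 1) = 1 := min_eq_left (by linarith)
    have e5 : max (0 : ℝ) 1 = 1 := max_eq_right (by norm_num)
    have e6 : max 0 (s - 3) = 0 := max_eq_left (by linarith)
    simp only [hgr s (by linarith), e1, e2, e3, e4, e5, e6, h1]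
    ext
    · simp
    · simp; ring
  · intro s hs
    have e1 : min 1 (s - 2) = 1 := min_eq_left (by linarith)
    have e3 : min 0 s = 0 := min_eq_left (by linarith)
    have e4 : min 1 (s - 1) = 1 := min_eq_left (by linarith)
    have e5 : max (0 : ℝ) 1 = 1 := max_eq_right (by norm_num)
    have e6 : max 0 (s - 3) = s - 3 := max_eq_right (by linarith)
    simp only [hgr s (by linarith), e1, e3, e4, e5, e6, h1]
    ext
    · simp
    · simp; ring

theorem t_CROSS : S_CROSS := by
  intro α β hα hβ hα2 hβ2 a1 b1 a2 b2 h12 h23 h34 hα0 hα1 hβ0 hβ1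
  obtain ⟨C, hC⟩ := bd_path α hα
  obtain ⟨D, hD⟩ := bd_path β hβ
  have hC0 : 0 ≤ C := le_trans (abs_nonneg _) (hC 0 ⟨le_rfl, zero_le_one⟩).1
  have hD0 : 0 ≤ D := le_trans (abs_nonneg _) (hD 0 ⟨le_rfl, zero_le_one⟩).1
  set Q : ℝ := C + D + |a1| + |b1| + |a2| + |b2| + 1 with hQ
  set R : ℝ := Q + 3 with hR
  have q1 := abs_nonneg a1
  have q2 := abs_nonneg b1
  have q3 := abs_nonneg a2
  have q4 := abs_nonneg b2
  have r1 := le_abs_self a1
  have r2 := le_abs_self b1
  have r3 := le_abs_self a2
  have r4 := le_abs_self b2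
  have s1 := neg_abs_le a1
  have s2 := neg_abs_le b1
  have s3 := neg_abs_le a2
  have s4 := neg_abs_le b2
  obtain ⟨f, hf, f1, f2, f3, f4, f5⟩ := path_A α hα a1 a2 R hα0 hα1
  obtain ⟨g, hg, g1, g2, g3, g4, g5⟩ := path_B β hβ b1 b2 Q R hβ0 hβ1
  -- bounds
  have gx : ∀ t ∈ Icc (-1:ℝ) 4, -R < (g t).1 ∧ (g t).1 < R := by
    intro t ht
    rcases le_total t 0 with h | h
    · rw [g2 t h]; constructor <;> simp only <;> linarith
    · rcases le_total t 1 with h' | h'
      · rw [g1 t ⟨h, h'⟩]
        have := abs_le.1 (hD t ⟨h, h'⟩).1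
        constructor <;> linarith
      · rcases le_total t 2 with h2 | h2
        · rw [g3 t h' h2]; constructor <;> simp only <;> linarith
        · rcases le_total t 3 with h3 | h3
          · rw [g4 t h2 h3]
            constructor
            · simp only; nlinarith
            · simp only; nlinarith
          · rw [g5 t h3]; constructor <;> simp only <;> linarith
  have fy : ∀ s ∈ Icc (-2:ℝ) 3, -R < (f s).2 ∧ (f s).2 < R := by
    intro s hs
    rcases le_total s (-1) with h | h
    · rw [f3 s h]; constructor <;> simp only <;> linarith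
    · rcases le_total s 0 with h0 | h0
      · rw [f2 s h h0]; constructor <;> simp only <;> linarith
      · rcases le_total s 1 with h' | h'
        · rw [f1 s ⟨h0, h'⟩]
          have := abs_le.1 (hC s ⟨h0, h'⟩).2
          constructor <;> linarith
        · rcases le_total s 2 with h2 | h2
          · rw [f4 s h' h2]; constructor <;> simp only <;> linarith
          · rw [f5 s h2]; constructor <;> simp only <;> linarith
  have fend : f (-2) = (-R, -1/2) := by
    rw [f3 (-2) (by norm_num)]; ext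
    · simp only; ring
    · simp only
  have fend' : f 3 = (R, -2) := by
    rw [f5 3 (by norm_num)]; ext
    · simp only; ring
    · simp only
  have gend : g (-1) = (b1, -R) := by
    rw [g2 (-1) (by norm_num)]; ext
    · simp only
    · simp only; ring
  have gend' : g 4 = (Q, R) := by
    rw [g5 4 (by norm_num)]; ext
    · simp only
    · simp only; ring
  obtain ⟨s, hs, t, ht, e1, e2⟩ := Pool.Agent.Helper627.PM.poincare_miranda (-2) 3 (-1) 4
    (by norm_num) (by norm_num)
    (fun p => (g p.2).2 - (f p.1).2) (fun p => (f p.1).1 - (g p.2).1)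
    (by fun_prop) (by fun_prop)
    (by
      intro y hy
      simp only [fend]
      linarith [(gx y hy).1])
    (by
      intro y hy
      simp only [fend']
      linarith [(gx y hy).2])
    (by
      intro x hx
      simp only [gend]
      linarith [(fy x hx).1])
    (by
      intro x hx
      simp only [gend']
      linarith [(fy x hx).2])
  have E1 : (f s).1 = (g t).1 := by simp only at e2; linarith
  have E2 : (f s).2 = (g t).2 := by simp only at e1; linarith
  -- classification of the second path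
  have gt_cases : (t < 0 ∧ (g t).1 = b1 ∧ (g t).2 < 0) ∨ (t ∈ Icc (0:ℝ) 1) ∨
      (b2 ≤ (g t).1 ∧ -1/2 ≤ (g t).2 ∧ (g t).2 < 0) ∨ ((g t).1 = Q ∧ -1/2 ≤ (g t).2) := by
    rcases lt_or_ge t 0 with h | h
    · left
      rw [g2 t h.le]
      refine ⟨h, rfl, ?_⟩
      simp only
      nlinarith
    · rcases le_or_gt t 1 with h' | h'
      · right; left; exact ⟨h, h'⟩
      · rcases le_total t 2 with h2 | h2
        · right; right; left
          rw [g3 t h'.le h2]
          refine ⟨le_rfl, ?_, ?_⟩ <;> simp only <;> linarith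
        · rcases le_total t 3 with h3 | h3
          · right; right; left
            rw [g4 t h2 h3]
            refine ⟨?_, ?_, ?_⟩
            · simp only; nlinarith
            · simp only; linarith
            · simp only; linarith
          · right; right; right
            rw [g5 t h3]
            refine ⟨rfl, ?_⟩
            simp only; nlinarith
  have fs_cases : ((f s).1 ≤ a1 ∧ (f s).2 < 0) ∨ s ∈ Icc (0:ℝ) 1 ∨
      ((f s).1 = a2 ∧ (f s).2 < 0) ∨ (a2 ≤ (f s).1 ∧ (f s).2 = -2) := by
    rcases le_total s (-1) with h | h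
    · left
      rw [f3 s h]
      refine ⟨?_, ?_⟩
      · simp only; nlinarith
      · simp only; linarith
    · rcases lt_or_ge s 0 with h0 | h0
      · left
        rw [f2 s h h0.le]
        refine ⟨le_rfl, ?_⟩
        simp only; linarith
      · rcases le_or_gt s 1 with h' | h'
        · right; left; exact ⟨h0, h'⟩
        · rcases le_total s 2 with h2 | h2
          · right; right; left
            rw [f4 s h'.le h2]
            refine ⟨rfl, ?_⟩
            simp only; linarith
          · right; right; right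
            rw [f5 s h2]
            refine ⟨?_, rfl⟩
            simp only; nlinarith
  rcases fs_cases with ⟨u1, u2⟩ | hs' | ⟨u1, u2⟩ | ⟨u1, u2⟩ <;>
  rcases gt_cases with ⟨_, v1, v2⟩ | ht' | ⟨v1, v2, v3⟩ | ⟨v1, v2⟩
  · linarith
  · have := hβ2 t ht'
    rw [← g1 t ht'] at this
    linarith
  · linarith
  · linarith
  · have := hα2 s hs'
    rw [← f1 s hs'] at this
    linarith
  · refine ⟨s, hs', t, ht', ?_⟩
    rw [← f1 s hs', ← g1 t ht']
    exact Prod.ext E1 E2
  · have := hα2 s hs'
    rw [← f1 s hs'] at this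
    linarith
  · have := abs_le.1 (hC s hs').1
    rw [← f1 s hs'] at this
    linarith
  · linarith
  · have := hβ2 t ht'
    rw [← g1 t ht'] at this
    linarith
  · linarith
  · linarith
  · linarith
  · have := hβ2 t ht'
    rw [← g1 t ht'] at this
    linarith
  · linarith
  · linarith

end Pool.Agent.R292.ND
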