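import Pool.Agent.R292.ND.Stm

/-!
Project ND (MP_65f45c_an), piece ND-EXPL (helper711):
`cos N x ± cos N y` has at least `N` nodal domains.
-/

open Set Real

namespace Pool.Agent.R292.ND

namespace EXPL

theorem count (N : ℕ) (u : ℝ × ℝ → ℝ) (hu : Continuous u) (g : ℝ × ℝ → ℝ) (hg : Continuous g)
    (hgu : ∀ z, u z ≠ 0 → ∀ m : ℤ, g z ≠ m) (p : ℕ → ℝ × ℝ)
    (hp : ∀ j < N, p j ∈ Om ∧ u (p j) ≠ 0 ∧ ⌊g (p j)⌋ = j) : (N : ℕ∞) ≤ nodalCount u := by
  have hcl : ∀ z, u z ≠ 0 → z ∉ nodalSet u := by
    intro z hz hz2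
    have h1 : nodalSet u ⊆ {z | u z = 0} :=
      closure_minimal (fun w hw => hw.2) (isClosed_eq hu continuous_const)
    exact hz (h1 hz2)
  have hne : ∀ z : ↥(Om \ nodalSet u), u z ≠ 0 := by
    intro z hz
    exact z.2.2 (subset_closure ⟨z.2.1, hz⟩)
  let h : ↥(Om \ nodalSet u) → ℤ := fun z => ⌊g z⌋
  have hloc : IsLocallyConstant h := by
    rw [IsLocallyConstant.iff_eventually_eq]
    intro x
    have h1 : (⌊g x⌋ : ℝ) < g x := lt_of_le_of_ne (Int.floor_le _) (fun e => hgu x (hne x) _ e.symm)
    have h2 : g x < ⌊g x⌋ + 1 := Int.lt_floor_add_one _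
    have hc : Filter.Tendsto (fun z : ↥(Om \ nodalSet u) => g z) (nhds x) (nhds (g x)) :=
      (hg.comp continuous_subtype_val).continuousAt
    filter_upwards [hc.eventually_const_lt h1, hc.eventually_lt_const h2] with y hy1 hy2
    exact Int.floor_eq_iff.2 ⟨hy1.le, hy2⟩
  have hcont : Continuous h := hloc.continuous
  let q : Fin N → ConnectedComponents ↥(Om \ nodalSet u) := fun j =>
    ConnectedComponents.mk ⟨p j, (hp j j.2).1, hcl _ (hp j j.2).2.1⟩
  have hq : Function.Injective q := by
    intro i j hij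
    have h1 := congrArg hcont.connectedComponentsLift hij
    simp only [q, Continuous.connectedComponentsLift_apply_coe] at h1
    have h2 : (⌊g (p i)⌋ : ℤ) = ⌊g (p j)⌋ := h1
    rw [(hp i i.2).2.2, (hp j j.2).2.2] at h2
    exact Fin.ext (by exact_mod_cast h2)
  have h3 := ENat.card_le_card_of_injective hq
  rw [ENat.card_eq_coe_fintype_card, Fintype.card_fin] at h3
  exact h3

end EXPL

open EXPL in
theorem t_EXPL : S_EXPL := by
  intro N η c hN hη hc
  have hN0 : (0 : ℝ) < N := by exact_mod_cast hN
  have hpi := Real.pi_pos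
  rcases hη with rfl | rfl
  · -- `cos N x + cos N y`
    refine count N _ (by fun_prop) (fun z => N * (z.1 + z.2) / (2 * π) + 1 / 2) (by fun_prop) ?_
      (fun j => ((j + 1 / 4) * π / N, (j + 1 / 4) * π / N)) ?_
    · intro z hz m hm
      apply hz
      have h1 : N * (z.1 + z.2) / 2 = m * π - π / 2 := by
        field_simp at hm ⊢
        linarith
      have h2 : cos (N * (z.1 + z.2) / 2) = 0 := by
        rw [h1, cos_sub_pi_div_two, sin_int_mul_pi]
      have h3 : cos (N * z.1) + cos (N * z.2) = 2 * cos (N * (z.1 + z.2) / 2) *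
          cos (N * (z.1 - z.2) / 2) := by
        rw [cos_add_cos]
        congr 2
        · congr 2; ring
        · ring
      rw [one_mul, h3, h2]
      ring
    · intro j hj
      have hj' : (j : ℝ) + 1 ≤ N := by exact_mod_cast hj
      have hj0 : (0 : ℝ) ≤ j := Nat.cast_nonneg j
      have hm : (j + 1 / 4) * π / N ∈ Ioo 0 π := by
        refine ⟨by positivity, ?_⟩
        rw [div_lt_iff₀ hN0]
        nlinarith
      refine ⟨⟨hm, hm⟩, ?_, ?_⟩
      · have h1 : (N : ℝ) * ((j + 1 / 4) * π / N) = π / 4 + j * π := by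
          field_simp
          ring
        simp only [h1, one_mul, cos_add_nat_mul_pi, cos_pi_div_four]
        refine mul_ne_zero hc ?_
        rw [← two_mul]
        refine mul_ne_zero two_ne_zero (mul_ne_zero (pow_ne_zero _ (by norm_num)) ?_)
        positivity
      · have h1 : (N : ℝ) * ((j + 1 / 4) * π / N + (j + 1 / 4) * π / N) / (2 * π) + 1 / 2
            = j + 3 / 4 := by
          field_simp
          ring
        simp only [h1]
        rw [Int.floor_eq_iff]
        constructor <;> push_cast <;> linarith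
  · -- `cos N x - cos N y`
    refine count N _ (by fun_prop) (fun z => N * (z.1 + z.2) / (2 * π)) (by fun_prop) ?_
      (fun j => ((j + 3 / 4) * π / N, (j + 1 / 4) * π / N)) ?_
    · intro z hz m hm
      apply hz
      have h1 : N * (z.1 + z.2) / 2 = m * π := by
        field_simp at hm ⊢
        linarith
      have h2 : sin (N * (z.1 + z.2) / 2) = 0 := by
        rw [h1, sin_int_mul_pi]
      have h3 : cos (N * z.1) - cos (N * z.2) = -2 * sin (N * (z.1 + z.2) / 2) *
          sin (N * (z.1 - z.2) / 2) := by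
        rw [cos_sub_cos]
        congr 2
        · congr 2; ring
        · ring
      have h4 : cos (N * z.1) + -1 * cos (N * z.2) = cos (N * z.1) - cos (N * z.2) := by ring
      rw [h4, h3, h2]
      ring
    · intro j hj
      have hj' : (j : ℝ) + 1 ≤ N := by exact_mod_cast hj
      have hj0 : (0 : ℝ) ≤ j := Nat.cast_nonneg j
      have hm1 : (j + 3 / 4) * π / N ∈ Ioo 0 π := by
        refine ⟨by positivity, ?_⟩
        rw [div_lt_iff₀ hN0]
        nlinarith
      have hm2 : (j + 1 / 4) * π / N ∈ Ioo 0 π := by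
        refine ⟨by positivity, ?_⟩
        rw [div_lt_iff₀ hN0]
        nlinarith
      refine ⟨⟨hm1, hm2⟩, ?_, ?_⟩
      · have h1 : (N : ℝ) * ((j + 1 / 4) * π / N) = π / 4 + j * π := by
          field_simp
          ring
        have h2 : (N : ℝ) * ((j + 3 / 4) * π / N) = (π - π / 4) + j * π := by
          field_simp
          ring
        simp only [h1, h2, cos_add_nat_mul_pi, cos_pi_sub, cos_pi_div_four]
        refine mul_ne_zero hc ?_
        have h3 : (-1 : ℝ) ^ j * -(√2 / 2) + -1 * ((-1) ^ j * (√2 / 2)) = (-1) ^ j * (-√2) := by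
          ring
        rw [h3]
        refine mul_ne_zero (pow_ne_zero _ (by norm_num)) ?_
        exact neg_ne_zero.2 (by positivity)
      · have h1 : (N : ℝ) * ((j + 3 / 4) * π / N + (j + 1 / 4) * π / N) / (2 * π)
            = j + 1 / 2 := by
          field_simp
          ring
        simp only [h1]
        rw [Int.floor_eq_iff]
        constructor <;> push_cast <;> linarith

end Pool.Agent.R292.ND
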