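import Pool.Agent.R292.ND.Stm

/-!
ND-H (MP_65f45c_an): the cut-off function.
-/

open Set Real

namespace Pool.Agent.R292.ND

namespace HH

/-- trapezoid -/
noncomputable def phi (a b w x : ℝ) : ℝ := max 0 (min 1 (min ((x - a) / w) ((b - x) / w)))

theorem phi_cont (a b w : ℝ) : Continuous (phi a b w) := by
  unfold phi
  fun_prop

theorem phi_nonneg (a b w x : ℝ) : 0 ≤ phi a b w x := le_max_left _ _

theorem phi_le_one (a b w x : ℝ) : phi a b w x ≤ 1 := max_le zero_le_one (min_le_left _ _)

theorem phi_left {a b w x : ℝ} (hw : 0 < w) (h : x ≤ a) : phi a b w x = 0 := by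
  refine max_eq_left ?_
  refine le_trans (min_le_right _ _) (le_trans (min_le_left _ _) ?_)
  exact div_nonpos_of_nonpos_of_nonneg (by linarith) hw.le

theorem phi_right {a b w x : ℝ} (hw : 0 < w) (h : b ≤ x) : phi a b w x = 0 := by
  refine max_eq_left ?_
  refine le_trans (min_le_right _ _) (le_trans (min_le_right _ _) ?_)
  exact div_nonpos_of_nonpos_of_nonneg (by linarith) hw.le

theorem phi1 {a b w d x : ℝ} (hw : 0 < w) (hd1 : d ≤ w) (hd2 : d ≤ (b - a) / 2)
    (hx : x ∈ Icc a (a + d)) : phi a b w x = (x - a) / w := by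
  obtain ⟨h1, h2⟩ := hx
  have e1 : (x - a) / w ≤ (b - x) / w := by
    gcongr 1
    linarith
  have e2 : (x - a) / w ≤ 1 := by
    rw [div_le_one hw]
    linarith
  have e3 : 0 ≤ (x - a) / w := div_nonneg (by linarith) hw.le
  rw [phi, min_eq_left e1, min_eq_right e2, max_eq_right e3]

theorem phi3 {a b w d x : ℝ} (hw : 0 < w) (hd1 : d ≤ w) (hd2 : d ≤ (b - a) / 2)
    (hx : x ∈ Icc (b - d) b) : phi a b w x = (b - x) / w := by
  obtain ⟨h1, h2⟩ := hx
  have e1 : (b - x) / w ≤ (x - a) / w := by
    gcongr 1
    linarith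
  have e2 : (b - x) / w ≤ 1 := by
    rw [div_le_one hw]
    linarith
  have e3 : 0 ≤ (b - x) / w := div_nonneg (by linarith) hw.le
  rw [phi, min_eq_right e1, min_eq_right e2, max_eq_right e3]

theorem phi2 {a b w d x : ℝ} (hw : 0 < w) (hd : d = w ∨ (d = (b - a) / 2 ∧ 0 ≤ d ∧ d ≤ w))
    (hx : x ∈ Icc (a + d) (b - d)) : phi a b w x = d / w := by
  obtain ⟨h1, h2⟩ := hx
  rcases hd with rfl | ⟨h3, h4, h5⟩
  · have e1 : 1 ≤ (x - a) / d := by
      rw [le_div_iff₀ hw]
      linarith
    have e2 : 1 ≤ (b - x) / d := by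
      rw [le_div_iff₀ hw]
      linarith
    rw [phi, min_eq_left (le_min e1 e2), div_self hw.ne']
    exact max_eq_right zero_le_one
  · have hxa : x - a = d := by linarith
    have hxb : b - x = d := by linarith
    rw [phi, hxa, hxb, min_self, min_eq_right ((div_le_one hw).2 h5),
      max_eq_right (div_nonneg h4 hw.le)]

theorem int_lin (α β p u v : ℝ) (hp : p ≠ 0) :
    ∫ x in u..v, (α * x + β) * cos (p * x) =
      ((α * v + β) * (sin (p * v) / p) + α * (cos (p * v) / p ^ 2)) -
      ((α * u + β) * (sin (p * u) / p) + α * (cos (p * u) / p ^ 2)) := by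
  have hd : ∀ x : ℝ, HasDerivAt
      (fun x => (α * x + β) * (sin (p * x) / p) + α * (cos (p * x) / p ^ 2))
      ((α * x + β) * cos (p * x)) x := by
    intro x
    have h1 : HasDerivAt (fun x : ℝ => p * x) (p * 1) x := (hasDerivAt_id x).const_mul p
    have h2 : HasDerivAt (fun x : ℝ => α * x + β) (α * 1) x :=
      ((hasDerivAt_id x).const_mul α).add_const β
    have h3 := (h2.mul (h1.sin.div_const p)).add ((h1.cos.div_const (p ^ 2)).const_mul α)
    have e : (α * x + β) * cos (p * x) = (α * 1) * (sin (p * x) / p) +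
        (α * x + β) * (cos (p * x) * (p * 1) / p) + α * (-sin (p * x) * (p * 1) / p ^ 2) := by
      field_simp
      ring
    rw [e]
    exact h3
  rw [intervalIntegral.integral_eq_sub_of_hasDerivAt (fun x _ => hd x)
    ((by fun_prop : Continuous fun x : ℝ => (α * x + β) * cos (p * x)).intervalIntegrable _ _)]

theorem exists_d {a b w : ℝ} (hab : a ≤ b) (hw : 0 < w) : ∃ d, 0 ≤ d ∧ d ≤ w ∧ d ≤ (b - a) / 2 ∧
    (d = w ∨ (d = (b - a) / 2 ∧ 0 ≤ d ∧ d ≤ w)) := by
  rcases le_total w ((b - a) / 2) with h | h
  · exact ⟨w, hw.le, le_rfl, h, Or.inl rfl⟩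
  · exact ⟨(b - a) / 2, by linarith, h, le_rfl, Or.inr ⟨rfl, by linarith, h⟩⟩

theorem fourier {a b w p : ℝ} (hab : a ≤ b) (hw : 0 < w) (hp : 0 < p) :
    |∫ x in a..b, phi a b w x * cos (p * x)| ≤ 4 / (w * p ^ 2) := by
  obtain ⟨d, hd0, hd1, hd2, hd3⟩ := exists_d hab hw
  have hint : ∀ u v, IntervalIntegrable (fun x => phi a b w x * cos (p * x)) MeasureTheory.volume u v := by
    intro u v
    exact ((phi_cont a b w).mul (by fun_prop)).intervalIntegrable _ _
  have h1 : ∫ x in a..(a + d), phi a b w x * cos (p * x) =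
      ∫ x in a..(a + d), (1 / w * x + (- a / w)) * cos (p * x) := by
    refine intervalIntegral.integral_congr fun x hx => ?_
    rw [uIcc_of_le (by linarith)] at hx
    rw [phi1 hw hd1 hd2 hx]
    ring
  have h2 : ∫ x in (a + d)..(b - d), phi a b w x * cos (p * x) =
      ∫ x in (a + d)..(b - d), (0 * x + d / w) * cos (p * x) := by
    refine intervalIntegral.integral_congr fun x hx => ?_
    rw [uIcc_of_le (by linarith)] at hx
    rw [phi2 hw hd3 hx]
    ring
  have h3 : ∫ x in (b - d)..b, phi a b w x * cos (p * x) =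
      ∫ x in (b - d)..b, (- 1 / w * x + (b / w)) * cos (p * x) := by
    refine intervalIntegral.integral_congr fun x hx => ?_
    rw [uIcc_of_le (by linarith)] at hx
    rw [phi3 hw hd1 hd2 hx]
    ring
  rw [← intervalIntegral.integral_add_adjacent_intervals (hint a (b - d)) (hint (b - d) b),
    ← intervalIntegral.integral_add_adjacent_intervals (hint a (a + d)) (hint (a + d) (b - d)),
    h1, h2, h3, int_lin _ _ _ _ _ hp.ne', int_lin _ _ _ _ _ hp.ne', int_lin _ _ _ _ _ hp.ne']
  have h4 : ((1 / w * (a + d) + -a / w) * (sin (p * (a + d)) / p) + 1 / w * (cos (p * (a + d)) / p ^ 2)) -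
      ((1 / w * a + -a / w) * (sin (p * a) / p) + 1 / w * (cos (p * a) / p ^ 2)) +
      (((0 * (b - d) + d / w) * (sin (p * (b - d)) / p) + 0 * (cos (p * (b - d)) / p ^ 2)) -
      ((0 * (a + d) + d / w) * (sin (p * (a + d)) / p) + 0 * (cos (p * (a + d)) / p ^ 2))) +
      (((- 1 / w * b + b / w) * (sin (p * b) / p) + - 1 / w * (cos (p * b) / p ^ 2)) -
      ((- 1 / w * (b - d) + b / w) * (sin (p * (b - d)) / p) + - 1 / w * (cos (p * (b - d)) / p ^ 2)))
      = (cos (p * (a + d)) - cos (p * a) - cos (p * b) + cos (p * (b - d))) / (w * p ^ 2) := by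
    field_simp
    ring
  rw [h4, abs_div, abs_of_pos (by positivity : 0 < w * p ^ 2)]
  gcongr
  have c1 := abs_le.1 (abs_cos_le_one (p * (a + d)))
  have c2 := abs_le.1 (abs_cos_le_one (p * a))
  have c3 := abs_le.1 (abs_cos_le_one (p * b))
  have c4 := abs_le.1 (abs_cos_le_one (p * (b - d)))
  rw [abs_le]
  constructor <;> linarith [c1.1, c1.2, c2.1, c2.2, c3.1, c3.2, c4.1, c4.2]

theorem defect {a b w B : ℝ} (hab : a ≤ b) (hw : 0 < w) (g : ℝ → ℝ) (hg : Continuous g)
    (hB : 0 ≤ B) (hgB : ∀ x ∈ Icc a b, |g x| ≤ B) :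
    ∫ x in a..b, (1 - phi a b w x) * |g x| ≤ 2 * w * B := by
  obtain ⟨d, hd0, hd1, hd2, hd3⟩ := exists_d hab hw
  have hcont : Continuous (fun x => (1 - phi a b w x) * |g x|) :=
    (continuous_const.sub (phi_cont a b w)).mul hg.abs
  have hint : ∀ u v, IntervalIntegrable (fun x => (1 - phi a b w x) * |g x|)
      MeasureTheory.volume u v := fun u v => hcont.intervalIntegrable _ _
  have hle : ∀ x ∈ Icc a b, (1 - phi a b w x) * |g x| ≤ B := by
    intro x hx
    have h1 := phi_nonneg a b w x
    have h2 := phi_le_one a b w x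
    calc (1 - phi a b w x) * |g x| ≤ 1 * B :=
          mul_le_mul (by linarith) (hgB x hx) (abs_nonneg _) zero_le_one
      _ = B := one_mul B
  have h1 : ∫ x in a..(a + d), (1 - phi a b w x) * |g x| ≤ d * B := by
    have : ∫ x in a..(a + d), (1 - phi a b w x) * |g x| ≤ ∫ x in a..(a + d), B := by
      refine intervalIntegral.integral_mono_on (by linarith) (hint _ _)
        (continuous_const.intervalIntegrable _ _) fun x hx => hle x ⟨hx.1, by linarith [hx.2]⟩
    refine le_trans this (le_of_eq ?_)
    rw [intervalIntegral.integral_const, smul_eq_mul]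
    ring
  have h3 : ∫ x in (b - d)..b, (1 - phi a b w x) * |g x| ≤ d * B := by
    have : ∫ x in (b - d)..b, (1 - phi a b w x) * |g x| ≤ ∫ x in (b - d)..b, B := by
      refine intervalIntegral.integral_mono_on (by linarith) (hint _ _)
        (continuous_const.intervalIntegrable _ _) fun x hx => hle x ⟨by linarith [hx.1], hx.2⟩
    refine le_trans this (le_of_eq ?_)
    rw [intervalIntegral.integral_const, smul_eq_mul]
    ring
  have h2 : ∫ x in (a + d)..(b - d), (1 - phi a b w x) * |g x| = 0 := by
    rcases hd3 with h | ⟨h, -, -⟩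
    · have : ∫ x in (a + d)..(b - d), (1 - phi a b w x) * |g x| = ∫ x in (a + d)..(b - d), (0 : ℝ) := by
        refine intervalIntegral.integral_congr fun x hx => ?_
        rw [uIcc_of_le (by linarith)] at hx
        rw [phi2 hw (Or.inl h) hx, h, div_self hw.ne', sub_self, zero_mul]
      rw [this]
      simp
    · have : a + d = b - d := by linarith
      rw [this, intervalIntegral.integral_same]
  rw [← intervalIntegral.integral_add_adjacent_intervals (hint a (b - d)) (hint (b - d) b),
    ← intervalIntegral.integral_add_adjacent_intervals (hint a (a + d)) (hint (a + d) (b - d)), h2]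
  have h4 : d * B ≤ w * B := by gcongr
  linarith

end HH

open HH in
theorem t_H : S_H := by
  intro m z s hz0 hzm hz hs w hw
  have hmono : ∀ i j, i ≤ j → j ≤ m → z i ≤ z j := by
    intro i j hij
    induction j, hij using Nat.le_induction with
    | base => intro _; exact le_rfl
    | succ j _ ih => intro hj; exact (ih (by omega)).trans (hz j (by omega))
  have habs : ∀ i < m, |s i| = 1 := by
    intro i hi
    rcases hs i hi with h | h <;> rw [h] <;> simp
  let h : ℝ → ℝ := fun x => ∑ i ∈ Finset.range m, s i * phi (z i) (z (i + 1)) w x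
  have hcont : Continuous h := by
    refine continuous_finsetSum _ fun i _ => ?_
    exact continuous_const.mul (phi_cont _ _ _)
  have harc : ∀ i < m, ∀ x ∈ Icc (z i) (z (i + 1)), h x = s i * phi (z i) (z (i + 1)) w x := by
    intro i hi x hx
    refine Finset.sum_eq_single_of_mem i (Finset.mem_range.2 hi) fun j hj hji => ?_
    rw [Finset.mem_range] at hj
    rcases lt_or_gt_of_ne hji with h1 | h1
    · rw [phi_right hw ((hmono (j + 1) i (by omega) hi.le).trans hx.1), mul_zero]
    · rw [phi_left hw (hx.2.trans (hmono (i + 1) j (by omega) hj.le)), mul_zero]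
  have hbd : ∀ x, |h x| ≤ 1 := by
    intro x
    by_cases hall : ∀ i < m, phi (z i) (z (i + 1)) w x = 0
    · have : h x = 0 := Finset.sum_eq_zero fun i hi => by
        rw [hall i (Finset.mem_range.1 hi), mul_zero]
      rw [this, abs_zero]
      exact zero_le_one
    · push Not at hall
      obtain ⟨i, hi, hne⟩ := hall
      have h1 : z i ≤ x := by
        by_contra hcon
        exact hne (phi_left hw (not_le.1 hcon).le)
      have h2 : x ≤ z (i + 1) := by
        by_contra hcon
        exact hne (phi_right hw (not_le.1 hcon).le)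
      rw [harc i hi x ⟨h1, h2⟩, abs_mul, habs i hi, one_mul, abs_of_nonneg (phi_nonneg _ _ _ _)]
      exact phi_le_one _ _ _ _
  refine ⟨h, hcont, hbd, fun p hp => ?_, fun f hf hsign B hB => ⟨fun x hx => ?_, ?_⟩⟩
  · have hp0 : (0 : ℝ) < p := by exact_mod_cast hp
    have hint : ∀ i < m, IntervalIntegrable (fun x => h x * cos (p * x)) MeasureTheory.volume
        (z i) (z (i + 1)) := by
      intro i _
      exact (hcont.mul (by fun_prop)).intervalIntegrable _ _
    have h1 := intervalIntegral.sum_integral_adjacent_intervals hint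
    rw [hz0, hzm] at h1
    rw [← h1]
    refine le_trans (Finset.abs_sum_le_sum_abs _ _) ?_
    have h2 : ∀ i ∈ Finset.range m, |∫ x in (z i)..(z (i + 1)), h x * cos (p * x)| ≤
        4 / (w * p ^ 2) := by
      intro i hi
      rw [Finset.mem_range] at hi
      have h3 : ∫ x in (z i)..(z (i + 1)), h x * cos (p * x) =
          s i * ∫ x in (z i)..(z (i + 1)), phi (z i) (z (i + 1)) w x * cos (p * x) := by
        rw [← intervalIntegral.integral_const_mul]
        refine intervalIntegral.integral_congr fun x hx => ?_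
        rw [uIcc_of_le (hz i hi)] at hx
        rw [harc i hi x hx]
        ring
      rw [h3, abs_mul, habs i hi, one_mul]
      exact fourier (hz i hi) hw hp0
    refine le_trans (Finset.sum_le_card_nsmul _ _ _ h2) (le_of_eq ?_)
    rw [Finset.card_range, nsmul_eq_mul]
    ring
  · have h1 : h x * f x ≤ |f x| := by
      refine le_trans (le_abs_self _) ?_
      rw [abs_mul]
      calc |h x| * |f x| ≤ 1 * |f x| := by
            gcongr
            exact hbd x
        _ = |f x| := one_mul _
    linarith
  · have hB0 : 0 ≤ B := le_trans (abs_nonneg _) (hB 0 ⟨le_rfl, Real.pi_pos.le⟩)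
    have hint : ∀ i < m, IntervalIntegrable (fun x => |f x| - h x * f x) MeasureTheory.volume
        (z i) (z (i + 1)) := by
      intro i _
      exact (hf.abs.sub (hcont.mul hf)).intervalIntegrable _ _
    have h1 := intervalIntegral.sum_integral_adjacent_intervals hint
    rw [hz0, hzm] at h1
    rw [← h1]
    have h2 : ∀ i ∈ Finset.range m, ∫ x in (z i)..(z (i + 1)), (|f x| - h x * f x) ≤
        2 * w * B := by
      intro i hi
      rw [Finset.mem_range] at hi
      have h3 : ∫ x in (z i)..(z (i + 1)), (|f x| - h x * f x) =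
          ∫ x in (z i)..(z (i + 1)), (1 - phi (z i) (z (i + 1)) w x) * |f x| := by
        refine intervalIntegral.integral_congr fun x hx => ?_
        rw [uIcc_of_le (hz i hi)] at hx
        have h4 : s i * f x = |f x| := by
          rw [← abs_of_nonneg (hsign i hi x hx), abs_mul, habs i hi, one_mul]
        rw [harc i hi x hx]
        linear_combination (- phi (z i) (z (i + 1)) w x) * h4
      rw [h3]
      refine defect (hz i hi) hw f hf hB0 fun x hx => hB x ⟨?_, ?_⟩
      · have := hmono 0 i (by omega) hi.le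
        rw [hz0] at this
        exact this.trans hx.1
      · have := hmono (i + 1) m (by omega) le_rfl
        rw [hzm] at this
        exact hx.2.trans this
    refine le_trans (Finset.sum_le_card_nsmul _ _ _ h2) (le_of_eq ?_)
    rw [Finset.card_range, nsmul_eq_mul]
    ring

end Pool.Agent.R292.ND
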