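import Pool.Agent.R292.ND.Stm

/-!
ND-KB, ND-KC (MP_65f45c_an): grid positivity and rigidity.
-/

open Set Real

namespace Pool.Agent.R292.ND

namespace KB

theorem aux (N : ℕ) (hN : 1 ≤ N) (B : Finset ℕ) (hB : B ⊆ Finset.range N) (r : ℕ)
    (h8 : 8 * r * B.card ≤ N) (F : ℕ → ℝ)
    (hF : ∀ i < N, N * |F i| ≤ 2 * r * ∑ j ∈ Finset.range N, |F j|) :
    ∑ j ∈ B, |F j| ≤ (∑ j ∈ Finset.range N, |F j|) / 4 := by
  have hN0 : (0 : ℝ) < N := by exact_mod_cast hN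
  have hS : 0 ≤ ∑ j ∈ Finset.range N, |F j| := Finset.sum_nonneg fun _ _ => abs_nonneg _
  have h1 : (N : ℝ) * ∑ j ∈ B, |F j| ≤ B.card * (2 * r * ∑ j ∈ Finset.range N, |F j|) := by
    rw [Finset.mul_sum]
    refine le_trans (Finset.sum_le_card_nsmul _ _ (2 * r * ∑ j ∈ Finset.range N, |F j|)
      fun i hi => hF i (Finset.mem_range.1 (hB hi))) ?_
    rw [nsmul_eq_mul]
  have h2 : (8 : ℝ) * r * B.card ≤ N := by exact_mod_cast h8
  have h3 : (B.card : ℝ) * (2 * r * ∑ j ∈ Finset.range N, |F j|) ≤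
      N / 4 * ∑ j ∈ Finset.range N, |F j| := by
    have : (B.card : ℝ) * (2 * r * ∑ j ∈ Finset.range N, |F j|) =
      (8 * r * B.card) / 4 * ∑ j ∈ Finset.range N, |F j| := by ring
    rw [this]
    gcongr
  have h4 := h1.trans h3
  have h5 : (N : ℝ) * ∑ j ∈ B, |F j| ≤ N * ((∑ j ∈ Finset.range N, |F j|) / 4) := by
    refine h4.trans (le_of_eq ?_)
    ring
  exact le_of_mul_le_mul_left h5 hN0

theorem hasDeriv (lam : ℕ) (A : ℕ → ℝ) (x : ℝ) :
    HasDerivAt (F1 lam A) (- G1 lam (fun p => p * A p) x) x := by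
  have h : HasDerivAt (fun x => ∑ p ∈ P lam, A p * cos (p * x))
      (∑ p ∈ P lam, A p * (- sin (p * x) * ((p : ℝ) * 1))) x := by
    refine HasDerivAt.fun_sum fun p _ => ?_
    exact (((hasDerivAt_id x).const_mul (p : ℝ)).cos).const_mul (A p)
  have h' : - G1 lam (fun p => p * A p) x = ∑ p ∈ P lam, A p * (- sin (p * x) * ((p : ℝ) * 1)) := by
    unfold G1
    rw [← Finset.sum_neg_distrib]
    refine Finset.sum_congr rfl fun p _ => ?_
    ring
  rw [h']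
  exact h

end KB

theorem t_KB (hB : S_BAD) (hS : S_SUP) : S_KB := by
  intro M
  obtain ⟨L, hL⟩ := hB M
  refine ⟨max L 1, fun N hN σ hσ A hA hA0 => ?_⟩
  have hN1 : 1 ≤ N := le_trans (le_max_right _ _) hN
  have hb := hL N (le_trans (le_max_left _ _) hN) σ hσ A hA hA0
  obtain ⟨h1, -, -, h4⟩ := hS N σ hN1 hσ A
  set F : ℕ → ℝ := fun j => F1 (N ^ 2) A (gx N σ j) with hF
  have hsub : Bad N σ A ⊆ Finset.range N := by
    classical
    exact Finset.filter_subset _ _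
  have h5 : ∑ j ∈ Bad N σ A, |F j| ≤ (∑ j ∈ Finset.range N, |F j|) / 4 :=
    KB.aux N hN1 _ hsub _ hb F h1
  have h6 : ∀ j ∈ Finset.range N \ Bad N σ A, |A 0| * |F j| = A 0 * F j := by
    intro j hj
    rw [Finset.mem_sdiff] at hj
    have : ∃ ε > 0, ∀ x : ℝ, |x - gx N σ j| < ε → 0 ≤ A 0 * F1 (N ^ 2) A x := by
      by_contra hcon
      apply hj.2
      classical
      rw [Bad, Finset.mem_filter]
      exact ⟨hj.1, hcon⟩
    obtain ⟨ε, hε, h⟩ := this
    rw [← abs_mul]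
    exact abs_of_nonneg (h _ (by simpa using hε))
  have h7 : |A 0| * ∑ j ∈ Finset.range N, |F j| ≤
      A 0 * ∑ j ∈ Finset.range N, F j + 2 * |A 0| * ∑ j ∈ Bad N σ A, |F j| := by
    have h9 : |A 0| * ∑ j ∈ Finset.range N \ Bad N σ A, |F j| =
        A 0 * ∑ j ∈ Finset.range N \ Bad N σ A, F j := by
      rw [Finset.mul_sum, Finset.mul_sum, Finset.sum_congr rfl h6]
    rw [← Finset.sum_sdiff hsub, ← Finset.sum_sdiff (f := F) hsub, mul_add, mul_add, h9]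
    have h8 : - (|A 0| * ∑ j ∈ Bad N σ A, |F j|) ≤ A 0 * ∑ j ∈ Bad N σ A, F j := by
      have : |A 0 * ∑ j ∈ Bad N σ A, F j| ≤ |A 0| * ∑ j ∈ Bad N σ A, |F j| := by
        rw [abs_mul]
        exact mul_le_mul_of_nonneg_left (Finset.abs_sum_le_sum_abs _ _) (abs_nonneg _)
      exact (abs_le.1 this).1
    linarith
  have h8 : ∑ j ∈ Finset.range N, F j = N * (A 0 + (-1) ^ σ * A N) := h4
  rw [h8] at h7
  have h9 : 2 * |A 0| * ∑ j ∈ Bad N σ A, |F j| ≤
      2 * |A 0| * ((∑ j ∈ Finset.range N, |F j|) / 4) :=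
    mul_le_mul_of_nonneg_left h5 (by positivity)
  show (∑ j ∈ Finset.range N, |F j|) * |A 0| ≤ _
  nlinarith [h7, h9]

theorem t_KC (hB : S_BAD) (hS : S_SUP) : S_KC := by
  intro M
  obtain ⟨L, hL⟩ := hB M
  refine ⟨max L 1, fun N hN σ hσ A hA hA0 hz => ?_⟩
  have hN1 : 1 ≤ N := le_trans (le_max_right _ _) hN
  have hb := hL N (le_trans (le_max_left _ _) hN) σ hσ A hA hA0
  obtain ⟨-, -, h3, -⟩ := hS N σ hN1 hσ A
  obtain ⟨-, h2, -, -⟩ := hS N σ hN1 hσ (fun p => p * A p)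
  set G : ℕ → ℝ := fun j => G1 (N ^ 2) (fun p => p * A p) (gx N σ j) with hG
  have hsub : Bad N σ A ⊆ Finset.range N := by
    classical
    exact Finset.filter_subset _ _
  have h5 : ∑ j ∈ Bad N σ A, |G j| ≤ (∑ j ∈ Finset.range N, |G j|) / 4 :=
    KB.aux N hN1 _ hsub _ hb G h2
  have h6 : ∀ j ∈ Finset.range N \ Bad N σ A, |G j| = 0 := by
    intro j hj
    rw [Finset.mem_sdiff] at hj
    have : ∃ ε > 0, ∀ x : ℝ, |x - gx N σ j| < ε → 0 ≤ A 0 * F1 (N ^ 2) A x := by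
      by_contra hcon
      apply hj.2
      classical
      rw [Bad, Finset.mem_filter]
      exact ⟨hj.1, hcon⟩
    obtain ⟨ε, hε, h⟩ := this
    have hmin : IsLocalMin (fun x => A 0 * F1 (N ^ 2) A x) (gx N σ j) := by
      rw [IsLocalMin, IsMinFilter, Metric.eventually_nhds_iff]
      refine ⟨ε, hε, fun y hy => ?_⟩
      rw [hz j (Finset.mem_range.1 hj.1), mul_zero]
      exact h y hy
    have hd := hmin.hasDerivAt_eq_zero ((KB.hasDeriv (N ^ 2) A (gx N σ j)).const_mul (A 0))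
    rw [mul_eq_zero] at hd
    rcases hd with hd | hd
    · exact absurd hd hA0
    · rw [abs_eq_zero]
      exact neg_eq_zero.1 hd
  have h7 : ∑ j ∈ Finset.range N, |G j| = ∑ j ∈ Bad N σ A, |G j| := by
    rw [← Finset.sum_sdiff hsub, Finset.sum_eq_zero h6, zero_add]
  have h8 : 0 ≤ ∑ j ∈ Bad N σ A, |G j| := Finset.sum_nonneg fun _ _ => abs_nonneg _
  have h9 : ∑ j ∈ Finset.range N, |G j| = 0 := by
    rw [← h7] at h5 h8
    linarith
  refine h3 hz fun i hi => ?_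
  have := (Finset.sum_eq_zero_iff_of_nonneg fun _ _ => abs_nonneg _).1 h9 i (Finset.mem_range.2 hi)
  exact abs_eq_zero.1 this

end Pool.Agent.R292.ND
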