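import Pool.Agent.R292.ND.CORE

open Set Real

namespace Pool.Agent.R292.ND

namespace MAIN

open CORE

noncomputable def U (lam : ℕ) (A : ℕ → ℝ) (z : ℝ × ℝ) : ℝ :=
  ∑ p ∈ P lam, A p * (cos (p * z.1) * cos (star lam p * z.2))

lemma cont_U (lam : ℕ) (A : ℕ → ℝ) : Continuous (U lam A) := by
  unfold U; fun_prop

lemma rep {lam : ℕ} {u : ℝ × ℝ → ℝ}
    (h : u ∈ Submodule.span ℝ {f : ℝ × ℝ → ℝ | ∃ p q : ℕ, p ^ 2 + q ^ 2 = lam ∧
      f = fun z => cos (p * z.1) * cos (q * z.2)}) : ∃ A : ℕ → ℝ, u = U lam A := by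
  classical
  induction h using Submodule.span_induction with
  | mem f hf =>
    obtain ⟨p, q, hpq, rfl⟩ := hf
    refine ⟨fun i => if i = p then 1 else 0, ?_⟩
    funext z
    unfold U
    rw [Finset.sum_eq_single p]
    · rw [star_eq hpq]; simp
    · intro b _ hb; simp [hb]
    · intro hp; exact absurd (mem_P.2 ⟨q, hpq⟩) hp
  | zero => exact ⟨fun _ => 0, by funext z; simp [U]⟩
  | add f g _ _ hf hg =>
    obtain ⟨A, rfl⟩ := hf
    obtain ⟨B, rfl⟩ := hg
    refine ⟨fun p => A p + B p, ?_⟩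
    funext z
    simp only [Pi.add_apply, U]
    rw [← Finset.sum_add_distrib]
    exact Finset.sum_congr rfl fun p _ => by ring
  | smul c f _ hf =>
    obtain ⟨A, rfl⟩ := hf
    refine ⟨fun p => c * A p, ?_⟩
    funext z
    simp only [Pi.smul_apply, smul_eq_mul, U]
    rw [Finset.mul_sum]
    exact Finset.sum_congr rfl fun p _ => by ring

lemma bottom (lam : ℕ) (A : ℕ → ℝ) : (fun t : ℝ => U lam A (t, 0)) = F1 lam A := by
  funext t
  simp [U, F1]

lemma left (lam : ℕ) (A : ℕ → ℝ) :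
    (fun t : ℝ => U lam A (0, t)) = F1 lam (fun p => A (star lam p)) := by
  funext t
  simp only [U, F1, mul_zero, cos_zero, one_mul]
  refine Finset.sum_nbij' (star lam) (star lam) (fun p hp => star_mem hp)
    (fun p hp => star_mem hp) (fun p hp => star_star hp) (fun p hp => star_star hp) ?_
  intro p hp
  rw [star_star hp]

end MAIN

open CORE MAIN in
theorem t_MAIN (hCORE : S_CORE) (hCOMP : S_COMP) (hSWAP : S_SWAP) (hEXPL : S_EXPL) : S_MAIN := by
  intro C
  obtain ⟨M, hM⟩ := hCOMP C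
  obtain ⟨L, hL⟩ := hCORE M
  refine ⟨L + C ^ 2 + 1, ?_⟩
  intro lam hlam u hu
  obtain ⟨hu1, hu0⟩ := hu
  by_contra hcon
  push Not at hcon
  have hle : nodalCount u ≤ (C : ℕ∞) := hcon.le
  obtain ⟨A, rfl⟩ := rep hu1
  have hne : ∃ p ∈ P lam, A p ≠ 0 := by
    by_contra h
    push Not at h
    apply hu0
    funext z
    simp only [U, Pi.zero_apply]
    exact Finset.sum_eq_zero fun p hp => by rw [h p hp, zero_mul]
  have h1 := hM _ (cont_U lam A) hle
  have hsw : nodalCount (fun z : ℝ × ℝ => U lam A (z.2, z.1)) ≤ (C : ℕ∞) := by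
    rw [hSWAP]; exact hle
  have h2 := hM (fun z : ℝ × ℝ => U lam A (z.2, z.1))
    ((cont_U lam A).comp (by fun_prop)) hsw
  simp only at h2
  rw [bottom] at h1
  rw [left] at h2
  obtain ⟨N, hN2, hA0, hAN, hz⟩ := hL lam (by omega) A hne h1 h2
  have hNpos : 1 ≤ N := by
    rcases Nat.eq_zero_or_pos N with h | h
    · rw [h] at hN2; norm_num at hN2; omega
    · exact h
  have hAN0 : A N ≠ 0 := by
    rcases hAN with h | h
    · rw [h]; exact hA0
    · rw [h]; exact neg_ne_zero.2 hA0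
  have h0P : 0 ∈ P lam := mem_P.2 ⟨N, by simpa using hN2⟩
  have hNP : N ∈ P lam := mem_P.2 ⟨0, by simpa using hN2⟩
  have s0 : star lam 0 = N := star_eq (by simpa using hN2)
  have sN : star lam N = 0 := star_eq (by simpa using hN2)
  have hU : U lam A = fun z => A N * (cos (N * z.1) + (A 0 / A N) * cos (N * z.2)) := by
    classical
    funext z
    unfold U
    have hsub : ({0, N} : Finset ℕ) ⊆ P lam := by
      intro p hp
      rcases Finset.mem_insert.1 hp with h | h
      · rw [h]; exact h0P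
      · rw [Finset.mem_singleton.1 h]; exact hNP
    rw [← Finset.sum_subset hsub]
    · rw [Finset.sum_pair (by omega), s0, sN]
      simp only [Nat.cast_zero, zero_mul, cos_zero, one_mul, mul_one]
      field_simp
      ring
    · intro p hp hp2
      rw [hz p hp (fun h => hp2 (by simp [h])) (fun h => hp2 (by simp [h])), zero_mul]
  have hη : A 0 / A N = 1 ∨ A 0 / A N = -1 := by
    rcases hAN with h | h
    · left; rw [h]; exact div_self hA0
    · right; rw [h, div_neg, div_self hA0]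
  have h3 := hEXPL N (A 0 / A N) (A N) hNpos hη hAN0
  rw [← hU] at h3
  have hCN : C ≤ N := by
    by_contra h
    push Not at h
    have : N ^ 2 ≤ C ^ 2 := Nat.pow_le_pow_left h.le 2
    omega
  have h4 : (C : ℕ∞) ≤ (N : ℕ∞) := by exact_mod_cast hCN
  exact absurd (h4.trans h3) (not_le.2 hcon)

end Pool.Agent.R292.ND
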