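import Pool.Agent.R292.ND.Stm

set_option autoImplicit false

open Set Real

namespace Pool.Agent.R292.ND

namespace NT

open UniqueFactorizationMonoid

noncomputable local instance : StrongNormalizationMonoid GaussianInt :=
  UniqueFactorizationMonoid.strongNormalizationMonoid

/-- natural norm -/
def nn (z : GaussianInt) : ℕ := z.norm.natAbs

theorem nn_one : nn 1 = 1 := by
  unfold nn
  rw [Zsqrtd.norm_one]
  rfl

theorem nn_mul (a b : GaussianInt) : nn (a * b) = nn a * nn b := by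
  unfold nn
  rw [Zsqrtd.norm_mul, Int.natAbs_mul]

theorem nn_eq_zero {z : GaussianInt} : nn z = 0 ↔ z = 0 := by
  unfold nn
  rw [Int.natAbs_eq_zero, GaussianInt.norm_eq_zero]

theorem nn_unit {z : GaussianInt} : nn z = 1 ↔ IsUnit z := Zsqrtd.norm_eq_one_iff

theorem nn_assoc {a b : GaussianInt} (h : Associated a b) : nn a = nn b := by
  obtain ⟨u, rfl⟩ := h
  rw [nn_mul, nn_unit.2 u.isUnit, mul_one]

theorem nn_ge_two {z : GaussianInt} (h : Prime z) : 2 ≤ nn z := by
  have h0 : nn z ≠ 0 := fun h' => h.ne_zero (nn_eq_zero.1 h')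
  have h1 : nn z ≠ 1 := fun h' => h.not_isUnit (nn_unit.1 h')
  omega

theorem nn_sq (z : GaussianInt) : ((nn z : ℕ) : ℤ) = z.re ^ 2 + z.im ^ 2 := by
  unfold nn
  rw [GaussianInt.abs_natCast_norm, Zsqrtd.norm_def]
  ring

theorem nn_multiset_prod (s : Multiset GaussianInt) : nn s.prod = (s.map nn).prod := by
  induction s using Multiset.induction with
  | empty => simp [nn_one]
  | cons a s ih => rw [Multiset.prod_cons, nn_mul, ih, Multiset.map_cons, Multiset.prod_cons]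

theorem pow_le_two_pow (k : ℕ) : ∃ C : ℕ, 1 ≤ C ∧ ∀ v : ℕ, (v + 1) ^ k ≤ C * 2 ^ v := by
  have h1 : Filter.Tendsto (fun n : ℕ => (n : ℝ) ^ k / (2 : ℝ) ^ n) Filter.atTop (nhds 0) :=
    tendsto_pow_const_div_const_pow_of_one_lt k (by norm_num)
  obtain ⟨B, hB⟩ := h1.bddAbove_range
  refine ⟨⌈2 * B⌉₊ + 1, by omega, fun v => ?_⟩
  have h2 := hB ⟨v + 1, rfl⟩
  simp only at h2
  have h3 : (0:ℝ) < (2:ℝ) ^ (v + 1) := by positivity
  rw [div_le_iff₀ h3] at h2
  have h4 : (((v + 1) ^ k : ℕ) : ℝ) ≤ (((⌈2 * B⌉₊ + 1) * 2 ^ v : ℕ) : ℝ) := by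
    push_cast at h2 ⊢
    have h5 : 2 * B ≤ (⌈2 * B⌉₊ : ℝ) := Nat.le_ceil _
    have h6 : (0:ℝ) < (2:ℝ) ^ v := by positivity
    calc ((v:ℝ) + 1) ^ k ≤ B * 2 ^ (v + 1) := h2
      _ = (2 * B) * 2 ^ v := by ring
      _ ≤ ((⌈2 * B⌉₊ : ℝ) + 1) * 2 ^ v := by
        apply mul_le_mul_of_nonneg_right _ h6.le
        linarith
  exact_mod_cast h4

/-- Gaussian integers of small norm -/
noncomputable def small (B : ℕ) : Finset GaussianInt := by
  classical
  exact (Finset.Icc (-(B : ℤ)) B ×ˢ Finset.Icc (-(B : ℤ)) B).image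
    (fun p => (⟨p.1, p.2⟩ : GaussianInt))

theorem mem_small {B : ℕ} {z : GaussianInt} (h : nn z < B) : z ∈ small B := by
  classical
  have h1 := nn_sq z
  have h2 : ((nn z : ℕ) : ℤ) < B := by exact_mod_cast h
  rw [h1] at h2
  refine Finset.mem_image.2 ⟨(z.re, z.im), ?_, rfl⟩
  rw [Finset.mem_product, Finset.mem_Icc, Finset.mem_Icc]
  refine ⟨⟨?_, ?_⟩, ?_, ?_⟩ <;> nlinarith [sq_nonneg z.re, sq_nonneg z.im]

theorem gauss_divisor_bound (k : ℕ) : ∃ K : ℕ, ∀ z : GaussianInt, z ≠ 0 →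
    (Finset.Iic (normalizedFactors z)).card ^ k ≤ K * nn z := by
  classical
  obtain ⟨C, hC1, hC⟩ := pow_le_two_pow k
  refine ⟨∏ p ∈ small (2 ^ k), C, fun z hz => ?_⟩
  set s := normalizedFactors z with hs
  have hz' : nn z = ∏ p ∈ s.toFinset, nn p ^ s.count p := by
    rw [← nn_assoc (prod_normalizedFactors hz), nn_multiset_prod, ← hs,
      Finset.prod_multiset_map_count]
  rw [Multiset.card_Iic, ← Finset.prod_pow, hz']
  have h1 : ∀ p ∈ s.toFinset, (s.count p + 1) ^ k ≤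
      (if nn p < 2 ^ k then C else 1) * nn p ^ s.count p := by
    intro p hp
    have hp2 : 2 ≤ nn p := nn_ge_two (prime_of_normalized_factor p (Multiset.mem_toFinset.1 hp))
    split_ifs with h
    · exact (hC _).trans (Nat.mul_le_mul_left _ (Nat.pow_le_pow_left hp2 _))
    · rw [one_mul]
      calc (s.count p + 1) ^ k ≤ (2 ^ s.count p) ^ k :=
            Nat.pow_le_pow_left Nat.lt_two_pow_self _
        _ = (2 ^ k) ^ s.count p := by
            rw [← pow_mul, mul_comm, pow_mul]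
        _ ≤ _ := Nat.pow_le_pow_left (by omega) _
  calc _ ≤ ∏ p ∈ s.toFinset, (if nn p < 2 ^ k then C else 1) * nn p ^ s.count p :=
        Finset.prod_le_prod' h1
    _ = (∏ p ∈ s.toFinset, (if nn p < 2 ^ k then C else 1)) *
        ∏ p ∈ s.toFinset, nn p ^ s.count p := Finset.prod_mul_distrib
    _ ≤ _ := by
        apply Nat.mul_le_mul_right
        rw [← Finset.prod_filter]
        apply Finset.prod_le_prod_of_subset_of_one_le'
        · intro p hp
          rw [Finset.mem_filter] at hp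
          exact mem_small hp.2
        · intro i _ _
          exact hC1

theorem assoc_coords {p q p' q' : ℕ}
    (h : Associated (⟨(p : ℤ), (q : ℤ)⟩ : GaussianInt) ⟨(p' : ℤ), (q' : ℤ)⟩) :
    p' = p ∨ p' = q := by
  obtain ⟨u, hu⟩ := h
  have h1 := nn_sq (u : GaussianInt)
  rw [nn_unit.2 u.isUnit] at h1
  have h2 := congrArg Zsqrtd.re hu
  rw [Zsqrtd.re_mul] at h2
  simp only at h2
  set a := (u : GaussianInt).re
  set b := (u : GaussianInt).im
  have ha : a ^ 2 ≤ 1 := by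
    push_cast at h1
    nlinarith [sq_nonneg b]
  have hb : b ^ 2 ≤ 1 := by
    push_cast at h1
    nlinarith [sq_nonneg a]
  have ha1 : -1 ≤ a := by nlinarith
  have ha2 : a ≤ 1 := by nlinarith
  have hb1 : -1 ≤ b := by nlinarith
  have hb2 : b ≤ 1 := by nlinarith
  push_cast at h1
  generalize a = a at *
  generalize b = b at *
  interval_cases a <;> interval_cases b <;> omega

theorem card_P_le (n : ℕ) (hn : 1 ≤ n) :
    (P n).card ≤ 2 * (Finset.Iic (normalizedFactors ((n : ℤ) : GaussianInt))).card := by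
  classical
  have hmem : ∀ p ∈ P n, ∃ q : ℕ, p ^ 2 + q ^ 2 = n := by
    intro p hp
    unfold P at hp
    exact (Finset.mem_filter.1 hp).2
  have hex : ∀ p : ℕ, ∃ q : ℕ, p ∈ P n → p ^ 2 + q ^ 2 = n := by
    intro p
    by_cases hp : p ∈ P n
    · obtain ⟨q, hq⟩ := hmem p hp
      exact ⟨q, fun _ => hq⟩
    · exact ⟨0, fun h => absurd h hp⟩
  choose q hq using hex
  let Z : ℕ → GaussianInt := fun p => ⟨(p : ℤ), (q p : ℤ)⟩
  have hnne : ((n : ℤ) : GaussianInt) ≠ 0 := by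
    have : (n : ℤ) ≠ 0 := by omega
    exact_mod_cast this
  have hZdvd : ∀ p ∈ P n, Z p ∣ ((n : ℤ) : GaussianInt) := by
    intro p hp
    refine ⟨⟨(p : ℤ), -(q p : ℤ)⟩, ?_⟩
    have h1 : (p : ℤ) ^ 2 + (q p : ℤ) ^ 2 = n := by exact_mod_cast hq p hp
    ext
    · rw [Zsqrtd.re_mul, Zsqrtd.re_intCast]
      show (n : ℤ) = (p : ℤ) * p + -1 * (q p : ℤ) * -(q p : ℤ)
      rw [← h1]
      ring
    · rw [Zsqrtd.im_mul, Zsqrtd.im_intCast]
      show (0 : ℤ) = (p : ℤ) * -(q p : ℤ) + (q p : ℤ) * p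
      ring
  have hZ0 : ∀ p ∈ P n, Z p ≠ 0 := by
    intro p hp h0
    have := hZdvd p hp
    rw [h0, zero_dvd_iff] at this
    exact hnne this
  let f : ℕ → Multiset GaussianInt := fun p => normalizedFactors (Z p)
  have himg : (P n).image f ⊆ Finset.Iic (normalizedFactors ((n : ℤ) : GaussianInt)) := by
    intro m hm
    obtain ⟨p, hp, rfl⟩ := Finset.mem_image.1 hm
    rw [Finset.mem_Iic]
    exact (dvd_iff_normalizedFactors_le_normalizedFactors (hZ0 p hp) hnne).1 (hZdvd p hp)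
  refine (Finset.card_le_mul_card_image (f := f) (P n) 2 ?_).trans
    (Nat.mul_le_mul_left _ (Finset.card_le_card himg))
  intro m hm
  obtain ⟨p, hp, rfl⟩ := Finset.mem_image.1 hm
  have hsub : (P n).filter (fun x => f x = f p) ⊆ {p, q p} := by
    intro p' hp'
    rw [Finset.mem_filter] at hp'
    have h1 : Associated (Z p) (Z p') := by
      have h2 := prod_normalizedFactors (hZ0 p hp)
      have h3 := prod_normalizedFactors (hZ0 p' hp'.1)
      have h4 : normalizedFactors (Z p') = normalizedFactors (Z p) := hp'.2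
      rw [h4] at h3
      exact h2.symm.trans h3
    rw [Finset.mem_insert, Finset.mem_singleton]
    exact assoc_coords h1
  exact (Finset.card_le_card hsub).trans Finset.card_le_two

theorem main : S_NT := by
  intro k
  obtain ⟨K1, hK1⟩ := gauss_divisor_bound (2 * k)
  refine ⟨2 ^ k * (K1 + 1), fun n hn => ?_⟩
  have hnne : ((n : ℤ) : GaussianInt) ≠ 0 := by
    have : (n : ℤ) ≠ 0 := by omega
    exact_mod_cast this
  have h1 := hK1 _ hnne
  have h2 := card_P_le n hn
  have hnn : nn ((n : ℤ) : GaussianInt) = n ^ 2 := by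
    have h3 := nn_sq ((n : ℤ) : GaussianInt)
    rw [Zsqrtd.re_intCast, Zsqrtd.im_intCast] at h3
    have h4 : ((nn ((n : ℤ) : GaussianInt) : ℕ) : ℤ) = ((n ^ 2 : ℕ) : ℤ) := by
      rw [h3]
      push_cast
      ring
    exact_mod_cast h4
  rw [hnn] at h1
  have h5 : ((P n).card ^ k) ^ 2 ≤ (2 ^ k * (K1 + 1) * n) ^ 2 := by
    calc ((P n).card ^ k) ^ 2 = (P n).card ^ (2 * k) := by rw [← pow_mul, mul_comm]
      _ ≤ (2 * (Finset.Iic (normalizedFactors ((n : ℤ) : GaussianInt))).card) ^ (2 * k) :=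
          Nat.pow_le_pow_left h2 _
      _ = 2 ^ (2 * k) * (Finset.Iic (normalizedFactors ((n : ℤ) : GaussianInt))).card ^ (2 * k) := by
          rw [mul_pow]
      _ ≤ 2 ^ (2 * k) * (K1 * n ^ 2) := Nat.mul_le_mul_left _ h1
      _ ≤ 2 ^ (2 * k) * ((K1 + 1) ^ 2 * n ^ 2) := by
          refine Nat.mul_le_mul_left _ (Nat.mul_le_mul_right _ ?_)
          nlinarith
      _ = (2 ^ k * (K1 + 1) * n) ^ 2 := by ring
  exact (Nat.pow_le_pow_iff_left two_ne_zero).1 h5

end NT

theorem t_NT : S_NT := NT.main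

end Pool.Agent.R292.ND
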