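import Pool.Agent.R292.ND.Stm

/-! Project ND, piece ND-ORTH: discrete orthogonality. -/

open Set Real

namespace Pool.Agent.R292.ND

namespace ORTH

lemma tele (N σ l : ℕ) (hN : 1 ≤ N) :
    (∑ j ∈ Finset.range N, cos (l * gx N σ j)) * (2 * sin (l * π / N)) = 0 := by
  have hN' : (N : ℝ) ≠ 0 := by
    have : (1 : ℝ) ≤ N := by exact_mod_cast hN
    linarith
  have h1 : ∀ j : ℕ, cos (l * gx N σ j) * (2 * sin (l * π / N)) =
      sin (l * (2 * ((j + 1 : ℕ) : ℝ) + σ - 1) * π / N) - sin (l * (2 * (j : ℝ) + σ - 1) * π / N) := by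
    intro j
    have e1 : l * (2 * ((j + 1 : ℕ) : ℝ) + σ - 1) * π / N = l * gx N σ j + l * π / N := by
      unfold gx
      push_cast
      field_simp
      ring
    have e2 : l * (2 * (j : ℝ) + σ - 1) * π / N = l * gx N σ j - l * π / N := by
      unfold gx
      field_simp
    rw [e1, e2, sin_add, sin_sub]
    ring
  rw [Finset.sum_mul, Finset.sum_congr rfl (fun j _ => h1 j),
    Finset.sum_range_sub (fun j : ℕ => sin (l * (2 * (j : ℝ) + σ - 1) * π / N))]
  have e3 : l * (2 * (N : ℝ) + σ - 1) * π / N =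
      l * (2 * ((0 : ℕ) : ℝ) + σ - 1) * π / N + l * (2 * π) := by
    push_cast
    field_simp
    ring
  rw [e3, sin_add_nat_mul_two_pi, sub_self]

lemma sin_ne {N l : ℕ} (hN : 1 ≤ N) (h0 : 0 < l) (h2 : l < 2 * N) (hl : l ≠ N) :
    sin (l * π / N) ≠ 0 := by
  have hN' : (0 : ℝ) < N := by exact_mod_cast hN
  have hl0 : (0 : ℝ) < l := by exact_mod_cast h0
  rcases lt_or_gt_of_ne hl with h | h
  · apply ne_of_gt
    apply sin_pos_of_pos_of_lt_pi
    · positivity
    · rw [div_lt_iff₀ hN']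
      have : (l : ℝ) < N := by exact_mod_cast h
      nlinarith [pi_pos]
  · have hlN : (N : ℝ) < l := by exact_mod_cast h
    have hl2 : (l : ℝ) < 2 * N := by exact_mod_cast h2
    have e : (l : ℝ) * π / N = (l * π / N - π) + π := by ring
    rw [e, sin_add_pi]
    apply neg_ne_zero.2
    apply ne_of_gt
    apply sin_pos_of_pos_of_lt_pi
    · rw [sub_pos, lt_div_iff₀ hN']
      nlinarith [pi_pos]
    · rw [sub_lt_iff_lt_add, div_lt_iff₀ hN']
      nlinarith [pi_pos]

lemma cosN {N σ : ℕ} (hN : 1 ≤ N) (hσ : σ ≤ 1) (j : ℕ) :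
    cos (N * gx N σ j) = (-1) ^ σ := by
  have hN' : (N : ℝ) ≠ 0 := by
    have : (1 : ℝ) ≤ N := by exact_mod_cast hN
    linarith
  have e : N * gx N σ j = σ * π + j * (2 * π) := by
    unfold gx
    field_simp
    ring
  rw [e, cos_add_nat_mul_two_pi, cos_nat_mul_pi]

lemma main (N σ l : ℕ) (hN : 1 ≤ N) (hσ : σ ≤ 1) (hl : l < 2 * N) :
    ∑ j ∈ Finset.range N, cos (l * gx N σ j) =
      N * ((if l = 0 then 1 else 0) + (-1) ^ σ * (if l = N then 1 else 0)) := by
  rcases Nat.eq_zero_or_pos l with h0 | h0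
  · subst h0
    rw [if_pos rfl, if_neg (by omega)]
    simp
  · rw [if_neg (by omega)]
    by_cases h1 : l = N
    · subst h1
      rw [if_pos rfl, Finset.sum_congr rfl (fun j _ => cosN hN hσ j), Finset.sum_const,
        Finset.card_range, nsmul_eq_mul]
      ring
    · rw [if_neg h1]
      have h2 := tele N σ l hN
      have h3 := sin_ne hN h0 hl h1
      rcases mul_eq_zero.1 h2 with h4 | h4
      · rw [h4]
        ring
      · exfalso
        apply h3
        linarith

lemma absdiff (p q : ℕ) (x : ℝ) :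
    cos ((((q - p) + (p - q) : ℕ) : ℝ) * x) = cos (q * x - p * x) := by
  rcases le_total p q with h | h
  · rw [Nat.sub_eq_zero_of_le h, add_zero, Nat.cast_sub h]
    congr 1
    ring
  · rw [Nat.sub_eq_zero_of_le h, zero_add, Nat.cast_sub h, ← cos_neg]
    congr 1
    ring

lemma prods {N σ p q : ℕ} (hN : 1 ≤ N) (hσ : σ ≤ 1) (hp0 : 0 < p) (hpN : p < N) (hq : q ≤ N) :
    (∑ j ∈ Finset.range N, cos (q * gx N σ j - p * gx N σ j) = N * (if q = p then 1 else 0)) ∧
    (∑ j ∈ Finset.range N, cos (q * gx N σ j + p * gx N σ j) =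
      N * ((-1) ^ σ * (if q + p = N then 1 else 0))) := by
  constructor
  · have h := main N σ ((q - p) + (p - q)) hN hσ (by omega)
    rw [Finset.sum_congr rfl (fun j _ => absdiff p q (gx N σ j))] at h
    rw [h, if_neg (show ¬ ((q - p) + (p - q) = N) by omega)]
    by_cases hqp : q = p
    · rw [if_pos hqp, if_pos (by omega)]
      ring
    · rw [if_neg hqp, if_neg (by omega)]
      ring
  · have h := main N σ (q + p) hN hσ (by omega)
    have e : ∀ j ∈ Finset.range N, cos (q * gx N σ j + p * gx N σ j) =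
        cos (((q + p : ℕ) : ℝ) * gx N σ j) := by
      intro j _
      push_cast
      rw [add_mul]
    rw [Finset.sum_congr rfl e, h, if_neg (show ¬ (q + p = 0) by omega)]
    ring

end ORTH

theorem t_ORTH : S_ORTH := by
  intro N σ hN hσ
  refine ⟨?_, ?_, ?_⟩
  · intro q hq
    exact ORTH.main N σ q hN hσ (by omega)
  · intro p q hp0 hpN hq
    obtain ⟨h1, h2⟩ := ORTH.prods hN hσ hp0 hpN hq
    have e : ∀ j ∈ Finset.range N, cos (q * gx N σ j) * cos (p * gx N σ j) =
        (1 / 2) * cos (q * gx N σ j - p * gx N σ j) +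
          (1 / 2) * cos (q * gx N σ j + p * gx N σ j) := by
      intro j _
      rw [cos_sub, cos_add]
      ring
    rw [Finset.sum_congr rfl e, Finset.sum_add_distrib, ← Finset.mul_sum, ← Finset.mul_sum, h1, h2]
    ring
  · intro p q hp0 hpN hq
    obtain ⟨h1, h2⟩ := ORTH.prods hN hσ hp0 hpN hq
    have e : ∀ j ∈ Finset.range N, sin (q * gx N σ j) * sin (p * gx N σ j) =
        (1 / 2) * cos (q * gx N σ j - p * gx N σ j) -
          (1 / 2) * cos (q * gx N σ j + p * gx N σ j) := by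
      intro j _
      rw [cos_sub, cos_add]
      ring
    rw [Finset.sum_congr rfl e, Finset.sum_sub_distrib, ← Finset.mul_sum, ← Finset.mul_sum, h1, h2]
    ring

end Pool.Agent.R292.ND
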