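import Pool.Agent.R292.ND.Stm

set_option autoImplicit false

/-! Project ND: piece ND-PART. -/

open Set Real

namespace Pool.Agent.R292.ND

namespace PART

/-- the points `x` such that all alternating sequences to the left of `x` have length `≤ i` -/
def SS (f : ℝ → ℝ) (i : ℕ) : Set ℝ :=
  {x | x ∈ Icc 0 π ∧ ∀ m t, Alt f m t → (∀ j < m, t j < x) → m ≤ i}

noncomputable def zz (f : ℝ → ℝ) (i : ℕ) : ℝ := sSup (SS f i)

lemma zero_mem (f : ℝ → ℝ) (i : ℕ) : (0 : ℝ) ∈ SS f i := by
  refine ⟨⟨le_refl _, pi_pos.le⟩, fun m t h h' => ?_⟩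
  rcases Nat.eq_zero_or_pos m with h0 | h0
  · omega
  · have h1 := (h.1 0 h0).1.1
    have h2 := h' 0 h0
    linarith

lemma bdd (f : ℝ → ℝ) (i : ℕ) : BddAbove (SS f i) := ⟨π, fun _ h => h.1.2⟩

lemma zz_mem (f : ℝ → ℝ) (i : ℕ) : zz f i ∈ Icc 0 π :=
  ⟨le_csSup (bdd f i) (zero_mem f i), csSup_le ⟨0, zero_mem f i⟩ fun _ h => h.1.2⟩

lemma zz_mono (f : ℝ → ℝ) (i : ℕ) : zz f i ≤ zz f (i + 1) :=
  csSup_le_csSup (bdd f _) ⟨0, zero_mem f i⟩
    fun _ h => ⟨h.1, fun m t h1 h2 => (h.2 m t h1 h2).trans (Nat.le_succ i)⟩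

/-- there is a point of `SS f i` to the right -/
lemma exists_gt (f : ℝ → ℝ) (i : ℕ) {x : ℝ} (h : x < zz f i) : ∃ x' ∈ SS f i, x < x' :=
  exists_lt_of_lt_csSup ⟨0, zero_mem f i⟩ h

lemma not_mem (f : ℝ → ℝ) (i : ℕ) {x : ℝ} (h : zz f i < x) : x ∉ SS f i :=
  fun h' => absurd (le_csSup (bdd f i) h') (not_le.2 h)

/-- extension of an alternating sequence -/
lemma extend (f : ℝ → ℝ) (i : ℕ) (t : ℕ → ℝ) (x : ℝ) (h : Alt f (i + 1) t) (h1 : t i < x)
    (h2 : x < π) (h3 : f (t i) * f x < 0) : Alt f (i + 2) (Function.update t (i + 1) x) := by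
  have hx0 : f x ≠ 0 := by
    intro h0
    rw [h0] at h3
    simp at h3
  have hi := (h.1 i (by omega)).1.1
  refine ⟨fun j hj => ?_, fun j hj => ?_⟩
  · rcases eq_or_ne j (i + 1) with e | e
    · rw [e, Function.update_self]
      exact ⟨⟨by linarith, h2⟩, hx0⟩
    · rw [Function.update_of_ne e]
      exact h.1 j (by omega)
  · rcases eq_or_ne j i with e | e
    · rw [e, Function.update_self, Function.update_of_ne (by omega)]
      exact ⟨h1, h3⟩
    · rw [Function.update_of_ne (by omega), Function.update_of_ne (by omega)]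
      exact h.2 j (by omega)

/-- constant weak sign on a closed interval -/
lemma const_sign (f : ℝ → ℝ) (hf : Continuous f) (u v : ℝ)
    (h : ∀ x1 ∈ Ioo u v, ∀ x2 ∈ Ioo u v, x1 < x2 → ¬ f x1 * f x2 < 0) :
    ∃ s : ℝ, (s = 1 ∨ s = -1) ∧ ∀ x ∈ Icc u v, 0 ≤ s * f x := by
  rcases lt_trichotomy u v with huv | huv | huv
  · have hcl : ∀ s : ℝ, (∀ x ∈ Ioo u v, 0 ≤ s * f x) → ∀ x ∈ Icc u v, 0 ≤ s * f x := by
      intro s hs x hx
      have h1 : IsClosed {x | 0 ≤ s * f x} := isClosed_le continuous_const (by fun_prop)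
      have h2 : closure (Ioo u v) ⊆ {x | 0 ≤ s * f x} := closure_minimal hs h1
      rw [closure_Ioo huv.ne] at h2
      exact h2 hx
    by_cases hp : ∃ x1 ∈ Ioo u v, 0 < f x1
    · obtain ⟨x1, hx1, hf1⟩ := hp
      refine ⟨1, Or.inl rfl, hcl 1 fun x hx => ?_⟩
      rw [one_mul]
      by_contra hneg
      push Not at hneg
      rcases lt_trichotomy x x1 with h1 | h1 | h1
      · exact h x hx x1 hx1 h1 (mul_neg_of_neg_of_pos hneg hf1)
      · rw [h1] at hneg; linarith
      · exact h x1 hx1 x hx h1 (mul_neg_of_pos_of_neg hf1 hneg)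
    · push Not at hp
      refine ⟨-1, Or.inr rfl, hcl (-1) fun x hx => ?_⟩
      have := hp x hx
      linarith
  · rcases le_total 0 (f u) with h1 | h1
    · refine ⟨1, Or.inl rfl, fun x hx => ?_⟩
      have : x = u := le_antisymm (huv ▸ hx.2) hx.1
      rw [this, one_mul]
      exact h1
    · refine ⟨-1, Or.inr rfl, fun x hx => ?_⟩
      have : x = u := le_antisymm (huv ▸ hx.2) hx.1
      rw [this]
      linarith
  · refine ⟨1, Or.inl rfl, fun x hx => ?_⟩
    have := hx.1.trans hx.2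
    linarith

/-- the points of the partition -/
noncomputable def zf (f : ℝ → ℝ) : ℕ → ℝ
  | 0 => 0
  | i + 1 => zz f i

lemma arc (f : ℝ → ℝ) (i : ℕ) : ∀ x1 ∈ Ioo (zf f i) (zf f (i + 1)),
    ∀ x2 ∈ Ioo (zf f i) (zf f (i + 1)), x1 < x2 → ¬ f x1 * f x2 < 0 := by
  intro x1 h1 x2 h2 h12 hneg
  have hx2 : x2 < zz f i := h2.2
  obtain ⟨x', hx', hxx⟩ := exists_gt f i hx2
  have hpi : x2 < π := lt_of_lt_of_le hxx hx'.1.2
  cases i with
  | zero =>
    have h3 : (0 : ℝ) < x1 := h1.1
    have hA : Alt f 1 (fun _ => x1) := by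
      refine ⟨fun j _ => ⟨⟨h3, by linarith⟩, ?_⟩, fun j hj => by omega⟩
      intro h0
      simp only at h0
      rw [h0] at hneg
      simp at hneg
    have := hx'.2 1 _ hA (fun j _ => by linarith)
    omega
  | succ i =>
    have h3 : zz f i < x1 := h1.1
    obtain ⟨y, hy1, hy2⟩ := exists_between h3
    have h4 := not_mem f i hy1
    have h5 : ¬ ∀ m t, Alt f m t → (∀ j < m, t j < y) → m ≤ i := by
      intro h
      refine h4 ⟨⟨?_, by linarith⟩, h⟩
      have := (zz_mem f i).1
      linarith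
    push Not at h5
    obtain ⟨m, t, hA, ht, hm⟩ := h5
    have h6 := hx'.2 m t hA (fun j hj => by have := ht j hj; linarith)
    obtain rfl : m = i + 1 := by omega
    have hti := ht i (by omega)
    have hf0 := (hA.1 i (by omega)).2
    have hlt : ∀ x, y < x → x ≤ x2 → f (t i) * f x < 0 → False := by
      intro x hx hxx2 hxn
      have h7 := extend f i t x hA (by linarith) (by linarith) hxn
      have h8 := hx'.2 (i + 2) _ h7 (fun j hj => by
        rcases eq_or_ne j (i + 1) with e | e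
        · rw [e, Function.update_self]; linarith
        · rw [Function.update_of_ne e]
          have := ht j (by omega)
          linarith)
      omega
    rcases lt_or_gt_of_ne hf0 with h7 | h7
    · rcases lt_or_ge 0 (f x1) with h8 | h8
      · exact hlt x1 hy2 h12.le (mul_neg_of_neg_of_pos h7 h8)
      · have h9 : 0 < f x2 := by
          by_contra hc
          push Not at hc
          have := mul_nonneg_of_nonpos_of_nonpos h8 hc
          linarith
        exact hlt x2 (by linarith) (le_refl _) (mul_neg_of_neg_of_pos h7 h9)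
    · rcases lt_or_ge (f x1) 0 with h8 | h8
      · exact hlt x1 hy2 h12.le (mul_neg_of_pos_of_neg h7 h8)
      · have h9 : f x2 < 0 := by
          by_contra hc
          push Not at hc
          have := mul_nonneg h8 hc
          linarith
        exact hlt x2 (by linarith) (le_refl _) (mul_neg_of_pos_of_neg h7 h9)

end PART

open PART in
theorem t_PART : S_PART := by
  intro f hf M hM
  have harc : ∀ i, ∃ s : ℝ, (s = 1 ∨ s = -1) ∧ ∀ x ∈ Icc (zf f i) (zf f (i + 1)), 0 ≤ s * f x :=
    fun i => const_sign f hf _ _ (arc f i)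
  choose s hs1 hs2 using harc
  refine ⟨zf f, s, rfl, ?_, ?_, fun i _ => hs1 i, fun i _ => hs2 i⟩
  · show zz f M = π
    apply le_antisymm (zz_mem f M).2
    exact le_csSup (bdd f M) ⟨⟨pi_pos.le, le_refl _⟩, fun m t h _ => hM m t h⟩
  · intro i _
    cases i with
    | zero => exact (zz_mem f 0).1
    | succ i => exact zz_mono f i

end Pool.Agent.R292.ND
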