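import Pool.Agent.R292.ND.Stm

set_option autoImplicit false

open Set Real

namespace Pool.Agent.R292.ND

namespace STAR

theorem mem_P_iff {lam p : ℕ} : p ∈ P lam ↔ p ∈ Finset.range (lam + 1) ∧
    ∃ q : ℕ, p ^ 2 + q ^ 2 = lam := by
  classical
  unfold P
  exact Finset.mem_filter

theorem mem_P {lam p q : ℕ} (h : p ^ 2 + q ^ 2 = lam) : p ∈ P lam := by
  rw [mem_P_iff]
  refine ⟨Finset.mem_range.2 (Nat.lt_succ_of_le ?_), q, h⟩
  calc p ≤ p ^ 2 := Nat.le_self_pow two_ne_zero p
    _ ≤ lam := by rw [← h]; exact Nat.le_add_right _ _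

theorem cont_F (lam : ℕ) (A : ℕ → ℝ) : Continuous (F1 lam A) := by
  unfold F1
  fun_prop

theorem int_cos (c : ℤ) (hc : c ≠ 0) : ∫ x in (0 : ℝ)..π, cos (c * x) = 0 := by
  have hc' : (c : ℝ) ≠ 0 := by exact_mod_cast hc
  rw [intervalIntegral.integral_comp_mul_left (fun x => cos x) hc', integral_cos,
    mul_zero, sin_zero, sin_int_mul_pi]
  simp

theorem orth_ne (a b : ℕ) (hab : a ≠ b) : ∫ x in (0 : ℝ)..π, cos (a * x) * cos (b * x) = 0 := by
  have e : ∀ x : ℝ, cos (a * x) * cos (b * x) =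
      (cos (((a : ℤ) - b : ℤ) * x) + cos (((a : ℤ) + b : ℤ) * x)) / 2 := by
    intro x
    push_cast
    rw [sub_mul, add_mul, cos_sub, cos_add]
    ring
  simp only [e]
  rw [intervalIntegral.integral_div, intervalIntegral.integral_add
    (Continuous.intervalIntegrable (by fun_prop) _ _)
    (Continuous.intervalIntegrable (by fun_prop) _ _), int_cos _ (by omega), int_cos _ (by omega)]
  simp

theorem orth_eq (a : ℕ) : π / 2 ≤ ∫ x in (0 : ℝ)..π, cos (a * x) * cos (a * x) := by
  rcases Nat.eq_zero_or_pos a with rfl | ha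
  · simp
    linarith [pi_pos]
  · have e : ∀ x : ℝ, cos (a * x) * cos (a * x) = (1 + cos (((2 * a : ℕ) : ℤ) * x)) / 2 := by
      intro x
      push_cast
      rw [show (2 : ℝ) * a * x = 2 * (a * x) by ring, cos_two_mul]
      ring
    simp only [e]
    rw [intervalIntegral.integral_div, intervalIntegral.integral_add
      (Continuous.intervalIntegrable (by fun_prop) _ _)
      (Continuous.intervalIntegrable (by fun_prop) _ _), int_cos _ (by omega)]
    simp

theorem int_F_mul (lam : ℕ) (A : ℕ → ℝ) (g : ℝ → ℝ) (hg : Continuous g) :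
    ∫ x in (0 : ℝ)..π, g x * F1 lam A x = ∑ p ∈ P lam, A p * ∫ x in (0 : ℝ)..π, g x * cos (p * x) := by
  unfold F1
  have e : ∀ x : ℝ, g x * ∑ p ∈ P lam, A p * cos (p * x) =
      ∑ p ∈ P lam, A p * (g x * cos (p * x)) := by
    intro x
    rw [Finset.mul_sum]
    exact Finset.sum_congr rfl fun p _ => by ring
  simp only [e]
  rw [intervalIntegral.integral_finsetSum fun p _ =>
    Continuous.intervalIntegrable (by fun_prop) _ _]
  exact Finset.sum_congr rfl fun p _ => intervalIntegral.integral_const_mul _ _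

theorem int_F_cos (lam : ℕ) (A : ℕ → ℝ) (p : ℕ) (hp : p ∈ P lam) :
    ∫ x in (0 : ℝ)..π, cos (p * x) * F1 lam A x =
      A p * ∫ x in (0 : ℝ)..π, cos (p * x) * cos (p * x) := by
  rw [int_F_mul lam A (fun x => cos (p * x)) (by fun_prop)]
  refine Finset.sum_eq_single p (fun q _ hq => ?_) (fun h => absurd hp h)
  rw [orth_ne p q (Ne.symm hq), mul_zero]

theorem abs_int_le (g f : ℝ → ℝ) (hg : Continuous g) (hf : Continuous f)
    (h1 : ∀ x, |g x| ≤ 1) : |∫ x in (0 : ℝ)..π, g x * f x| ≤ ∫ x in (0 : ℝ)..π, |f x| := by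
  refine (intervalIntegral.abs_integral_le_integral_abs pi_pos.le).trans ?_
  refine intervalIntegral.integral_mono_on pi_pos.le
    (Continuous.intervalIntegrable (by fun_prop) _ _)
    (Continuous.intervalIntegrable (by fun_prop) _ _) fun x _ => ?_
  rw [abs_mul]
  exact mul_le_of_le_one_left (abs_nonneg _) (h1 x)

theorem coef_le (lam : ℕ) (A : ℕ → ℝ) (p : ℕ) (hp : p ∈ P lam) :
    π / 2 * |A p| ≤ |∫ x in (0 : ℝ)..π, cos (p * x) * F1 lam A x| := by
  rw [int_F_cos lam A p hp, abs_mul, mul_comm]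
  refine mul_le_mul_of_nonneg_left ?_ (abs_nonneg _)
  exact (orth_eq p).trans (le_abs_self _)

theorem coef_le' (lam : ℕ) (A : ℕ → ℝ) (p : ℕ) (hp : p ∈ P lam) :
    |A p| ≤ ∫ x in (0 : ℝ)..π, |F1 lam A x| := by
  have h1 := (coef_le lam A p hp).trans (abs_int_le (fun x => cos (p * x)) (F1 lam A)
    (by fun_prop) (cont_F lam A) fun x => abs_cos_le_one _)
  have h2 : 1 ≤ π / 2 := by linarith [pi_gt_three]
  have h3 := abs_nonneg (A p)
  nlinarith

theorem F_le (lam : ℕ) (A : ℕ → ℝ) (x : ℝ) :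
    |F1 lam A x| ≤ (P lam).card * ∫ x in (0 : ℝ)..π, |F1 lam A x| := by
  unfold F1
  refine (Finset.abs_sum_le_sum_abs _ _).trans ?_
  rw [← nsmul_eq_mul]
  refine Finset.sum_le_card_nsmul _ _ _ fun p hp => ?_
  rw [abs_mul]
  exact (mul_le_of_le_one_right (abs_nonneg _) (abs_cos_le_one _)).trans (coef_le' lam A p hp)

/-- the cut-off function for `F1` -/
theorem setup (hP : S_PART) (hH : S_H) (M lam : ℕ) (A : ℕ → ℝ) (hr : 0 < (P lam).card)
    (hM : AltLe M (F1 lam A)) : ∃ h : ℝ → ℝ, Continuous h ∧ (∀ x, |h x| ≤ 1) ∧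
      (∀ p : ℕ, 1 ≤ p → |∫ x in (0 : ℝ)..π, h x * cos (p * x)| ≤
        800 * (M + 1) ^ 2 * (P lam).card / p ^ 2) ∧
      (∀ x ∈ Icc 0 π, 0 ≤ |F1 lam A x| - h x * F1 lam A x) ∧
      ∫ x in (0 : ℝ)..π, (|F1 lam A x| - h x * F1 lam A x) ≤
        (∫ x in (0 : ℝ)..π, |F1 lam A x|) / 100 := by
  obtain ⟨z, s, hz0, hzm, hzmono, hs, hsign⟩ := hP (F1 lam A) (cont_F lam A) M hM
  have hr' : (0 : ℝ) < (P lam).card := by exact_mod_cast hr
  obtain ⟨h, hc, h1, h2, h3⟩ := hH (M + 1) z s hz0 hzm hzmono hs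
    (1 / (200 * (M + 1) * (P lam).card)) (by positivity)
  obtain ⟨h4, h5⟩ := h3 (F1 lam A) (cont_F lam A) hsign
    ((P lam).card * ∫ x in (0 : ℝ)..π, |F1 lam A x|) (fun x _ => F_le lam A x)
  refine ⟨h, hc, h1, fun p hp => (h2 p hp).trans (le_of_eq ?_), h4, h5.trans (le_of_eq ?_)⟩
  · have hp0 : (p : ℝ) ≠ 0 := by
      have : (0 : ℝ) < p := by exact_mod_cast hp
      exact this.ne'
    push_cast
    field_simp
    ring
  · push_cast
    field_simp
    ring

theorem size (hN : S_NT) (E : ℕ) : ∃ L : ℕ, ∀ lam : ℕ, L ≤ lam → ∀ k N : ℕ,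
    k ^ 2 + N ^ 2 = lam → k ≤ N → E * (P lam).card ^ 2 ≤ N := by
  obtain ⟨K, hK⟩ := hN 5
  refine ⟨K ^ 4 * (2 * E ^ 2) ^ 5 + 1, fun lam hlam k N hkN hk => ?_⟩
  have h1 := hK lam (by omega)
  set r := (P lam).card
  have h2 : (r ^ 4 * (2 * E ^ 2)) ^ 5 ≤ lam ^ 5 := by
    calc (r ^ 4 * (2 * E ^ 2)) ^ 5 = (r ^ 5) ^ 4 * (2 * E ^ 2) ^ 5 := by ring
      _ ≤ (K * lam) ^ 4 * (2 * E ^ 2) ^ 5 :=
          Nat.mul_le_mul_right _ (Nat.pow_le_pow_left h1 4)
      _ = (K ^ 4 * (2 * E ^ 2) ^ 5) * lam ^ 4 := by ring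
      _ ≤ lam * lam ^ 4 := Nat.mul_le_mul_right _ (by omega)
      _ = lam ^ 5 := by ring
  have h3 : r ^ 4 * (2 * E ^ 2) ≤ lam := (Nat.pow_le_pow_iff_left (by norm_num)).1 h2
  have h4 : lam ≤ 2 * N ^ 2 := by
    have := Nat.pow_le_pow_left hk 2
    omega
  have h5 : (E * r ^ 2) ^ 2 ≤ N ^ 2 := by nlinarith
  exact (Nat.pow_le_pow_iff_left two_ne_zero).1 h5

theorem int_abs_F_nonneg (lam : ℕ) (A : ℕ → ℝ) : 0 ≤ ∫ x in (0 : ℝ)..π, |F1 lam A x| :=
  intervalIntegral.integral_nonneg pi_pos.le fun _ _ => abs_nonneg _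

end STAR

open STAR in
theorem t_STAR (hN : S_NT) (hP : S_PART) (hH : S_H) : S_STAR := by
  intro M
  obtain ⟨L, hL⟩ := size hN (320000 * (M + 1) ^ 2)
  refine ⟨L, fun lam hlam A k N hkN hk hmin hM => ?_⟩
  have hkP : k ∈ P lam := mem_P hkN
  have hr : 0 < (P lam).card := Finset.card_pos.2 ⟨k, hkP⟩
  obtain ⟨h, hc, h1, h2, h3, h4⟩ := setup hP hH M lam A hr hM
  have hsize := hL lam hlam k N hkN hk
  set r := (P lam).card with hrdef
  set I := ∫ x in (0 : ℝ)..π, |F1 lam A x| with hI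
  have hI0 : 0 ≤ I := int_abs_F_nonneg lam A
  have hr' : (1 : ℝ) ≤ r := by exact_mod_cast hr
  have hsizeR : 320000 * ((M : ℝ) + 1) ^ 2 * r ^ 2 ≤ N := by exact_mod_cast hsize
  have hN0 : (0 : ℝ) < N := lt_of_lt_of_le (by positivity) hsizeR
  have hN1 : 1 ≤ N := by exact_mod_cast (Nat.one_le_iff_ne_zero.2 (by
    intro h0
    rw [h0] at hN0
    simp at hN0))
  have hsplit : I = (∫ x in (0 : ℝ)..π, (|F1 lam A x| - h x * F1 lam A x)) +
      ∫ x in (0 : ℝ)..π, h x * F1 lam A x := by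
    rw [← intervalIntegral.integral_add]
    · rw [hI]
      congr 1
      funext x
      ring
    · exact Continuous.intervalIntegrable
        (((cont_F lam A).abs).sub (hc.mul (cont_F lam A))) _ _
    · exact Continuous.intervalIntegrable (hc.mul (cont_F lam A)) _ _
  have hsum : ∫ x in (0 : ℝ)..π, h x * F1 lam A x ≤
      |A k| * (∫ x in (0 : ℝ)..π, |cos (k * x)|) + I / 100 := by
    rw [int_F_mul lam A h hc, ← Finset.add_sum_erase _ _ hkP]
    refine add_le_add ?_ ?_
    · refine (le_abs_self _).trans ?_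
      rw [abs_mul]
      exact mul_le_mul_of_nonneg_left
        (abs_int_le h (fun x => cos (k * x)) hc (by fun_prop) h1) (abs_nonneg _)
    · have hterm : ∀ p ∈ (P lam).erase k, A p * (∫ x in (0 : ℝ)..π, h x * cos (p * x)) ≤
          I * (800 * (M + 1) ^ 2 * r / N) := by
        intro p hp
        obtain ⟨hpk, hpP⟩ := Finset.mem_erase.1 hp
        obtain ⟨_, q, hq⟩ := mem_P_iff.1 hpP
        have hkp : k < p := lt_of_le_of_ne (hmin p hpP) (Ne.symm hpk)
        have hpN : N ≤ p ^ 2 := by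
          have hqN : q < N := by
            by_contra hcon
            push Not at hcon
            have h5 := Nat.pow_le_pow_left hcon 2
            have h6 := Nat.pow_lt_pow_left hkp two_ne_zero
            omega
          have h7 : q ^ 2 ≤ (N - 1) ^ 2 := Nat.pow_le_pow_left (by omega) 2
          obtain ⟨N', rfl⟩ : ∃ N', N = N' + 1 := ⟨N - 1, by omega⟩
          have h8 : (N' + 1 - 1) ^ 2 = N' ^ 2 := by simp
          rw [h8] at h7
          nlinarith
        have hpR : (N : ℝ) ≤ (p : ℝ) ^ 2 := by exact_mod_cast hpN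
        refine (le_abs_self _).trans ?_
        rw [abs_mul]
        refine mul_le_mul (coef_le' lam A p hpP) ((h2 p (by omega)).trans ?_) (abs_nonneg _) hI0
        gcongr
      refine (Finset.sum_le_card_nsmul _ _ _ hterm).trans ?_
      rw [nsmul_eq_mul]
      have hcard : (((P lam).erase k).card : ℝ) ≤ r := by
        exact_mod_cast Finset.card_le_card (Finset.erase_subset _ _)
      calc (((P lam).erase k).card : ℝ) * (I * (800 * (M + 1) ^ 2 * r / N))
          ≤ r * (I * (800 * (M + 1) ^ 2 * r / N)) := by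
            apply mul_le_mul_of_nonneg_right hcard
            positivity
        _ = I * (800 * ((M : ℝ) + 1) ^ 2 * r ^ 2 / N) := by ring
        _ ≤ I * (1 / 100) := by
            apply mul_le_mul_of_nonneg_left _ hI0
            rw [div_le_div_iff₀ hN0 (by norm_num)]
            nlinarith [hsizeR]
        _ = I / 100 := by ring
  have hfin : 98 / 100 * I ≤ |A k| * ∫ x in (0 : ℝ)..π, |cos (k * x)| := by linarith
  have : I = 100 / 98 * (98 / 100 * I) := by ring
  rw [this, mul_assoc]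
  exact mul_le_mul_of_nonneg_left hfin (by norm_num)

open STAR in
theorem t_TWO (hN : S_NT) (hP : S_PART) (hH : S_H) : S_TWO := by
  intro M
  obtain ⟨L, hL⟩ := size hN (320000 * (M + 1) ^ 2)
  refine ⟨L, fun lam hlam A k N hkN hk hM => ?_⟩
  have hkP : k ∈ P lam := mem_P hkN
  have hNP : N ∈ P lam := mem_P (q := k) (by rw [← hkN]; ring)
  have hr : 0 < (P lam).card := Finset.card_pos.2 ⟨k, hkP⟩
  obtain ⟨h, hc, h1, h2, h3, h4⟩ := setup hP hH M lam A hr hM
  have hsize := hL lam hlam k N hkN hk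
  set r := (P lam).card with hrdef
  set I := ∫ x in (0 : ℝ)..π, |F1 lam A x| with hI
  have hI0 : 0 ≤ I := int_abs_F_nonneg lam A
  have hr' : (1 : ℝ) ≤ r := by exact_mod_cast hr
  have hsizeR : 320000 * ((M : ℝ) + 1) ^ 2 * r ^ 2 ≤ N := by exact_mod_cast hsize
  have hN0 : (0 : ℝ) < N := lt_of_lt_of_le (by positivity) hsizeR
  have hN1 : 1 ≤ N := by exact_mod_cast (Nat.one_le_iff_ne_zero.2 (by
    intro h0
    rw [h0] at hN0
    simp at hN0))
  have hN1R : (1 : ℝ) ≤ N := by exact_mod_cast hN1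
  have hFc := cont_F lam A
  -- the L1 bound with the cosine weight
  have hw : π / 2 * |A N| ≤ ∫ x in (0 : ℝ)..π, |F1 lam A x| * ((1 + cos (2 * (N * x)) / 2) / √2) := by
    refine (coef_le lam A N hNP).trans
      ((intervalIntegral.abs_integral_le_integral_abs pi_pos.le).trans ?_)
    refine intervalIntegral.integral_mono_on pi_pos.le
      (Continuous.intervalIntegrable (by fun_prop) _ _)
      (Continuous.intervalIntegrable (by fun_prop) _ _) fun x _ => ?_
    rw [abs_mul, mul_comm]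
    refine mul_le_mul_of_nonneg_left ?_ (abs_nonneg _)
    have hs2 : (0 : ℝ) < √2 := by positivity
    rw [le_div_iff₀ hs2, cos_two_mul]
    have h5 : √2 * √2 = 2 := Real.mul_self_sqrt (by norm_num)
    have h6 := sq_abs (cos (N * x))
    nlinarith [sq_nonneg (√2 * |cos (N * x)| - 1)]
  have hw2 : ∫ x in (0 : ℝ)..π, |F1 lam A x| * ((1 + cos (2 * (N * x)) / 2) / √2) =
      (I + (∫ x in (0 : ℝ)..π, |F1 lam A x| * cos (2 * (N * x))) / 2) / √2 := by
    have e : ∀ x : ℝ, |F1 lam A x| * ((1 + cos (2 * (N * x)) / 2) / √2) =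
        (|F1 lam A x| + |F1 lam A x| * cos (2 * (N * x)) / 2) / √2 := by
      intro x
      ring
    simp only [e]
    rw [intervalIntegral.integral_div, intervalIntegral.integral_add
      (Continuous.intervalIntegrable (by fun_prop) _ _)
      (Continuous.intervalIntegrable (by fun_prop) _ _), intervalIntegral.integral_div]
  have hw3 : ∫ x in (0 : ℝ)..π, |F1 lam A x| * cos (2 * (N * x)) =
      (∫ x in (0 : ℝ)..π, (|F1 lam A x| - h x * F1 lam A x) * cos (2 * (N * x))) +
      ∫ x in (0 : ℝ)..π, (h x * cos (2 * (N * x))) * F1 lam A x := by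
    rw [← intervalIntegral.integral_add]
    · congr 1
      funext x
      ring
    · exact Continuous.intervalIntegrable (by fun_prop) _ _
    · exact Continuous.intervalIntegrable (by fun_prop) _ _
  have hw4 : ∫ x in (0 : ℝ)..π, (|F1 lam A x| - h x * F1 lam A x) * cos (2 * (N * x)) ≤
      I / 100 := by
    refine le_trans ?_ h4
    refine intervalIntegral.integral_mono_on pi_pos.le
      (Continuous.intervalIntegrable (by fun_prop) _ _)
      (Continuous.intervalIntegrable (by fun_prop) _ _) fun x hx => ?_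
    exact mul_le_of_le_one_right (h3 x hx) (cos_le_one _)
  have hw5 : ∫ x in (0 : ℝ)..π, (h x * cos (2 * (N * x))) * F1 lam A x ≤ I / 100 := by
    rw [int_F_mul lam A (fun x => h x * cos (2 * (N * x))) (by fun_prop)]
    have hterm : ∀ p ∈ P lam, A p *
        (∫ x in (0 : ℝ)..π, (h x * cos (2 * (N * x))) * cos (p * x)) ≤
        I * (3200 * (M + 1) ^ 2 * r / N) := by
      intro p hpP
      obtain ⟨_, q, hq⟩ := mem_P_iff.1 hpP
      have hp2 : 2 * p ≤ 3 * N := by
        have h5 : p ^ 2 ≤ 2 * N ^ 2 := by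
          have := Nat.pow_le_pow_left hk 2
          omega
        by_contra hcon
        push Not at hcon
        nlinarith
      have e : ∀ x : ℝ, (h x * cos (2 * (N * x))) * cos (p * x) =
          (h x * cos (((2 * N - p : ℕ) : ℝ) * x) + h x * cos (((2 * N + p : ℕ) : ℝ) * x)) / 2 := by
        intro x
        rw [Nat.cast_sub (by omega), Nat.cast_add]
        push_cast
        rw [sub_mul, add_mul, cos_sub, cos_add, mul_assoc 2 (N : ℝ) x]
        ring
      have e2 : ∫ x in (0 : ℝ)..π, (h x * cos (2 * (N * x))) * cos (p * x) =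
          ((∫ x in (0 : ℝ)..π, h x * cos (((2 * N - p : ℕ) : ℝ) * x)) +
            ∫ x in (0 : ℝ)..π, h x * cos (((2 * N + p : ℕ) : ℝ) * x)) / 2 := by
        simp only [e]
        rw [intervalIntegral.integral_div, intervalIntegral.integral_add
          (Continuous.intervalIntegrable (by fun_prop) _ _)
          (Continuous.intervalIntegrable (by fun_prop) _ _)]
      have hb : ∀ n : ℕ, N ≤ 2 * n → |∫ x in (0 : ℝ)..π, h x * cos ((n : ℝ) * x)| ≤
          3200 * (M + 1) ^ 2 * r / N := by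
        intro n hn
        refine (h2 n (by omega)).trans ?_
        have hnR : (N : ℝ) ≤ 2 * n := by exact_mod_cast hn
        have hn0 : (0 : ℝ) < n := by linarith
        have h5 : (N : ℝ) ≤ 4 * (n : ℝ) ^ 2 := by nlinarith
        rw [div_le_div_iff₀ (by positivity) hN0]
        have h6 : (0 : ℝ) ≤ 800 * (M + 1) ^ 2 * r := by positivity
        nlinarith
      refine (le_abs_self _).trans ?_
      rw [abs_mul]
      refine mul_le_mul (coef_le' lam A p hpP) ?_ (abs_nonneg _) hI0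
      rw [e2, abs_div, abs_of_pos (by norm_num : (0 : ℝ) < 2)]
      have g1 := hb (2 * N - p) (by omega)
      have g2 := hb (2 * N + p) (by omega)
      have g3 := abs_add_le (∫ x in (0 : ℝ)..π, h x * cos (((2 * N - p : ℕ) : ℝ) * x))
        (∫ x in (0 : ℝ)..π, h x * cos (((2 * N + p : ℕ) : ℝ) * x))
      linarith
    refine (Finset.sum_le_card_nsmul _ _ _ hterm).trans ?_
    rw [nsmul_eq_mul]
    calc (r : ℝ) * (I * (3200 * (M + 1) ^ 2 * r / N))
        = I * (3200 * ((M : ℝ) + 1) ^ 2 * r ^ 2 / N) := by ring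
      _ ≤ I * (1 / 100) := by
          apply mul_le_mul_of_nonneg_left _ hI0
          rw [div_le_div_iff₀ hN0 (by norm_num)]
          nlinarith [hsizeR]
      _ = I / 100 := by ring
  rw [hw2] at hw
  refine hw.trans ?_
  have hs2 : (0 : ℝ) < √2 := by positivity
  rw [div_mul_eq_mul_div]
  gcongr
  linarith

end Pool.Agent.R292.ND
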