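import Pool.Agent.R292.ND.Stm

set_option autoImplicit false

open Set Real

namespace Pool.Agent.R292.ND

namespace SUP

theorem mem_P_iff {lam p : ℕ} : p ∈ P lam ↔ p ∈ Finset.range (lam + 1) ∧
    ∃ q : ℕ, p ^ 2 + q ^ 2 = lam := by
  classical
  unfold P
  exact Finset.mem_filter

theorem mem_P_le {N p : ℕ} (h : p ∈ P (N ^ 2)) : p ≤ N := by
  obtain ⟨_, q, hq⟩ := mem_P_iff.1 h
  have h1 : p ^ 2 ≤ N ^ 2 := by
    rw [← hq]
    exact Nat.le_add_right _ _
  exact (Nat.pow_le_pow_iff_left two_ne_zero).1 h1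

theorem zero_mem (N : ℕ) : 0 ∈ P (N ^ 2) := by
  rw [mem_P_iff]
  exact ⟨Finset.mem_range.2 (Nat.succ_pos _), N, by simp⟩

theorem N_mem (N : ℕ) : N ∈ P (N ^ 2) := by
  rw [mem_P_iff]
  refine ⟨Finset.mem_range.2 (Nat.lt_succ_of_le ?_), 0, by simp⟩
  exact Nat.le_self_pow two_ne_zero N

/-- coefficients extended by zero -/
noncomputable def Ap (N : ℕ) (A : ℕ → ℝ) (p : ℕ) : ℝ := if p ∈ P (N ^ 2) then A p else 0

theorem F1_eq (N : ℕ) (A : ℕ → ℝ) (x : ℝ) :
    F1 (N ^ 2) A x = ∑ p ∈ Finset.range (N + 1), Ap N A p * cos (p * x) := by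
  unfold F1 Ap
  have hsub : P (N ^ 2) ⊆ Finset.range (N + 1) := fun p hp =>
    Finset.mem_range.2 (Nat.lt_succ_of_le (mem_P_le hp))
  rw [← Finset.sum_subset hsub]
  · refine Finset.sum_congr rfl fun p hp => ?_
    rw [if_pos hp]
  · intro p _ hp
    rw [if_neg hp, zero_mul]

theorem G1_eq (N : ℕ) (A : ℕ → ℝ) (x : ℝ) :
    G1 (N ^ 2) A x = ∑ p ∈ Finset.range (N + 1), Ap N A p * sin (p * x) := by
  unfold G1 Ap
  have hsub : P (N ^ 2) ⊆ Finset.range (N + 1) := fun p hp =>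
    Finset.mem_range.2 (Nat.lt_succ_of_le (mem_P_le hp))
  rw [← Finset.sum_subset hsub]
  · refine Finset.sum_congr rfl fun p hp => ?_
    rw [if_pos hp]
  · intro p _ hp
    rw [if_neg hp, zero_mul]

theorem N_gx (N σ j : ℕ) (hN : 1 ≤ N) : (N : ℝ) * gx N σ j = σ * π + (j : ℕ) * (2 * π) := by
  have : (N : ℝ) ≠ 0 := by
    have : (0 : ℝ) < N := by exact_mod_cast hN
    exact this.ne'
  unfold gx
  field_simp
  ring

theorem cosN (N σ j : ℕ) (hN : 1 ≤ N) (hσ : σ ≤ 1) : cos (N * gx N σ j) = (-1) ^ σ := by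
  rw [N_gx N σ j hN, cos_add_nat_mul_two_pi]
  interval_cases σ <;> simp

theorem sinN (N σ j : ℕ) (hN : 1 ≤ N) (hσ : σ ≤ 1) : sin (N * gx N σ j) = 0 := by
  rw [N_gx N σ j hN, sin_add_nat_mul_two_pi]
  interval_cases σ <;> simp

theorem cosNp (N σ j p : ℕ) (hN : 1 ≤ N) (hσ : σ ≤ 1) (hp : p ≤ N) :
    cos ((N - p : ℕ) * gx N σ j) = (-1) ^ σ * cos (p * gx N σ j) := by
  rw [Nat.cast_sub hp, sub_mul, cos_sub, cosN N σ j hN hσ, sinN N σ j hN hσ]
  ring

theorem sinNp (N σ j p : ℕ) (hN : 1 ≤ N) (hσ : σ ≤ 1) (hp : p ≤ N) :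
    sin ((N - p : ℕ) * gx N σ j) = -((-1) ^ σ * sin (p * gx N σ j)) := by
  rw [Nat.cast_sub hp, sub_mul, sin_sub, cosN N σ j hN hσ, sinN N σ j hN hσ]
  ring

/-- symmetrised coefficients -/
noncomputable def Cf (N : ℕ) (η : ℝ) (A : ℕ → ℝ) (p : ℕ) : ℝ := Ap N A p + η * Ap N A (N - p)

theorem F_two (N σ j : ℕ) (hN : 1 ≤ N) (hσ : σ ≤ 1) (A : ℕ → ℝ) :
    2 * F1 (N ^ 2) A (gx N σ j) =
      ∑ p ∈ Finset.range (N + 1), Cf N ((-1) ^ σ) A p * cos (p * gx N σ j) := by
  have h1 := F1_eq N A (gx N σ j)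
  have h2 : F1 (N ^ 2) A (gx N σ j) =
      ∑ p ∈ Finset.range (N + 1), (-1) ^ σ * Ap N A (N - p) * cos (p * gx N σ j) := by
    rw [h1, ← Finset.sum_flip]
    refine Finset.sum_congr rfl fun p hp => ?_
    rw [cosNp N σ j p hN hσ (Nat.le_of_lt_succ (Finset.mem_range.1 hp))]
    ring
  rw [two_mul]
  nth_rewrite 1 [h1]
  rw [h2, ← Finset.sum_add_distrib]
  refine Finset.sum_congr rfl fun p _ => ?_
  unfold Cf
  ring

theorem G_two (N σ j : ℕ) (hN : 1 ≤ N) (hσ : σ ≤ 1) (A : ℕ → ℝ) :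
    2 * G1 (N ^ 2) A (gx N σ j) =
      ∑ p ∈ Finset.range (N + 1), Cf N (-(-1) ^ σ) A p * sin (p * gx N σ j) := by
  have h1 := G1_eq N A (gx N σ j)
  have h2 : G1 (N ^ 2) A (gx N σ j) =
      ∑ p ∈ Finset.range (N + 1), -(-1) ^ σ * Ap N A (N - p) * sin (p * gx N σ j) := by
    rw [h1, ← Finset.sum_flip]
    refine Finset.sum_congr rfl fun p hp => ?_
    rw [sinNp N σ j p hN hσ (Nat.le_of_lt_succ (Finset.mem_range.1 hp))]
    ring
  rw [two_mul]
  nth_rewrite 1 [h1]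
  rw [h2, ← Finset.sum_add_distrib]
  refine Finset.sum_congr rfl fun p _ => ?_
  unfold Cf
  ring

theorem pick (N p : ℕ) (hp : p ≤ N) (A : ℕ → ℝ) (η : ℝ) :
    ∑ q ∈ Finset.range (N + 1), Ap N A q *
      ((if q = p then 1 else 0) + η * (if q + p = N then 1 else 0)) = Cf N η A p := by
  have e : ∀ q ∈ Finset.range (N + 1), Ap N A q *
      ((if q = p then 1 else 0) + η * (if q + p = N then 1 else 0)) =
      (if q = p then Ap N A q else 0) + (if q = N - p then η * Ap N A q else 0) := by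
    intro q _
    by_cases h1 : q = p
    · by_cases h2 : q + p = N
      · have h3 : q = N - p := by omega
        rw [if_pos h1, if_pos h2, if_pos h1, if_pos h3]
        ring
      · have h3 : q ≠ N - p := by omega
        rw [if_pos h1, if_neg h2, if_pos h1, if_neg h3]
        ring
    · by_cases h2 : q + p = N
      · have h3 : q = N - p := by omega
        rw [if_neg h1, if_pos h2, if_neg h1, if_pos h3]
        ring
      · have h3 : q ≠ N - p := by omega
        rw [if_neg h1, if_neg h2, if_neg h1, if_neg h3]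
        ring
  rw [Finset.sum_congr rfl e, Finset.sum_add_distrib, Finset.sum_ite_eq', Finset.sum_ite_eq',
    if_pos (Finset.mem_range.2 (by omega)), if_pos (Finset.mem_range.2 (by omega))]
  rfl

theorem F_cos (h : S_ORTH) (N σ : ℕ) (hN : 1 ≤ N) (hσ : σ ≤ 1) (A : ℕ → ℝ) (p : ℕ) (hp0 : 0 < p)
    (hpN : p < N) : ∑ j ∈ Finset.range N, F1 (N ^ 2) A (gx N σ j) * cos (p * gx N σ j) =
      N / 2 * Cf N ((-1) ^ σ) A p := by
  have e1 : ∀ j ∈ Finset.range N, F1 (N ^ 2) A (gx N σ j) * cos (p * gx N σ j) =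
      ∑ q ∈ Finset.range (N + 1), Ap N A q * (cos (q * gx N σ j) * cos (p * gx N σ j)) := by
    intro j _
    rw [F1_eq, Finset.sum_mul]
    exact Finset.sum_congr rfl fun q _ => by ring
  rw [Finset.sum_congr rfl e1, Finset.sum_comm, ← pick N p hpN.le A ((-1) ^ σ), Finset.mul_sum]
  refine Finset.sum_congr rfl fun q hq => ?_
  rw [← Finset.mul_sum, (h N σ hN hσ).2.1 p q hp0 hpN (Nat.le_of_lt_succ (Finset.mem_range.1 hq))]
  ring

theorem G_sin (h : S_ORTH) (N σ : ℕ) (hN : 1 ≤ N) (hσ : σ ≤ 1) (A : ℕ → ℝ) (p : ℕ) (hp0 : 0 < p)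
    (hpN : p < N) : ∑ j ∈ Finset.range N, G1 (N ^ 2) A (gx N σ j) * sin (p * gx N σ j) =
      N / 2 * Cf N (-(-1) ^ σ) A p := by
  have e1 : ∀ j ∈ Finset.range N, G1 (N ^ 2) A (gx N σ j) * sin (p * gx N σ j) =
      ∑ q ∈ Finset.range (N + 1), Ap N A q * (sin (q * gx N σ j) * sin (p * gx N σ j)) := by
    intro j _
    rw [G1_eq, Finset.sum_mul]
    exact Finset.sum_congr rfl fun q _ => by ring
  rw [Finset.sum_congr rfl e1, Finset.sum_comm, ← pick N p hpN.le A (-(-1) ^ σ), Finset.mul_sum]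
  refine Finset.sum_congr rfl fun q hq => ?_
  rw [← Finset.mul_sum, (h N σ hN hσ).2.2 p q hp0 hpN (Nat.le_of_lt_succ (Finset.mem_range.1 hq))]
  ring

theorem F_sum (h : S_ORTH) (N σ : ℕ) (hN : 1 ≤ N) (hσ : σ ≤ 1) (A : ℕ → ℝ) :
    ∑ j ∈ Finset.range N, F1 (N ^ 2) A (gx N σ j) = N * Cf N ((-1) ^ σ) A 0 := by
  simp only [F1_eq]
  rw [Finset.sum_comm, ← pick N 0 (Nat.zero_le _) A ((-1) ^ σ), Finset.mul_sum]
  refine Finset.sum_congr rfl fun q hq => ?_
  rw [← Finset.mul_sum, (h N σ hN hσ).1 q (Nat.le_of_lt_succ (Finset.mem_range.1 hq)), add_zero]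
  ring

/-- a sum over at most `2 r` nonzero terms -/
theorem sparse (N : ℕ) (η : ℝ) (A : ℕ → ℝ) (c : ℕ → ℝ) (B : ℝ)
    (hc : ∀ p ∈ Finset.range (N + 1), |Cf N η A p * c p| ≤ B) (hB : 0 ≤ B) :
    |∑ p ∈ Finset.range (N + 1), Cf N η A p * c p| ≤ 2 * (P (N ^ 2)).card * B := by
  classical
  set T := P (N ^ 2) ∪ (P (N ^ 2)).image (fun p => N - p) with hT
  have hTs : T ⊆ Finset.range (N + 1) := by
    intro p hp
    rw [Finset.mem_range]
    rcases Finset.mem_union.1 hp with h | h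
    · exact Nat.lt_succ_of_le (mem_P_le h)
    · obtain ⟨q, _, rfl⟩ := Finset.mem_image.1 h
      omega
  have hTc : (T.card : ℝ) ≤ 2 * (P (N ^ 2)).card := by
    have h1 : T.card ≤ (P (N ^ 2)).card + (P (N ^ 2)).card :=
      (Finset.card_union_le _ _).trans (Nat.add_le_add_left Finset.card_image_le _)
    have h2 : (T.card : ℝ) ≤ ((P (N ^ 2)).card + (P (N ^ 2)).card : ℕ) := by exact_mod_cast h1
    push_cast at h2
    linarith
  have hsum : ∑ p ∈ Finset.range (N + 1), Cf N η A p * c p = ∑ p ∈ T, Cf N η A p * c p := by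
    symm
    refine Finset.sum_subset hTs fun p hp hpT => ?_
    have h1 : p ∉ P (N ^ 2) := fun h => hpT (Finset.mem_union_left _ h)
    have h2 : N - p ∉ P (N ^ 2) := by
      intro h
      apply hpT
      refine Finset.mem_union_right _ (Finset.mem_image.2 ⟨N - p, h, ?_⟩)
      have := Finset.mem_range.1 hp
      show N - (N - p) = p
      omega
    unfold Cf Ap
    rw [if_neg h1, if_neg h2]
    ring
  rw [hsum]
  calc |∑ p ∈ T, Cf N η A p * c p| ≤ ∑ p ∈ T, |Cf N η A p * c p| :=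
        Finset.abs_sum_le_sum_abs _ _
    _ ≤ ∑ _p ∈ T, B := Finset.sum_le_sum fun p hp => hc p (hTs hp)
    _ = T.card * B := by rw [Finset.sum_const, nsmul_eq_mul]
    _ ≤ 2 * (P (N ^ 2)).card * B := mul_le_mul_of_nonneg_right hTc hB

theorem abs_sum_mul_le (N : ℕ) (f c : ℕ → ℝ) (hc : ∀ j, |c j| ≤ 1) :
    |∑ j ∈ Finset.range N, f j * c j| ≤ ∑ j ∈ Finset.range N, |f j| := by
  refine (Finset.abs_sum_le_sum_abs _ _).trans (Finset.sum_le_sum fun j _ => ?_)
  rw [abs_mul]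
  exact mul_le_of_le_one_right (abs_nonneg _) (hc j)

end SUP

open SUP

theorem t_SUP (h : S_ORTH) : S_SUP := by
  intro N σ hN hσ A
  have hN0 : (0 : ℝ) < N := by exact_mod_cast hN
  have hη : ((-1 : ℝ) ^ σ) * (-1) ^ σ = 1 := by
    rw [← mul_pow]
    norm_num
  have hηa : |(-1 : ℝ) ^ σ| = 1 := by
    rw [abs_pow]
    simp
  refine ⟨?_, ?_, ?_, ?_⟩
  · intro i _
    set S := ∑ j ∈ Finset.range N, |F1 (N ^ 2) A (gx N σ j)| with hS
    have hS0 : 0 ≤ S := Finset.sum_nonneg fun _ _ => abs_nonneg _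
    have hC0 : |Cf N ((-1) ^ σ) A 0| ≤ 2 / N * S := by
      have h1 : N * |Cf N ((-1) ^ σ) A 0| ≤ S := by
        have e0 : N * |Cf N ((-1) ^ σ) A 0| = |N * Cf N ((-1) ^ σ) A 0| := by
          rw [abs_mul, abs_of_pos hN0]
        rw [e0, ← F_sum h N σ hN hσ A]
        exact Finset.abs_sum_le_sum_abs _ _
      rw [div_mul_eq_mul_div, le_div_iff₀ hN0]
      nlinarith
    have hCN : |Cf N ((-1) ^ σ) A N| ≤ 2 / N * S := by
      have e : Cf N ((-1) ^ σ) A N = (-1) ^ σ * Cf N ((-1) ^ σ) A 0 := by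
        unfold Cf
        rw [Nat.sub_self, Nat.sub_zero, mul_add, ← mul_assoc, hη]
        ring
      rw [e, abs_mul, hηa, one_mul]
      exact hC0
    have hC : ∀ p ∈ Finset.range (N + 1), |Cf N ((-1) ^ σ) A p * cos (p * gx N σ i)| ≤
        2 / N * S := by
      intro p hp
      rw [abs_mul]
      refine (mul_le_of_le_one_right (abs_nonneg _) (abs_cos_le_one _)).trans ?_
      have hp' := Finset.mem_range.1 hp
      rcases Nat.eq_zero_or_pos p with rfl | hp0
      · exact hC0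
      rcases (Nat.le_of_lt_succ hp').eq_or_lt with rfl | hpN
      · exact hCN
      · have h1 : |(N : ℝ) / 2 * Cf N ((-1) ^ σ) A p| ≤ S := by
          rw [← F_cos h N σ hN hσ A p hp0 hpN]
          exact abs_sum_mul_le N _ _ fun j => abs_cos_le_one _
        rw [abs_mul, abs_of_pos (by positivity)] at h1
        rw [div_mul_eq_mul_div, le_div_iff₀ hN0]
        linarith
    have h2 := sparse N ((-1) ^ σ) A (fun p => cos (p * gx N σ i)) (2 / N * S) hC (by positivity)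
    rw [← F_two N σ i hN hσ A, abs_mul, abs_of_pos (by norm_num : (0 : ℝ) < 2)] at h2
    have h3 : N * (2 * |F1 (N ^ 2) A (gx N σ i)|) ≤ N * (2 * (P (N ^ 2)).card * (2 / N * S)) :=
      mul_le_mul_of_nonneg_left h2 hN0.le
    have h4 : (N : ℝ) * (2 * (P (N ^ 2)).card * (2 / N * S)) = 2 * (2 * (P (N ^ 2)).card * S) := by
      field_simp
    linarith
  · intro i _
    set S := ∑ j ∈ Finset.range N, |G1 (N ^ 2) A (gx N σ j)| with hS
    have hS0 : 0 ≤ S := Finset.sum_nonneg fun _ _ => abs_nonneg _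
    have hC : ∀ p ∈ Finset.range (N + 1), |Cf N (-(-1) ^ σ) A p * sin (p * gx N σ i)| ≤
        2 / N * S := by
      intro p hp
      have hp' := Finset.mem_range.1 hp
      rcases Nat.eq_zero_or_pos p with rfl | hp0
      · simp
        positivity
      rcases (Nat.le_of_lt_succ hp').eq_or_lt with rfl | hpN
      · rw [sinN p σ i hN hσ]
        simp
        positivity
      · rw [abs_mul]
        refine (mul_le_of_le_one_right (abs_nonneg _) (abs_sin_le_one _)).trans ?_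
        have h1 : |(N : ℝ) / 2 * Cf N (-(-1) ^ σ) A p| ≤ S := by
          rw [← G_sin h N σ hN hσ A p hp0 hpN]
          exact abs_sum_mul_le N _ _ fun j => abs_sin_le_one _
        rw [abs_mul, abs_of_pos (by positivity)] at h1
        rw [div_mul_eq_mul_div, le_div_iff₀ hN0]
        linarith
    have h2 := sparse N (-(-1) ^ σ) A (fun p => sin (p * gx N σ i)) (2 / N * S) hC (by positivity)
    rw [← G_two N σ i hN hσ A, abs_mul, abs_of_pos (by norm_num : (0 : ℝ) < 2)] at h2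
    have h3 : N * (2 * |G1 (N ^ 2) A (gx N σ i)|) ≤ N * (2 * (P (N ^ 2)).card * (2 / N * S)) :=
      mul_le_mul_of_nonneg_left h2 hN0.le
    have h4 : (N : ℝ) * (2 * (P (N ^ 2)).card * (2 / N * S)) = 2 * (2 * (P (N ^ 2)).card * S) := by
      field_simp
    linarith
  · intro hF hG p hp hp0 hpN
    have hpN' : p < N := lt_of_le_of_ne (mem_P_le hp) hpN
    have hp0' : 0 < p := Nat.pos_of_ne_zero hp0
    have h1 := F_cos h N σ hN hσ A p hp0' hpN'
    have h2 := G_sin h N σ hN hσ (fun p => p * A p) p hp0' hpN'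
    rw [Finset.sum_eq_zero fun j hj => by rw [hF j (Finset.mem_range.1 hj), zero_mul]] at h1
    rw [Finset.sum_eq_zero fun j hj => by rw [hG j (Finset.mem_range.1 hj), zero_mul]] at h2
    have hN2 : (N : ℝ) / 2 ≠ 0 := by positivity
    have h1' := (mul_eq_zero.1 h1.symm).resolve_left hN2
    have h2' := (mul_eq_zero.1 h2.symm).resolve_left hN2
    have e1 : Ap N (fun p => (p : ℝ) * A p) p = p * Ap N A p := by
      unfold Ap
      split_ifs <;> simp
    have e2 : Ap N (fun p => (p : ℝ) * A p) (N - p) = (N - p : ℝ) * Ap N A (N - p) := by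
      unfold Ap
      split_ifs
      · show ((N - p : ℕ) : ℝ) * A (N - p) = _
        rw [Nat.cast_sub hpN'.le]
      · simp
    unfold Cf at h1' h2'
    rw [e1, e2] at h2'
    have e3 : (N : ℝ) * Ap N A p = 0 := by
      have : (N : ℝ) * Ap N A p = (p * Ap N A p + -(-1) ^ σ * ((N - p : ℝ) * Ap N A (N - p))) +
        (N - p : ℝ) * (Ap N A p + (-1) ^ σ * Ap N A (N - p)) := by ring
      rw [this, h1', h2']
      ring
    have e4 := (mul_eq_zero.1 e3).resolve_left hN0.ne'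
    unfold Ap at e4
    rwa [if_pos hp] at e4
  · rw [F_sum h N σ hN hσ A]
    unfold Cf Ap
    rw [Nat.sub_zero, if_pos (zero_mem N), if_pos (N_mem N)]

end Pool.Agent.R292.ND
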