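import Pool.Agent.R292.ND.Stm

/-! Project ND, piece ND-SWAP. -/

open Set Real

namespace Pool.Agent.R292.ND

namespace SWAP

/-- homeomorphic spaces have equinumerous sets of connected components -/
def ccEquiv {α β : Type*} [TopologicalSpace α] [TopologicalSpace β] (e : α ≃ₜ β) :
    ConnectedComponents α ≃ ConnectedComponents β where
  toFun := e.continuous.connectedComponentsMap
  invFun := e.symm.continuous.connectedComponentsMap
  left_inv x := by
    obtain ⟨x, rfl⟩ := ConnectedComponents.surjective_coe x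
    show ((e.symm (e x) : α) : ConnectedComponents α) = x
    rw [e.symm_apply_apply]
  right_inv x := by
    obtain ⟨x, rfl⟩ := ConnectedComponents.surjective_coe x
    show ((e (e.symm x) : β) : ConnectedComponents β) = x
    rw [e.apply_symm_apply]

lemma mem_Om_swap (z : ℝ × ℝ) : z.swap ∈ Om ↔ z ∈ Om := by
  unfold Om
  rw [mem_prod, mem_prod]
  exact and_comm

lemma nodalSet_swap (u : ℝ × ℝ → ℝ) (z : ℝ × ℝ) :
    z.swap ∈ nodalSet u ↔ z ∈ nodalSet (fun z => u (z.2, z.1)) := by
  have h : {z : ℝ × ℝ | z ∈ Om ∧ u (z.2, z.1) = 0} =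
      (Homeomorph.prodComm ℝ ℝ) ⁻¹' {z | z ∈ Om ∧ u z = 0} := by
    ext z
    simp only [mem_setOf_eq, mem_preimage]
    show _ ↔ (z.swap ∈ Om ∧ u z.swap = 0)
    rw [mem_Om_swap]
    rfl
  unfold nodalSet
  rw [h, ← Homeomorph.preimage_closure]
  rfl

end SWAP

theorem t_SWAP : S_SWAP := by
  intro u
  unfold nodalCount
  apply ENat.card_congr
  apply SWAP.ccEquiv
  refine (Homeomorph.prodComm ℝ ℝ).subtype ?_
  intro z
  show z ∈ Om \ nodalSet (fun z => u (z.2, z.1)) ↔ z.swap ∈ Om \ nodalSet u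
  rw [Set.mem_sdiff, Set.mem_sdiff, SWAP.mem_Om_swap, SWAP.nodalSet_swap]

end Pool.Agent.R292.ND
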