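import Pool.Agent.R292.ND.Stm

/-! ND-TRI (helper164): testing a nonpositive cosine sum against a triangle function. -/

open Set Real MeasureTheory intervalIntegral

namespace Pool.Agent.R292.ND

namespace TRI

theorem int1 (a m p : ℝ) (hp : p ≠ 0) :
    ∫ x in a..m, (x - a) * cos (p * x) =
      (m - a) * sin (p * m) / p + cos (p * m) / p ^ 2 - cos (p * a) / p ^ 2 := by
  have hd : ∀ x ∈ uIcc a m, HasDerivAt
      (fun x => (x - a) * sin (p * x) / p + cos (p * x) / p ^ 2) ((x - a) * cos (p * x)) x := by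
    intro x _
    have h1 : HasDerivAt (fun x : ℝ => p * x) p x := by
      simpa using (hasDerivAt_id x).const_mul p
    have h2 : HasDerivAt (fun x : ℝ => x - a) 1 x := (hasDerivAt_id x).sub_const a
    have h3 := ((h2.mul h1.sin).div_const p).add (h1.cos.div_const (p ^ 2))
    refine h3.congr_deriv ?_
    field_simp
    ring
  rw [integral_eq_sub_of_hasDerivAt hd]
  · ring
  · exact Continuous.intervalIntegrable (by fun_prop) _ _

theorem int2 (b m p : ℝ) (hp : p ≠ 0) :
    ∫ x in m..b, (b - x) * cos (p * x) =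
      - cos (p * b) / p ^ 2 - (b - m) * sin (p * m) / p + cos (p * m) / p ^ 2 := by
  have hd : ∀ x ∈ uIcc m b, HasDerivAt
      (fun x => (b - x) * sin (p * x) / p - cos (p * x) / p ^ 2) ((b - x) * cos (p * x)) x := by
    intro x _
    have h1 : HasDerivAt (fun x : ℝ => p * x) p x := by
      simpa using (hasDerivAt_id x).const_mul p
    have h2 : HasDerivAt (fun x : ℝ => b - x) (-1) x := by
      simpa using (hasDerivAt_id x).const_sub b
    have h3 := ((h2.mul h1.sin).div_const p).sub (h1.cos.div_const (p ^ 2))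
    refine h3.congr_deriv ?_
    field_simp
    ring
  rw [integral_eq_sub_of_hasDerivAt hd]
  · ring
  · exact Continuous.intervalIntegrable (by fun_prop) _ _

theorem int10 (a m : ℝ) : ∫ x in a..m, (x - a) * cos (0 * x) = (m - a) ^ 2 / 2 := by
  have hd : ∀ x ∈ uIcc a m, HasDerivAt
      (fun x => (x - a) ^ 2 / 2) ((x - a) * cos (0 * x)) x := by
    intro x _
    have h2 : HasDerivAt (fun x : ℝ => x - a) 1 x := (hasDerivAt_id x).sub_const a
    have h3 := (h2.pow 2).div_const 2
    refine h3.congr_deriv ?_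
    simp
  rw [integral_eq_sub_of_hasDerivAt hd]
  · ring
  · exact Continuous.intervalIntegrable (by fun_prop) _ _

theorem int20 (b m : ℝ) : ∫ x in m..b, (b - x) * cos (0 * x) = (b - m) ^ 2 / 2 := by
  have hd : ∀ x ∈ uIcc m b, HasDerivAt
      (fun x => - (b - x) ^ 2 / 2) ((b - x) * cos (0 * x)) x := by
    intro x _
    have h2 : HasDerivAt (fun x : ℝ => b - x) (-1) x := by
      simpa using (hasDerivAt_id x).const_sub b
    have h3 := ((h2.pow 2).neg).div_const 2
    refine h3.congr_deriv ?_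
    simp
  rw [integral_eq_sub_of_hasDerivAt hd]
  · ring
  · exact Continuous.intervalIntegrable (by fun_prop) _ _

end TRI

theorem t_TRI : S_TRI := by
  intro S A a b hab h0 hf
  set m : ℝ := (a + b) / 2 with hm
  have ham : a ≤ m := by rw [hm]; linarith
  have hmb : m ≤ b := by rw [hm]; linarith
  have hI1 : ∫ x in a..m, ∑ p ∈ S, A p * ((x - a) * cos (p * x)) ≤ 0 := by
    rw [← neg_nonneg, ← intervalIntegral.integral_neg]
    refine intervalIntegral.integral_nonneg ham ?_
    intro x hx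
    rw [neg_nonneg]
    have h1 : ∑ p ∈ S, A p * ((x - a) * cos (p * x)) = (x - a) * ∑ p ∈ S, A p * cos (p * x) := by
      rw [Finset.mul_sum]
      refine Finset.sum_congr rfl fun p _ => ?_
      ring
    rw [h1]
    exact mul_nonpos_of_nonneg_of_nonpos (by linarith [hx.1]) (hf x ⟨hx.1, hx.2.trans hmb⟩)
  have hI2 : ∫ x in m..b, ∑ p ∈ S, A p * ((b - x) * cos (p * x)) ≤ 0 := by
    rw [← neg_nonneg, ← intervalIntegral.integral_neg]
    refine intervalIntegral.integral_nonneg hmb ?_
    intro x hx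
    rw [neg_nonneg]
    have h1 : ∑ p ∈ S, A p * ((b - x) * cos (p * x)) = (b - x) * ∑ p ∈ S, A p * cos (p * x) := by
      rw [Finset.mul_sum]
      refine Finset.sum_congr rfl fun p _ => ?_
      ring
    rw [h1]
    exact mul_nonpos_of_nonneg_of_nonpos (by linarith [hx.2]) (hf x ⟨ham.trans hx.1, hx.2⟩)
  rw [intervalIntegral.integral_finsetSum (fun p _ => Continuous.intervalIntegrable (by fun_prop) _ _)] at hI1 hI2
  simp only [intervalIntegral.integral_const_mul] at hI1 hI2
  have hsum : ∑ p ∈ S, (A p * ∫ x in a..m, (x - a) * cos (p * x)) +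
      ∑ p ∈ S, (A p * ∫ x in m..b, (b - x) * cos (p * x)) ≤ 0 := by linarith
  rw [← Finset.sum_add_distrib, ← Finset.add_sum_erase S _ h0] at hsum
  have hz : A 0 * ((b - a) / 2) * ((b - a) / 2) = A 0 * (∫ x in a..m, (x - a) * cos (((0 : ℕ) : ℝ) * x)) +
      A 0 * (∫ x in m..b, (b - x) * cos (((0 : ℕ) : ℝ) * x)) := by
    rw [Nat.cast_zero, TRI.int10, TRI.int20, hm]
    ring
  rw [← hz] at hsum
  have hterm : ∀ p ∈ S.erase 0, -(|A p| * (4 / (p : ℝ) ^ 2)) ≤
      A p * (∫ x in a..m, (x - a) * cos (p * x)) + A p * (∫ x in m..b, (b - x) * cos (p * x)) := by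
    intro p hp
    have hp0 : (p : ℝ) ≠ 0 := by exact_mod_cast (Finset.mem_erase.mp hp).1
    have hpp : (0 : ℝ) < (p : ℝ) ^ 2 := by positivity
    rw [TRI.int1 a m p hp0, TRI.int2 b m p hp0]
    have he : A p * ((m - a) * sin (p * m) / p + cos (p * m) / (p : ℝ) ^ 2 - cos (p * a) / (p : ℝ) ^ 2) +
        A p * (-cos (p * b) / (p : ℝ) ^ 2 - (b - m) * sin (p * m) / p + cos (p * m) / (p : ℝ) ^ 2) =
        A p * (2 * cos (p * m) - cos (p * a) - cos (p * b)) / (p : ℝ) ^ 2 := by
      have hmm : m - a = b - m := by rw [hm]; ring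
      rw [hmm]
      ring
    rw [he]
    have h4 : |2 * cos (p * m) - cos (p * a) - cos (p * b)| ≤ 4 := by
      rw [abs_le]
      constructor <;> linarith [cos_le_one (p * m), cos_le_one (p * a), cos_le_one (p * b),
        neg_one_le_cos (p * m), neg_one_le_cos (p * a), neg_one_le_cos (p * b)]
    have h5 : |A p * (2 * cos (p * m) - cos (p * a) - cos (p * b))| ≤ |A p| * 4 := by
      rw [abs_mul]
      exact mul_le_mul_of_nonneg_left h4 (abs_nonneg _)
    have h6 := (abs_le.mp h5).1
    calc -(|A p| * (4 / (p : ℝ) ^ 2)) = (-(|A p| * 4)) / (p : ℝ) ^ 2 := by ring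
      _ ≤ _ := by
        apply div_le_div_of_nonneg_right h6 hpp.le
  have hall := Finset.sum_le_sum hterm
  rw [Finset.sum_neg_distrib] at hall
  have hlast : A 0 * ((b - a) / 2) * ((b - a) / 2) ≤ ∑ p ∈ S.erase 0, |A p| * (4 / (p : ℝ) ^ 2) := by
    linarith
  have hba : 0 < (b - a) / 2 := by linarith
  have hfin : ∑ p ∈ S.erase 0, |A p| * (4 / (p : ℝ) ^ 2) =
      (∑ p ∈ S.erase 0, |A p| * (8 / ((b - a) * (p : ℝ) ^ 2))) * ((b - a) / 2) := by
    rw [Finset.sum_mul]
    refine Finset.sum_congr rfl fun p hp => ?_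
    have hp0 : (p : ℝ) ≠ 0 := by exact_mod_cast (Finset.mem_erase.mp hp).1
    have hb0 : b - a ≠ 0 := by linarith
    field_simp
    ring
  rw [hfin] at hlast
  exact le_of_mul_le_mul_right hlast hba

end Pool.Agent.R292.ND
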